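import Mathlib

/-!
# ARB module Ine: the elementary inequalities for three rational tangles
-/

set_option autoImplicit false

namespace Pool.Agent.ARB

/-- one step of the recursion for `C`, upper bound -/
theorem ine_C_up (a b C' : ℚ) (ha : 1 ≤ a) (hab : a + 1 ≤ b) (h : |C'| ≤ a ^ 3 / 12) :
    (a ^ 4 + b ^ 4 - 5 * a ^ 2 * b ^ 2 + 3) / (12 * a * b) - C' ≤ b ^ 3 / 12 := by
  have hb : 0 < b := by linarith
  have ha' : 0 < a := by linarith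
  have h1 : -C' ≤ a ^ 3 / 12 := (neg_le_abs C').trans h
  have h2 : (a ^ 4 + b ^ 4 - 5 * a ^ 2 * b ^ 2 + 3) / (12 * a * b) ≤ b ^ 3 / 12 - a ^ 3 / 12 := by
    rw [div_le_iff₀ (by positivity)]
    obtain ⟨s, hs⟩ : ∃ s, s = a - 1 := ⟨_, rfl⟩
    obtain ⟨t, ht⟩ : ∃ t, t = b - a - 1 := ⟨_, rfl⟩
    have hs0 : 0 ≤ s := by rw [hs]; linarith
    have ht0 : 0 ≤ t := by rw [ht]; linarith
    have ea : a = 1 + s := by rw [hs]; ring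
    have eb : b = 2 + s + t := by rw [ht, hs]; ring
    have key : (b ^ 3 / 12 - a ^ 3 / 12) * (12 * a * b) -
        (a ^ 4 + b ^ 4 - 5 * a ^ 2 * b ^ 2 + 3) =
        3 * s ^ 4 * t + 6 * s ^ 4 + 6 * s ^ 3 * t ^ 2 + 30 * s ^ 3 * t + 36 * s ^ 3 +
        4 * s ^ 2 * t ^ 3 + 29 * s ^ 2 * t ^ 2 + 82 * s ^ 2 * t + 75 * s ^ 2 + s * t ^ 4 +
        8 * s * t ^ 3 + 34 * s * t ^ 2 + 78 * s * t + 63 * s + 5 * t ^ 2 + 19 * t + 14 := by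
      rw [ea, eb]
      ring
    have h3 : 0 ≤ (b ^ 3 / 12 - a ^ 3 / 12) * (12 * a * b) -
        (a ^ 4 + b ^ 4 - 5 * a ^ 2 * b ^ 2 + 3) := by
      rw [key]
      positivity
    linarith
  linarith

/-- one step of the recursion for `C`, lower bound -/
theorem ine_C_lo (a b C' : ℚ) (ha : 1 ≤ a) (hab : a + 1 ≤ b) (h : |C'| ≤ a ^ 3 / 12) :
    -(b ^ 3 / 12) ≤ (a ^ 4 + b ^ 4 - 5 * a ^ 2 * b ^ 2 + 3) / (12 * a * b) - C' := by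
  have hb : 0 < b := by linarith
  have ha' : 0 < a := by linarith
  have h1 : C' ≤ a ^ 3 / 12 := (le_abs_self C').trans h
  have h2 : a ^ 3 / 12 - b ^ 3 / 12 ≤ (a ^ 4 + b ^ 4 - 5 * a ^ 2 * b ^ 2 + 3) / (12 * a * b) := by
    rw [le_div_iff₀ (by positivity)]
    obtain ⟨s, hs⟩ : ∃ s, s = a - 1 := ⟨_, rfl⟩
    obtain ⟨t, ht⟩ : ∃ t, t = b - a - 1 := ⟨_, rfl⟩
    have hs0 : 0 ≤ s := by rw [hs]; linarith
    have ht0 : 0 ≤ t := by rw [ht]; linarith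
    have ea : a = 1 + s := by rw [hs]; ring
    have eb : b = 2 + s + t := by rw [ht, hs]; ring
    have key : (a ^ 4 + b ^ 4 - 5 * a ^ 2 * b ^ 2 + 3) -
        (a ^ 3 / 12 - b ^ 3 / 12) * (12 * a * b) =
        3 * s ^ 4 * t + 6 * s ^ 3 * t ^ 2 + 18 * s ^ 3 * t + 4 * s ^ 2 * t ^ 3 +
        31 * s ^ 2 * t ^ 2 + 50 * s ^ 2 * t + 5 * s ^ 2 + s * t ^ 4 + 16 * s * t ^ 3 +
        62 * s * t ^ 2 + 74 * s * t + 15 * s + 2 * t ^ 4 + 16 * t ^ 3 + 43 * t ^ 2 + 43 * t +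
        14 := by
      rw [ea, eb]
      ring
    have h3 : 0 ≤ (a ^ 4 + b ^ 4 - 5 * a ^ 2 * b ^ 2 + 3) -
        (a ^ 3 / 12 - b ^ 3 / 12) * (12 * a * b) := by
      rw [key]
      positivity
    linarith
  linarith

/-- one step of the recursion for `mu`, `a ≥ 2`, `b ≥ 2 a + 1` -/
theorem ine_mu (a b m' c' : ℚ) (ha : 2 ≤ a) (hab : 2 * a + 1 ≤ b) (hc : |c'| ≤ a / 12)
    (hm : m' ≤ (a ^ 2 - 1) / 24 + (1 - 1 / a ^ 2) / 4) :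
    m' + (b ^ 4 + 5 * a ^ 2 * b ^ 2 - 3 * a ^ 4 - 3) / (24 * a ^ 2 * b ^ 2) + a / b * c' ≤
      (b ^ 2 - 1) / 24 + (1 - 1 / b ^ 2) / 4 := by
  have hb : 0 < b := by linarith
  have ha' : 0 < a := by linarith
  have h1 : a / b * c' ≤ a / b * (a / 12) :=
    mul_le_mul_of_nonneg_left ((le_abs_self c').trans hc) (by positivity)
  obtain ⟨s, hs⟩ : ∃ s, s = a - 2 := ⟨_, rfl⟩
  obtain ⟨t, ht⟩ : ∃ t, t = b - 2 * a - 1 := ⟨_, rfl⟩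
  have hs0 : 0 ≤ s := by rw [hs]; linarith
  have ht0 : 0 ≤ t := by rw [ht]; linarith
  have ea : a = 2 + s := by rw [hs]; ring
  have eb : b = 5 + 2 * s + t := by rw [ht, hs]; ring
  have key : (b ^ 2 - 1) * a ^ 2 * b ^ 2 + 6 * (b ^ 2 - 1) * a ^ 2 -
      ((a ^ 2 - 1) * a ^ 2 * b ^ 2 + 6 * (a ^ 2 - 1) * b ^ 2 + 2 * a ^ 4 * b + b ^ 4 +
        5 * a ^ 2 * b ^ 2 - 3 * a ^ 4 - 3) =
      12 * s ^ 6 + 28 * s ^ 5 * t + 168 * s ^ 5 + 23 * s ^ 4 * t ^ 2 + 324 * s ^ 4 * t +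
      948 * s ^ 4 + 8 * s ^ 3 * t ^ 3 + 208 * s ^ 3 * t ^ 2 + 1444 * s ^ 3 * t + 2740 * s ^ 3 +
      s ^ 2 * t ^ 4 + 52 * s ^ 2 * t ^ 3 + 673 * s ^ 2 * t ^ 2 + 3074 * s ^ 2 * t +
      4238 * s ^ 2 + 4 * s * t ^ 4 + 104 * s * t ^ 3 + 908 * s * t ^ 2 + 3096 * s * t +
      3288 * s + 3 * t ^ 4 + 60 * t ^ 3 + 420 * t ^ 2 + 1168 * t + 992 := by
    rw [ea, eb]
    ring
  have h2 : 0 ≤ (b ^ 2 - 1) * a ^ 2 * b ^ 2 + 6 * (b ^ 2 - 1) * a ^ 2 -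
      ((a ^ 2 - 1) * a ^ 2 * b ^ 2 + 6 * (a ^ 2 - 1) * b ^ 2 + 2 * a ^ 4 * b + b ^ 4 +
        5 * a ^ 2 * b ^ 2 - 3 * a ^ 4 - 3) := by
    rw [key]
    positivity
  have h3 : (b ^ 2 - 1) / 24 + (1 - 1 / b ^ 2) / 4 -
      ((a ^ 2 - 1) / 24 + (1 - 1 / a ^ 2) / 4 +
        (b ^ 4 + 5 * a ^ 2 * b ^ 2 - 3 * a ^ 4 - 3) / (24 * a ^ 2 * b ^ 2) + a / b * (a / 12)) =
      ((b ^ 2 - 1) * a ^ 2 * b ^ 2 + 6 * (b ^ 2 - 1) * a ^ 2 -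
      ((a ^ 2 - 1) * a ^ 2 * b ^ 2 + 6 * (a ^ 2 - 1) * b ^ 2 + 2 * a ^ 4 * b + b ^ 4 +
        5 * a ^ 2 * b ^ 2 - 3 * a ^ 4 - 3)) / (24 * a ^ 2 * b ^ 2) := by
    field_simp
    ring
  have h4 : 0 ≤ ((b ^ 2 - 1) * a ^ 2 * b ^ 2 + 6 * (b ^ 2 - 1) * a ^ 2 -
      ((a ^ 2 - 1) * a ^ 2 * b ^ 2 + 6 * (a ^ 2 - 1) * b ^ 2 + 2 * a ^ 4 * b + b ^ 4 +
        5 * a ^ 2 * b ^ 2 - 3 * a ^ 4 - 3)) / (24 * a ^ 2 * b ^ 2) :=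
    div_nonneg h2 (by positivity)
  rw [← h3] at h4
  linarith

/-- one step of the recursion for `mu`, `a = 1` -/
theorem ine_mu_one (b : ℚ) (hb : 0 < b) :
    (b ^ 4 + 5 * 1 ^ 2 * b ^ 2 - 3 * 1 ^ 4 - 3) / (24 * 1 ^ 2 * b ^ 2) =
      (b ^ 2 - 1) / 24 + (1 - 1 / b ^ 2) / 4 := by
  field_simp
  ring

/-- the final estimate for `2 ≤ x`, `3 ≤ y`, `5 ≤ z` -/
theorem ine_final (x y z : ℚ) (hx : 2 ≤ x) (hy : 3 ≤ y) (hz : 5 ≤ z) (hxy : x ≤ y) (hyz : y ≤ z) :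
    11 / 24 + 1 / (24 * (x * y * z) ^ 2) +
      (((x ^ 2 - 1) / 24 + (1 - 1 / x ^ 2) / 4) + ((y ^ 2 - 1) / 24 + (1 - 1 / y ^ 2) / 4) +
        ((z ^ 2 - 1) / 24 + (1 - 1 / z ^ 2) / 4)) + x * y * z * (x / 12 + y / 12 + z / 12) <
      1 / 8 * (x * y * z * (1 - 1 / x ^ 2 - 1 / y ^ 2 - 1 / z ^ 2)) ^ 2 := by
  obtain ⟨q, hq⟩ : ∃ q, q = x * y * z := ⟨_, rfl⟩
  have hx0 : 0 < x := by linarith
  have hy0 : 0 < y := by linarith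
  have hz0 : 0 < z := by linarith
  have hxy6 : 6 ≤ x * y := by nlinarith
  have hq30 : 30 ≤ q := by rw [hq]; nlinarith
  -- the sum
  have s1 : x + y ≤ x * y / 2 + 2 := by nlinarith
  have s2 : x * y ≤ q / 5 := by
    rw [hq]
    nlinarith [mul_pos hx0 hy0]
  have s3 : z ≤ q / 6 := by
    rw [hq]
    nlinarith
  have s4 : x + y ≤ q / 10 + 2 := by linarith
  have s5 : x + y + z ≤ 4 / 15 * q + 2 := by linarith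
  -- the squares
  have t1 : z ^ 2 ≤ q ^ 2 / 36 := by nlinarith
  have t2 : x ^ 2 + y ^ 2 ≤ (q / 10 + 2) ^ 2 := by nlinarith [mul_pos hx0 hy0]
  -- the inverse squares
  have i1 : 1 / x ^ 2 ≤ 1 / 4 := by
    rw [div_le_div_iff₀ (by positivity) (by norm_num)]
    nlinarith
  have i2 : 1 / y ^ 2 ≤ 1 / 9 := by
    rw [div_le_div_iff₀ (by positivity) (by norm_num)]
    nlinarith
  have i3 : 1 / z ^ 2 ≤ 1 / 25 := by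
    rw [div_le_div_iff₀ (by positivity) (by norm_num)]
    nlinarith
  have j1 : 0 < 1 / x ^ 2 := by positivity
  have j2 : 0 < 1 / y ^ 2 := by positivity
  have j3 : 0 < 1 / z ^ 2 := by positivity
  have k1 : 539 / 900 ≤ 1 - 1 / x ^ 2 - 1 / y ^ 2 - 1 / z ^ 2 := by linarith
  have k2 : (539 / 900) ^ 2 ≤ (1 - 1 / x ^ 2 - 1 / y ^ 2 - 1 / z ^ 2) ^ 2 := by
    exact pow_le_pow_left₀ (by norm_num) k1 2
  have k3 : 1 / (24 * q ^ 2) ≤ 1 / 24 := by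
    rw [div_le_div_iff₀ (by positivity) (by norm_num)]
    nlinarith
  have k4 : (q * (1 - 1 / x ^ 2 - 1 / y ^ 2 - 1 / z ^ 2)) ^ 2 =
      q ^ 2 * (1 - 1 / x ^ 2 - 1 / y ^ 2 - 1 / z ^ 2) ^ 2 := by ring
  have k5 : q ^ 2 * (539 / 900) ^ 2 ≤
      q ^ 2 * (1 - 1 / x ^ 2 - 1 / y ^ 2 - 1 / z ^ 2) ^ 2 :=
    mul_le_mul_of_nonneg_left k2 (by positivity)
  have k6 : q * (x / 12 + y / 12 + z / 12) ≤ q * ((4 / 15 * q + 2) / 12) :=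
    mul_le_mul_of_nonneg_left (by linarith) (by linarith)
  rw [← hq, k4]
  have k7 : (x ^ 2 - 1) / 24 + (y ^ 2 - 1) / 24 + (z ^ 2 - 1) / 24 ≤
      ((q / 10 + 2) ^ 2 + q ^ 2 / 36 - 3) / 24 := by linarith
  nlinarith

end Pool.Agent.ARB
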