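import Pool.Agent.Helper2.Diagram

/-!
# Arborescent tangles and knots: shared definitions

Diagrams in Morse position are words of elementary pieces, read from bottom to top
(`Pool.Agent.Helper2.Slice`); here the unoriented version `Word` is used.
-/

set_option autoImplicit false

namespace Pool.Agent.ARB

/-! ### unoriented words -/

/-- The kinds of pieces: cup (minimum), cap (maximum), crossing (`true`: the strand from the lower
left to the upper right is the over-strand). -/
inductive Kind where
  | U
  | N
  | X (p : Bool)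
deriving DecidableEq

/-- number of strands entering a piece from below -/
def Kind.inn : Kind → ℕ
  | .U => 0
  | .N => 2
  | .X _ => 2

/-- number of strands leaving a piece above -/
def Kind.out : Kind → ℕ
  | .U => 2
  | .N => 0
  | .X _ => 2

/-- A piece at position `i`: there are `i` strands to the left of it. -/
structure Piece where
  k : Kind
  i : ℕ
deriving DecidableEq

/-- cup at `i` -/
abbrev pU (i : ℕ) : Piece := ⟨.U, i⟩
/-- cap at `i` -/
abbrev pN (i : ℕ) : Piece := ⟨.N, i⟩
/-- crossing at `i` -/
abbrev pX (i : ℕ) (p : Bool) : Piece := ⟨.X p, i⟩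

/-- words, read from bottom to top -/
abbrev Word := List Piece

/-- `Ok w n m`: the word `w` fits on `n` strands and has `m` strands above it. -/
def Ok : Word → ℕ → ℕ → Prop
  | [], n, m => n = m
  | s :: w, n, m => s.i + s.k.inn ≤ n ∧ Ok w (n - s.k.inn + s.k.out) m

/-- put `j` more strands on the left -/
def sh (j : ℕ) (w : Word) : Word := w.map fun s => ⟨s.k, s.i + j⟩

/-! ### isotopy -/

/-- The local moves. -/
inductive Loc : Word → Word → Prop
  /-- interchange of distant pieces -/
  | swap (s t : Kind) (i k : ℕ) : Loc [⟨s, i⟩, ⟨t, i + s.out + k⟩] [⟨t, i + s.inn + k⟩, ⟨s, i⟩]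
  /-- zigzags -/
  | zig (i : ℕ) : Loc [pU i, pN (i + 1)] []
  | zag (i : ℕ) : Loc [pU (i + 1), pN i] []
  /-- a crossing slides over a cup or a cap -/
  | slU (i : ℕ) (p : Bool) : Loc [pU (i + 1), pX i p] [pU i, pX (i + 1) (!p)]
  | slN (i : ℕ) (p : Bool) : Loc [pX i p, pN (i + 1)] [pX (i + 1) (!p), pN i]
  /-- first Reidemeister move -/
  | r1U (i : ℕ) (p : Bool) : Loc [pU i, pX i p] [pU i]
  | r1N (i : ℕ) (p : Bool) : Loc [pX i p, pN i] [pN i]
  /-- second Reidemeister move -/
  | r2 (i : ℕ) (p : Bool) : Loc [pX i p, pX i (!p)] []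
  /-- third Reidemeister move -/
  | r3 (i : ℕ) (p : Bool) : Loc [pX i p, pX (i + 1) p, pX i p] [pX (i + 1) p, pX i p, pX (i + 1) p]

/-- One move, inside a word on `n` strands. -/
def Step (n : ℕ) (w w' : Word) : Prop :=
  ∃ (u a b v : Word) (k l : ℕ), w = u ++ (a ++ v) ∧ w' = u ++ (b ++ v) ∧ Ok u n k ∧ Ok a k l ∧
    Ok b k l ∧ (Loc a b ∨ Loc b a)

/-- Isotopy of words on `n` strands. -/
def Iso (n : ℕ) : Word → Word → Prop := Relation.ReflTransGen (Step n)

/-- the trivial diagram -/
def O1 : Word := [pU 0, pN 0]

/-! ### tangles with four ends -/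

/-- rotation by 90 degrees, counterclockwise -/
def rotW (w : Word) : Word := pU 2 :: (sh 1 w ++ [pN 0])

/-- rotation by 90 degrees, clockwise -/
def rotW' (w : Word) : Word := pU 0 :: (sh 1 w ++ [pN 2])

/-- numerator closure -/
def NW (w : Word) : Word := pU 0 :: pU 1 :: (w ++ [pN 1, pN 0])

/-- denominator closure -/
def DW (w : Word) : Word := pU 0 :: (w ++ [pN 0])

/-- Arborescent (Conway algebraic) tangles: obtained from crossings by sums and rotations. -/
inductive Arb where
  | zero
  | cross (p : Bool)
  | sum (S T : Arb)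
  | rot (T : Arb)

/-- the diagram of an arborescent tangle -/
def Arb.word : Arb → Word
  | .zero => []
  | .cross p => [pX 0 p]
  | .sum S T => S.word ++ T.word
  | .rot T => rotW T.word

/-- `(p, q)`: determinants of the two closures, with signs -/
def Arb.pq : Arb → ℤ × ℤ
  | .zero => (0, 1)
  | .cross p => (if p then 1 else -1, 1)
  | .sum S T => (S.pq.1 * T.pq.2 + S.pq.2 * T.pq.1, S.pq.2 * T.pq.2)
  | .rot T => (T.pq.2, -T.pq.1)

/-- Rational tangles: obtained from `0` by adding single crossings and rotations. -/
inductive Rat : Arb → Prop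
  | zero : Rat .zero
  | add (T : Arb) (p : Bool) : Rat T → Rat (.sum T (.cross p))
  | rot (T : Arb) : Rat T → Rat (.rot T)

/-! ### diagrams of links -/

/-- forget the directions -/
def forget (D : List Pool.Agent.Helper2.Slice) : Word :=
  D.map fun s => match s with
    | .cup i _ => pU i
    | .cap i => pN i
    | .cross i p => pX i p

end Pool.Agent.ARB
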