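import Mathlib
import Pool.Agent.ARB.Defs

/-!
# ARB: the 2-jet of the bracket pair of an arborescent tangle
-/

set_option autoImplicit false

namespace Pool.Agent.ARB

/-- The invariants of the 2-jet of the bracket pair `(γ, β)` at `A ^ 4 = -1`: the constant terms
`p, q`, the Wronskian `w = W(γ, β)`, and the three Hirota products `G = -[γ, γ]`, `F = -[γ, β]`,
`H = -[β, β]`. -/
@[ext]
structure Jet where
  p : ℚ
  q : ℚ
  w : ℚ
  G : ℚ
  F : ℚ
  H : ℚ

namespace Jet

/-- the tangle 0 -/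
def zero : Jet := ⟨0, 1, 0, 0, 0, 0⟩

/-- a crossing -/
def cross (s : Bool) : Jet := ⟨if s then 1 else -1, 1, 1 / 2, 0, if s then -1 / 8 else 1 / 8, 0⟩

/-- rotation -/
def rot (A : Jet) : Jet := ⟨A.q, -A.p, A.w, A.H, -A.F, A.G⟩

/-- the quadratic form -/
def Q (A : Jet) (x y : ℚ) : ℚ := A.G * x ^ 2 + 2 * A.F * x * y + A.H * y ^ 2

/-- sum of two tangles -/
def sum (A B : Jet) : Jet where
  p := A.p * B.q + A.q * B.p
  q := A.q * B.q
  w := A.w * B.q ^ 2 + B.w * A.q ^ 2 + A.p * B.p * A.q * B.q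
  H := A.H * B.q ^ 2 + B.H * A.q ^ 2
  F := A.F * B.q ^ 2 + A.H * B.p * B.q + B.F * A.q ^ 2 + B.H * A.p * A.q -
    B.p * B.q * A.w - A.p * A.q * B.w
  G := A.Q B.q B.p + B.Q A.q A.p + 2 * A.w * B.w - 2 * A.p ^ 2 * B.w - 2 * B.p ^ 2 * A.w +
    A.p ^ 2 * B.p ^ 2

/-- the numerical invariant which is `-1` for rational tangles -/
def Om (A : Jet) : ℚ := 2 * A.w - A.p ^ 2 - A.q ^ 2

/-- `p²` times the second logarithmic derivative of the bracket of the numerator closure -/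
def E (A : Jet) : ℚ := 2 * A.w - A.q ^ 2 - A.G

end Jet

/-- the jet of an arborescent tangle -/
def Arb.jet : Arb → Jet
  | .zero => Jet.zero
  | .cross s => Jet.cross s
  | .sum S T => S.jet.sum T.jet
  | .rot T => T.jet.rot

end Pool.Agent.ARB
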