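import Mathlib
import Pool.Agent.ARB.Jet

/-!
# ARB: statements about jets of arborescent tangles (no topology)

Proofs: Pool/Agent/ARB/JetA.lean (identities), JetU.lean (uniqueness), JetT.lean (three tangles).
-/

set_option autoImplicit false

namespace Pool.Agent.ARB

/-- `p`, `q` of the jet are the integers of `Arb.pq`. -/
def St_JetPq : Prop := ∀ T : Arb, T.jet.p = (T.pq.1 : ℚ) ∧ T.jet.q = (T.pq.2 : ℚ)

/-- the relation between the invariants -/
def St_JetQuad : Prop := ∀ T : Arb, T.jet.Q T.jet.q (-T.jet.p) = T.jet.w ^ 2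

/-- the sum of jets is associative and commutative; rotations can be moved to the other side -/
def St_JetSum : Prop :=
  (∀ A B C : Jet, (A.sum B).sum C = A.sum (B.sum C)) ∧ (∀ A B : Jet, A.sum B = B.sum A) ∧
    (∀ A : Jet, Jet.zero.sum A = A) ∧ ∀ A B : Jet, (A.rot.sum B).E = (A.sum B.rot).E

/-- `Om ≥ -1` if `p, q` are coprime. -/
def St_OmGe : Prop := ∀ T : Arb, IsCoprime T.pq.1 T.pq.2 → -1 ≤ T.jet.Om

/-- the sum formula for `Om`: for coprime `p, q` of a sum with `q ≠ 0`, `Om = -1` of the sum forces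
`Om = -1` of both summands, and one of them is integral -/
def St_OmSum : Prop := ∀ A B : Arb, IsCoprime (Arb.sum A B).pq.1 (Arb.sum A B).pq.2 →
    (Arb.sum A B).pq.2 ≠ 0 → (Arb.sum A B).jet.Om = -1 →
    A.jet.Om = -1 ∧ B.jet.Om = -1 ∧ (A.pq.2.natAbs = 1 ∨ B.pq.2.natAbs = 1)

/-- coprimality of the parts -/
def St_CopSum : Prop := ∀ A B : Arb, IsCoprime (Arb.sum A B).pq.1 (Arb.sum A B).pq.2 →
    IsCoprime A.pq.1 A.pq.2 ∧ IsCoprime B.pq.1 B.pq.2 ∧ IsCoprime A.pq.2 B.pq.2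

/-- rational tangles: coprime, `Om = -1` -/
def St_RatOm : Prop := ∀ R : Arb, Rat R → IsCoprime R.pq.1 R.pq.2 ∧ R.jet.Om = -1

/-- the two tangles have the same slope -/
def SameSlope (A A' : Arb) : Prop :=
  (A.pq.1 = A'.pq.1 ∧ A.pq.2 = A'.pq.2) ∨ (A.pq.1 = -A'.pq.1 ∧ A.pq.2 = -A'.pq.2)

/-- the jet of a rational tangle depends on the slope only, up to the sign of `(p, q)` -/
def St_RatUniq : Prop := ∀ R R' : Arb, Rat R → Rat R' → SameSlope R R' →
    R.jet.w = R'.jet.w ∧ R.jet.G = R'.jet.G ∧ R.jet.F = R'.jet.F ∧ R.jet.H = R'.jet.H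

/-- two rational tangles -/
def St_TwoRat : Prop := ∀ A B : Arb, Rat A → Rat B → (Arb.sum A B).pq.1.natAbs = 1 →
    (Arb.sum A B).jet.E = 0

/-- the splice formula -/
def St_Splice : Prop := ∀ A B A' B' : Arb, Rat A' → Rat B' → SameSlope A A' → SameSlope B B' →
    (Arb.sum A B).pq.1.natAbs = 1 →
    (Arb.sum A B).jet.E = (Arb.sum A B').jet.E + (Arb.sum A' B).jet.E -
      1 / 2 * (A.jet.Om + 1) * (B.jet.Om + 1)

/-- three rational tangles with `|q| ≥ 2` -/
def St_Three : Prop := ∀ R1 R2 R3 : Arb, Rat R1 → Rat R2 → Rat R3 →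
    (Arb.sum (Arb.sum R1 R2) R3).pq.1.natAbs = 1 → 2 ≤ R1.pq.2.natAbs → 2 ≤ R2.pq.2.natAbs →
    2 ≤ R3.pq.2.natAbs → (Arb.sum (Arb.sum R1 R2) R3).jet.E < 0

/-- every coprime pair is the slope of a rational tangle -/
def St_RatEx : Prop := ∀ T : Arb, IsCoprime T.pq.1 T.pq.2 → ∃ R : Arb, Rat R ∧ SameSlope T R

end Pool.Agent.ARB
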