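import Mathlib
import Pool.Agent.ARB.AlgStmts

/-!
# ARB: identities for jets
-/

set_option autoImplicit false

namespace Pool.Agent.ARB

namespace Jet

theorem sum_assoc (A B C : Jet) : (A.sum B).sum C = A.sum (B.sum C) := by
  ext <;> simp only [sum, Q] <;> ring

theorem sum_comm (A B : Jet) : A.sum B = B.sum A := by
  ext <;> simp only [sum, Q] <;> ring

theorem zero_sum (A : Jet) : zero.sum A = A := by
  ext <;> simp only [sum, Q, zero] <;> ring

theorem sum_zero (A : Jet) : A.sum zero = A := by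
  rw [sum_comm, zero_sum]

theorem E_rot (A B : Jet) : (A.rot.sum B).E = (A.sum B.rot).E := by
  simp only [sum, Q, rot, E]
  ring

/-- `Om` of a sum -/
theorem Om_sum (A B : Jet) :
    (A.sum B).Om = A.q ^ 2 * B.q ^ 2 + A.Om * B.q ^ 2 + B.Om * A.q ^ 2 := by
  simp only [sum, Om]
  ring

theorem Om_rot (A : Jet) : A.rot.Om = A.Om := by
  simp only [rot, Om]
  ring

/-- the symmetric formula -/
theorem E_sum (A B : Jet) : (A.sum B).E = 2 * A.w * B.w - A.Om * B.Om - A.Q B.q B.p - B.Q A.q A.p +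
    (A.p * B.q + A.q * B.p) ^ 2 := by
  simp only [sum, Q, E, Om]
  ring

/-- the splice formula for jets -/
theorem splice (A B A' B' : Jet) (hA : A'.Om = -1) (hB : B'.Om = -1)
    (sA : (A.p = A'.p ∧ A.q = A'.q) ∨ (A.p = -A'.p ∧ A.q = -A'.q))
    (sB : (B.p = B'.p ∧ B.q = B'.q) ∨ (B.p = -B'.p ∧ B.q = -B'.q)) :
    (A.sum B).E = (A.sum B').E + (A'.sum B).E - (A'.sum B').E -
      1 / 2 * (A.Om + 1) * (B.Om + 1) := by
  have wA : A'.w = (A'.p ^ 2 + A'.q ^ 2 - 1) / 2 := by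
    unfold Om at hA
    linarith
  have wB : B'.w = (B'.p ^ 2 + B'.q ^ 2 - 1) / 2 := by
    unfold Om at hB
    linarith
  rw [E_sum, E_sum, E_sum, E_sum, hA, hB, wA, wB]
  rcases sA with ⟨h1, h2⟩ | ⟨h1, h2⟩ <;> rcases sB with ⟨h3, h4⟩ | ⟨h3, h4⟩ <;>
    simp only [Om, Q, h1, h2, h3, h4] <;> ring

end Jet

theorem jet_pq : St_JetPq := by
  intro T
  induction T with
  | zero => constructor <;> simp [Arb.jet, Arb.pq, Jet.zero]
  | cross s => cases s <;> constructor <;> simp [Arb.jet, Arb.pq, Jet.cross]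
  | sum S T hS hT =>
    constructor
    · simp only [Arb.jet, Arb.pq, Jet.sum, hS.1, hS.2, hT.1, hT.2]
      push_cast
      ring
    · simp only [Arb.jet, Arb.pq, Jet.sum, hS.2, hT.2]
      push_cast
      ring
  | rot T hT =>
    constructor
    · simp only [Arb.jet, Arb.pq, Jet.rot, hT.2]
    · simp only [Arb.jet, Arb.pq, Jet.rot, hT.1]
      push_cast
      ring

theorem jet_quad : St_JetQuad := by
  intro T
  induction T with
  | zero => simp [Arb.jet, Jet.zero, Jet.Q]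
  | cross s => cases s <;> norm_num [Arb.jet, Jet.cross, Jet.Q]
  | sum S T hS hT =>
    simp only [Arb.jet]
    simp only [Jet.Q] at hS hT
    simp only [Jet.sum, Jet.Q]
    linear_combination T.jet.q ^ 4 * hS + S.jet.q ^ 4 * hT
  | rot T hT =>
    simp only [Arb.jet]
    simp only [Jet.Q] at hT
    simp only [Jet.rot, Jet.Q]
    linear_combination hT

theorem jet_sum : St_JetSum :=
  ⟨Jet.sum_assoc, Jet.sum_comm, Jet.zero_sum, Jet.E_rot⟩

theorem cop_sum : St_CopSum := by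
  intro A B h
  simp only [Arb.pq] at h
  obtain ⟨u, v, huv⟩ := h
  refine ⟨⟨u * B.pq.2, u * B.pq.1 + v * B.pq.2, ?_⟩, ⟨u * A.pq.2, u * A.pq.1 + v * A.pq.2, ?_⟩,
    ⟨u * B.pq.1 + v * B.pq.2, u * A.pq.1, ?_⟩⟩
  · linear_combination huv
  · linear_combination huv
  · linear_combination huv

private theorem jetA_sq (z : ℤ) (hz : z ≠ 0) : (1 : ℚ) ≤ (z : ℚ) ^ 2 := by
  have h : (1 : ℤ) ≤ z ^ 2 := by
    have := sq_nonneg z
    have h2 : z ^ 2 ≠ 0 := pow_ne_zero 2 hz
    omega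
  exact_mod_cast h

private theorem jetA_zero {a b : ℤ} (h : IsCoprime a b) (ha : a = 0) : (b : ℚ) ^ 2 = 1 := by
  rw [ha] at h
  have h1 : IsUnit b := isCoprime_zero_left.mp h
  rcases Int.isUnit_iff.mp h1 with h2 | h2 <;> rw [h2] <;> norm_num

theorem om_ge : St_OmGe := by
  intro T
  induction T with
  | zero => intro _; norm_num [Arb.jet, Jet.zero, Jet.Om]
  | cross s => intro _; cases s <;> norm_num [Arb.jet, Jet.cross, Jet.Om]
  | rot T hT =>
    intro h
    simp only [Arb.pq] at h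
    simp only [Arb.jet]
    rw [Jet.Om_rot]
    exact hT ((IsCoprime.neg_right_iff _ _).mp h).symm
  | sum S T hS hT =>
    intro h
    obtain ⟨h1, h2, h3⟩ := cop_sum S T h
    have i1 := hS h1
    have i2 := hT h2
    simp only [Arb.jet]
    rw [Jet.Om_sum, (jet_pq S).2, (jet_pq T).2]
    by_cases z1 : S.pq.2 = 0
    · have h4 := jetA_zero h3 z1
      rw [z1, h4]
      push_cast
      linarith
    · by_cases z2 : T.pq.2 = 0
      · have h4 := jetA_zero h3.symm z2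
        rw [z2, h4]
        push_cast
        linarith
      · have j1 := jetA_sq _ z1
        have j2 := jetA_sq _ z2
        nlinarith [mul_nonneg (sub_nonneg.mpr j1) (sub_nonneg.mpr j2)]

theorem om_sum : St_OmSum := by
  intro S T h hq hO
  obtain ⟨h1, h2, h3⟩ := cop_sum S T h
  have i1 := om_ge S h1
  have i2 := om_ge T h2
  simp only [Arb.pq] at hq
  have z1 : S.pq.2 ≠ 0 := left_ne_zero_of_mul hq
  have z2 : T.pq.2 ≠ 0 := right_ne_zero_of_mul hq
  have j1 := jetA_sq _ z1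
  have j2 := jetA_sq _ z2
  simp only [Arb.jet] at hO
  rw [Jet.Om_sum, (jet_pq S).2, (jet_pq T).2] at hO
  have k0 : (S.jet.Om + 1) * (T.pq.2 : ℚ) ^ 2 + (T.jet.Om + 1) * (S.pq.2 : ℚ) ^ 2 +
      ((S.pq.2 : ℚ) ^ 2 - 1) * ((T.pq.2 : ℚ) ^ 2 - 1) = 0 := by
    linear_combination hO
  have k1 : 0 ≤ (S.jet.Om + 1) * (T.pq.2 : ℚ) ^ 2 := mul_nonneg (by linarith) (by positivity)
  have k2 : 0 ≤ (T.jet.Om + 1) * (S.pq.2 : ℚ) ^ 2 := mul_nonneg (by linarith) (by positivity)
  have k3 : 0 ≤ ((S.pq.2 : ℚ) ^ 2 - 1) * ((T.pq.2 : ℚ) ^ 2 - 1) :=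
    mul_nonneg (by linarith) (by linarith)
  have l1 : (S.jet.Om + 1) * (T.pq.2 : ℚ) ^ 2 = 0 := by linarith
  have l2 : (T.jet.Om + 1) * (S.pq.2 : ℚ) ^ 2 = 0 := by linarith
  have l3 : ((S.pq.2 : ℚ) ^ 2 - 1) * ((T.pq.2 : ℚ) ^ 2 - 1) = 0 := by linarith
  have y1 : (S.pq.2 : ℚ) ^ 2 ≠ 0 := by positivity
  have y2 : (T.pq.2 : ℚ) ^ 2 ≠ 0 := by positivity
  have one : ∀ z : ℤ, (z : ℚ) ^ 2 - 1 = 0 → z.natAbs = 1 := by
    intro z hz
    have h5 : z ^ 2 = 1 := by
      have : (z : ℚ) ^ 2 = 1 := by linarith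
      exact_mod_cast this
    have h6 : z.natAbs ^ 2 = 1 := by
      have := Int.natAbs_sq z
      zify
      rw [sq_abs]
      exact h5
    exact (pow_eq_one_iff.mp h6).resolve_right (by norm_num)
  refine ⟨?_, ?_, ?_⟩
  · rcases mul_eq_zero.mp l1 with h5 | h5
    · linarith
    · exact absurd h5 y2
  · rcases mul_eq_zero.mp l2 with h5 | h5
    · linarith
    · exact absurd h5 y1
  · rcases mul_eq_zero.mp l3 with h5 | h5
    · exact Or.inl (one _ h5)
    · exact Or.inr (one _ h5)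

end Pool.Agent.ARB
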