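import Mathlib
import Pool.Agent.ARB.JetA

/-!
# ARB: the jet of a rational tangle depends on the slope only
-/

set_option autoImplicit false

namespace Pool.Agent.ARB

namespace Jet

/-- change of the sign of the pair -/
def neg (A : Jet) : Jet := ⟨-A.p, -A.q, A.w, A.G, A.F, A.H⟩

/-- mirror image -/
def mir (A : Jet) : Jet := ⟨-A.p, A.q, A.w, A.G, -A.F, A.H⟩

/-- reflection in the diagonal -/
def dia (A : Jet) : Jet := ⟨A.q, A.p, A.w, A.H, A.F, A.G⟩

/-- adding a positive crossing -/
def up (A : Jet) : Jet := A.sum (cross true)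

/-- adding a negative crossing -/
def dn (A : Jet) : Jet := A.sum (cross false)

/-- the tangle infinity -/
def inf : Jet := ⟨1, 0, 0, 0, 0, 0⟩

theorem neg_neg' (A : Jet) : A.neg.neg = A := by ext <;> simp [neg]

theorem mir_mir (A : Jet) : A.mir.mir = A := by ext <;> simp [mir]

theorem dia_dia (A : Jet) : A.dia.dia = A := rfl

theorem neg_sum (A B : Jet) : A.neg.sum B = (A.sum B).neg := by
  ext <;> simp only [neg, sum, Q] <;> ring

theorem neg_rot (A : Jet) : A.neg.rot = A.rot.neg := rfl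

theorem neg_mir (A : Jet) : A.neg.mir = A.mir.neg := rfl

theorem mir_sum (A B : Jet) : A.mir.sum B.mir = (A.sum B).mir := by
  ext <;> simp only [mir, sum, Q] <;> ring

theorem mir_cross (s : Bool) : (cross s).mir = cross (!s) := by
  cases s <;> (ext <;> norm_num [mir, cross])

theorem mir_up (A : Jet) : A.mir.up = A.dn.mir := by
  unfold up dn
  rw [← mir_sum, mir_cross]
  rfl

theorem mir_dn (A : Jet) : A.mir.dn = A.up.mir := by
  unfold up dn
  rw [← mir_sum, mir_cross]
  rfl

theorem cross_cross : (cross true).sum (cross false) = zero := by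
  ext <;> norm_num [sum, Q, cross, zero]

theorem dn_up (A : Jet) : A.up.dn = A := by
  unfold up dn
  rw [sum_assoc, cross_cross, sum_zero]

theorem up_dn (A : Jet) : A.dn.up = A := by
  unfold up dn
  rw [sum_assoc, sum_comm (cross false), cross_cross, sum_zero]

theorem neg_up (A : Jet) : A.neg.up = A.up.neg := neg_sum _ _

theorem neg_dn (A : Jet) : A.neg.dn = A.dn.neg := neg_sum _ _

theorem inf_up : inf.up = inf := by
  ext <;> norm_num [up, sum, Q, cross, inf]

theorem inf_dn : inf.dn = inf := by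
  have h := dn_up inf
  rwa [inf_up] at h

theorem zero_dia : zero.dia = inf := rfl

theorem inf_dia : inf.dia = zero := rfl

theorem zero_up_dia : zero.up.dia = zero.up := by
  unfold up
  rw [zero_sum]
  ext <;> norm_num [cross, dia]

/-- the relation in the modular group; `V X = dia (up (dia X))` -/
theorem rel (X : Jet) : X.dia.up.dia.dn = X.up.dia.mir := by
  ext <;> simp only [up, dn, dia, mir, sum, Q, cross] <;> norm_num <;> ring

theorem rot_eq (A : Jet) : A.rot = A.dia.mir.neg := by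
  ext <;> simp [rot, dia, mir, neg]

theorem up_p (A : Jet) : A.up.p = A.p + A.q := by
  simp [up, sum, cross]

theorem up_q (A : Jet) : A.up.q = A.q := by
  simp [up, sum, cross]

end Jet

/-- the canonical jet of the slope `a / b` -/
def can : ℕ → ℕ → Jet
  | 0, _ => Jet.zero
  | _ + 1, 0 => Jet.inf
  | a + 1, b + 1 => if b ≤ a then (can (a - b) (b + 1)).up else (can (a + 1) (b - a)).dia.up.dia
termination_by a b => a + b
decreasing_by all_goals omega

theorem can_zero (b : ℕ) : can 0 b = Jet.zero := by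
  rw [can]

theorem can_inf (a : ℕ) : can (a + 1) 0 = Jet.inf := by
  rw [can]

theorem can_add (a b : ℕ) (hb : 0 < b) : can (a + b) b = (can a b).up := by
  obtain ⟨b', rfl⟩ : ∃ b', b = b' + 1 := ⟨b - 1, by omega⟩
  have h : a + (b' + 1) = (a + b') + 1 := by ring
  rw [h, can, if_pos (by omega)]
  congr 2
  omega

/-- a larger denominator -/
theorem can_add' (a b : ℕ) (ha : 0 < a) (hb : 0 < b) :
    can a (a + b) = (can a b).dia.up.dia := by
  obtain ⟨a', rfl⟩ : ∃ a', a = a' + 1 := ⟨a - 1, by omega⟩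
  have h : a' + 1 + b = (a' + b) + 1 := by ring
  rw [h, can, if_neg (by omega)]
  congr 4
  omega

theorem can_self (a : ℕ) (ha : 0 < a) : can a a = Jet.zero.up := by
  have h := can_add 0 a ha
  rwa [zero_add, can_zero] at h

/-- symmetry -/
theorem can_symm : ∀ (n a b : ℕ), a + b ≤ n → 0 < a + b → can b a = (can a b).dia := by
  intro n
  induction n with
  | zero => intro a b h1 h2; omega
  | succ n ih =>
    intro a b h1 h2
    rcases Nat.eq_zero_or_pos a with rfl | ha
    · obtain ⟨b', rfl⟩ : ∃ b', b = b' + 1 := ⟨b - 1, by omega⟩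
      rw [can_zero, can_inf]
      rfl
    · rcases Nat.eq_zero_or_pos b with rfl | hb
      · obtain ⟨a', rfl⟩ : ∃ a', a = a' + 1 := ⟨a - 1, by omega⟩
        rw [can_zero, can_inf]
        rfl
      · rcases lt_trichotomy a b with h | h | h
        · obtain ⟨c, rfl⟩ : ∃ c, b = a + c := ⟨b - a, by omega⟩
          rw [can_add' a c ha (by omega), Jet.dia_dia, add_comm a c, can_add c a ha,
            ih a c (by omega) (by omega)]
        · rw [h, can_self b hb, Jet.zero_up_dia]
        · obtain ⟨c, rfl⟩ : ∃ c, a = b + c := ⟨a - b, by omega⟩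
          rw [can_add' b c hb (by omega), add_comm b c, can_add c b hb,
            ih c b (by omega) (by omega), Jet.dia_dia]

theorem can_pq : ∀ (n a b : ℕ), a + b ≤ n → Nat.Coprime a b →
    (can a b).p = a ∧ (can a b).q = b := by
  intro n
  induction n with
  | zero =>
    intro a b h1 h2
    have ha : a = 0 := by omega
    have hb : b = 0 := by omega
    rw [ha, hb] at h2
    norm_num at h2
  | succ n ih =>
    intro a b h1 h2
    rcases Nat.eq_zero_or_pos a with rfl | ha
    · have hb : b = 1 := by simpa using h2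
      rw [hb, can_zero]
      simp [Jet.zero]
    · rcases Nat.eq_zero_or_pos b with rfl | hb
      · have ha' : a = 1 := by simpa using h2
        rw [ha', can_inf 0]
        simp [Jet.inf]
      · by_cases h : b ≤ a
        · obtain ⟨c, rfl⟩ : ∃ c, a = c + b := ⟨a - b, by omega⟩
          have h3 : Nat.Coprime c b := by simpa using h2
          obtain ⟨i1, i2⟩ := ih c b (by omega) h3
          rw [can_add c b hb, Jet.up_p, Jet.up_q, i1, i2]
          push_cast
          exact ⟨rfl, rfl⟩
        · obtain ⟨c, rfl⟩ : ∃ c, b = a + c := ⟨b - a, by omega⟩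
          have h3 : Nat.Coprime a c := by simpa using h2
          obtain ⟨i1, i2⟩ := ih a c (by omega) h3
          rw [can_add' a c ha (by omega)]
          show (can a c).dia.up.q = _ ∧ (can a c).dia.up.p = _
          rw [Jet.up_p, Jet.up_q]
          show (can a c).p = _ ∧ (can a c).q + (can a c).p = _
          rw [i1, i2]
          push_cast
          exact ⟨rfl, by ring⟩

/-- canonical jets up to mirror images and signs -/
def IsCan (J : Jet) : Prop :=
  ∃ a b : ℕ, Nat.Coprime a b ∧ (J = can a b ∨ J = (can a b).neg ∨ J = (can a b).mir ∨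
    J = (can a b).mir.neg)

theorem IsCan.neg {J : Jet} (h : IsCan J) : IsCan J.neg := by
  obtain ⟨a, b, hab, h⟩ := h
  refine ⟨a, b, hab, ?_⟩
  rcases h with h | h | h | h
  · exact Or.inr (Or.inl (by rw [h]))
  · exact Or.inl (by rw [h, Jet.neg_neg'])
  · exact Or.inr (Or.inr (Or.inr (by rw [h])))
  · exact Or.inr (Or.inr (Or.inl (by rw [h, Jet.neg_neg'])))

theorem IsCan.mir {J : Jet} (h : IsCan J) : IsCan J.mir := by
  obtain ⟨a, b, hab, h⟩ := h
  refine ⟨a, b, hab, ?_⟩
  rcases h with h | h | h | h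
  · exact Or.inr (Or.inr (Or.inl (by rw [h])))
  · exact Or.inr (Or.inr (Or.inr (by rw [h, Jet.neg_mir])))
  · exact Or.inl (by rw [h, Jet.mir_mir])
  · exact Or.inr (Or.inl (by rw [h, Jet.neg_mir, Jet.mir_mir]))

private theorem can_up (a b : ℕ) (h : Nat.Coprime a b) : IsCan (can a b).up := by
  rcases Nat.eq_zero_or_pos b with rfl | hb
  · have ha' : a = 1 := by simpa using h
    rw [ha', can_inf 0, Jet.inf_up]
    exact ⟨1, 0, by norm_num, Or.inl (can_inf 0).symm⟩
  · exact ⟨a + b, b, by simpa using h, Or.inl (can_add a b hb).symm⟩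

private theorem can_dn (a b : ℕ) (h : Nat.Coprime a b) : IsCan (can a b).dn := by
  rcases Nat.eq_zero_or_pos b with rfl | hb
  · have ha' : a = 1 := by simpa using h
    rw [ha', can_inf 0, Jet.inf_dn]
    exact ⟨1, 0, by norm_num, Or.inl (can_inf 0).symm⟩
  · by_cases hba : b ≤ a
    · obtain ⟨c, rfl⟩ : ∃ c, a = c + b := ⟨a - b, by omega⟩
      rw [can_add c b hb, Jet.dn_up]
      exact ⟨c, b, by simpa using h, Or.inl rfl⟩
    · rcases Nat.eq_zero_or_pos a with rfl | ha
      · have hb1 : b = 1 := by simpa using h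
        rw [hb1, can_zero]
        refine ⟨1, 1, by norm_num, Or.inr (Or.inr (Or.inl ?_))⟩
        rw [can_self 1 one_pos]
        unfold Jet.dn Jet.up
        rw [Jet.zero_sum, Jet.zero_sum, Jet.mir_cross]
        rfl
      · obtain ⟨c, rfl⟩ : ∃ c, b = a + c := ⟨b - a, by omega⟩
        have hc : 0 < c := by omega
        have h3 : Nat.Coprime a c := by simpa using h
        rw [can_add' a c ha hc, Jet.rel]
        rw [← can_add a c hc, ← can_symm _ (a + c) c le_rfl (by omega)]
        refine ⟨c, a + c, ?_, Or.inr (Or.inr (Or.inl rfl))⟩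
        simpa using h3.symm

theorem IsCan.up {J : Jet} (h : IsCan J) : IsCan J.up := by
  obtain ⟨a, b, hab, h⟩ := h
  rcases h with h | h | h | h
  · rw [h]
    exact can_up a b hab
  · rw [h, Jet.neg_up]
    exact (can_up a b hab).neg
  · rw [h, Jet.mir_up]
    exact (can_dn a b hab).mir
  · rw [h, Jet.neg_up, Jet.mir_up]
    exact (can_dn a b hab).mir.neg

theorem IsCan.dn {J : Jet} (h : IsCan J) : IsCan J.dn := by
  obtain ⟨a, b, hab, h⟩ := h
  rcases h with h | h | h | h
  · rw [h]
    exact can_dn a b hab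
  · rw [h, Jet.neg_dn]
    exact (can_dn a b hab).neg
  · rw [h, Jet.mir_dn]
    exact (can_up a b hab).mir
  · rw [h, Jet.neg_dn, Jet.mir_dn]
    exact (can_up a b hab).mir.neg

private theorem can_rot (a b : ℕ) (h : Nat.Coprime a b) : IsCan (can a b).rot := by
  have h0 : 0 < a + b := by
    rcases Nat.eq_zero_or_pos (a + b) with h1 | h1
    · have ha : a = 0 := by omega
      have hb : b = 0 := by omega
      rw [ha, hb] at h
      norm_num at h
    · exact h1
  rw [Jet.rot_eq, ← can_symm _ a b le_rfl h0]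
  exact ⟨b, a, h.symm, Or.inr (Or.inr (Or.inr rfl))⟩

theorem IsCan.rot {J : Jet} (h : IsCan J) : IsCan J.rot := by
  obtain ⟨a, b, hab, h⟩ := h
  rcases h with h | h | h | h
  · rw [h]
    exact can_rot a b hab
  · rw [h, Jet.neg_rot]
    exact (can_rot a b hab).neg
  · have h1 : (can a b).mir.rot = (can a b).rot.mir.neg := by
      ext <;> simp [Jet.mir, Jet.rot, Jet.neg]
    rw [h, h1]
    exact (can_rot a b hab).mir.neg
  · have h1 : (can a b).mir.neg.rot = (can a b).rot.mir := by
      ext <;> simp [Jet.mir, Jet.rot, Jet.neg]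
    rw [h, h1]
    exact (can_rot a b hab).mir

theorem rat_can (R : Arb) (h : Rat R) : IsCan R.jet := by
  induction h with
  | zero => exact ⟨0, 1, by norm_num, Or.inl (can_zero 1).symm⟩
  | add T p _ ih =>
    cases p
    · exact ih.dn
    · exact ih.up
  | rot T _ ih => exact ih.rot

theorem rat_om : St_RatOm := by
  intro R h
  induction h with
  | zero => exact ⟨isCoprime_one_right, by norm_num [Arb.jet, Jet.zero, Jet.Om]⟩
  | add T p _ ih =>
    obtain ⟨⟨u, v, huv⟩, ih2⟩ := ih
    constructor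
    · cases p
      · refine ⟨u, u + v, ?_⟩
        simp only [Arb.pq, reduceIte, Bool.false_eq_true]
        linear_combination huv
      · refine ⟨u, v - u, ?_⟩
        simp only [Arb.pq, reduceIte]
        linear_combination huv
    · simp only [Arb.jet]
      rw [Jet.Om_sum, ih2]
      cases p <;> simp only [Jet.cross, Jet.Om] <;> norm_num
  | rot T _ ih =>
    constructor
    · simp only [Arb.pq]
      exact (IsCoprime.neg_right_iff _ _).mpr ih.1.symm
    · simp only [Arb.jet]
      rw [Jet.Om_rot]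
      exact ih.2

private theorem can_eq {a b a' b' : ℕ} (h : Nat.Coprime a b) (h' : Nat.Coprime a' b')
    (ha : |(can a b).p| = |(can a' b').p|) (hb : |(can a b).q| = |(can a' b').q|) :
    a = a' ∧ b = b' := by
  rw [(can_pq _ a b le_rfl h).1, (can_pq _ a' b' le_rfl h').1, abs_of_nonneg (by positivity),
    abs_of_nonneg (by positivity)] at ha
  rw [(can_pq _ a b le_rfl h).2, (can_pq _ a' b' le_rfl h').2, abs_of_nonneg (by positivity),
    abs_of_nonneg (by positivity)] at hb
  exact ⟨by exact_mod_cast ha, by exact_mod_cast hb⟩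

/-- a canonical jet with vanishing `p q` has `F = 0` -/
private theorem can_F0 {a b : ℕ} (h : Nat.Coprime a b) (h0 : a = 0 ∨ b = 0) :
    (can a b).F = 0 := by
  rcases h0 with h0 | h0
  · rw [h0, can_zero]
    rfl
  · rw [h0] at h
    have ha : a = 1 := by simpa using h
    rw [h0, ha, can_inf 0]
    rfl

private theorem isCan_uniq {J J' : Jet} (h : IsCan J) (h' : IsCan J')
    (s : (J.p = J'.p ∧ J.q = J'.q) ∨ (J.p = -J'.p ∧ J.q = -J'.q)) :
    J.w = J'.w ∧ J.G = J'.G ∧ J.F = J'.F ∧ J.H = J'.H := by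
  obtain ⟨a, b, hab, h⟩ := h
  obtain ⟨a', b', hab', h'⟩ := h'
  have e1 : |J.p| = |(can a b).p| ∧ |J.q| = |(can a b).q| := by
    rcases h with h | h | h | h <;> rw [h] <;> simp [Jet.neg, Jet.mir]
  have e2 : |J'.p| = |(can a' b').p| ∧ |J'.q| = |(can a' b').q| := by
    rcases h' with h' | h' | h' | h' <;> rw [h'] <;> simp [Jet.neg, Jet.mir]
  have e3 : |J.p| = |J'.p| ∧ |J.q| = |J'.q| := by
    rcases s with ⟨s1, s2⟩ | ⟨s1, s2⟩ <;> rw [s1, s2] <;> simp
  obtain ⟨ha, hb⟩ := can_eq hab hab' (by rw [← e1.1, ← e2.1, e3.1]) (by rw [← e1.2, ← e2.2, e3.2])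
  rw [← ha, ← hb] at h'
  have hpq : J.p * J.q = J'.p * J'.q := by
    rcases s with ⟨s1, s2⟩ | ⟨s1, s2⟩ <;> rw [s1, s2] <;> ring
  obtain ⟨p1, q1⟩ := can_pq _ a b le_rfl hab
  by_cases h0 : a = 0 ∨ b = 0
  · have hF := can_F0 hab h0
    rcases h with h | h | h | h <;> rcases h' with h' | h' | h' | h' <;> rw [h, h'] <;>
      simp [Jet.neg, Jet.mir, hF]
  · have ha0 : (0 : ℚ) < (can a b).p := by
      rw [p1]
      have : 0 < a := by omega
      exact_mod_cast this
    have hb0 : (0 : ℚ) < (can a b).q := by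
      rw [q1]
      have : 0 < b := by omega
      exact_mod_cast this
    have hp : 0 < (can a b).p * (can a b).q := mul_pos ha0 hb0
    rcases h with h | h | h | h <;> rcases h' with h' | h' | h' | h' <;> rw [h, h'] at hpq ⊢ <;>
      simp only [Jet.neg, Jet.mir] at hpq ⊢ <;>
      first
        | (simp; done)
        | (exfalso; nlinarith)

theorem sameSlope_jet {A A' : Arb} (h : SameSlope A A') :
    (A.jet.p = A'.jet.p ∧ A.jet.q = A'.jet.q) ∨ (A.jet.p = -A'.jet.p ∧ A.jet.q = -A'.jet.q) := by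
  rw [(jet_pq A).1, (jet_pq A).2, (jet_pq A').1, (jet_pq A').2]
  rcases h with ⟨h1, h2⟩ | ⟨h1, h2⟩
  · exact Or.inl ⟨by rw [h1], by rw [h2]⟩
  · exact Or.inr ⟨by rw [h1]; push_cast; rfl, by rw [h2]; push_cast; rfl⟩

theorem rat_uniq : St_RatUniq := by
  intro R R' h h' s
  exact isCan_uniq (rat_can R h) (rat_can R' h') (sameSlope_jet s)

/-- integral canonical jets -/
private theorem can_one_H (n : ℕ) : (can n 1).H = 0 := by
  induction n with
  | zero => rw [can_zero]; rfl
  | succ n ih =>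
    rw [can_add n 1 one_pos]
    simp [Jet.up, Jet.sum, Jet.cross, ih]

private theorem isCan_E {J : Jet} (h : IsCan J) (hO : J.Om = -1) (hp : |J.p| = 1) : J.E = 0 := by
  obtain ⟨a, b, hab, h⟩ := h
  have e1 : |J.p| = |(can a b).p| := by
    rcases h with h | h | h | h <;> rw [h] <;> simp [Jet.neg, Jet.mir]
  have ha : a = 1 := by
    rw [e1, (can_pq _ a b le_rfl hab).1, abs_of_nonneg (by positivity)] at hp
    exact_mod_cast hp
  have hG : (can a b).G = 0 := by
    rw [ha]
    have h1 := can_symm _ b 1 le_rfl (by omega)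
    rw [h1]
    exact can_one_H b
  have hGJ : J.G = 0 := by
    rcases h with h | h | h | h <;> rw [h] <;> simp [Jet.neg, Jet.mir, hG]
  unfold Jet.Om at hO
  unfold Jet.E
  have h2 : J.p ^ 2 = 1 := by
    rw [← sq_abs, hp]
    norm_num
  rw [hGJ]
  linarith

private theorem two_rat (A : Arb) (hA : Rat A) : ∀ J : Jet, IsCan J → J.Om = -1 →
    |(A.jet.sum J).p| = 1 → (A.jet.sum J).E = 0 := by
  induction hA with
  | zero =>
    intro J hJ hO hp
    simp only [Arb.jet] at hp ⊢
    rw [Jet.zero_sum] at hp ⊢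
    exact isCan_E hJ hO hp
  | add T p _ ih =>
    intro J hJ hO hp
    have h1 : (Arb.sum T (.cross p)).jet.sum J = T.jet.sum (J.sum (Jet.cross p)) := by
      show (T.jet.sum (Jet.cross p)).sum J = _
      rw [Jet.sum_assoc, Jet.sum_comm (Jet.cross p)]
    rw [h1] at hp ⊢
    refine ih _ ?_ ?_ hp
    · cases p
      · exact hJ.dn
      · exact hJ.up
    · rw [Jet.Om_sum, hO]
      cases p <;> simp only [Jet.cross, Jet.Om] <;> norm_num
  | rot T _ ih =>
    intro J hJ hO hp
    simp only [Arb.jet] at hp ⊢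
    rw [Jet.E_rot]
    refine ih _ hJ.rot (by rw [Jet.Om_rot, hO]) ?_
    rw [← hp]
    congr 1
    simp only [Jet.sum, Jet.rot]
    ring

theorem natAbs_cast {z : ℤ} (h : z.natAbs = 1) : |(z : ℚ)| = 1 := by
  have h1 : |z| = 1 := by
    rw [Int.abs_eq_natAbs, h]
    rfl
  exact_mod_cast h1

theorem two_rat' : St_TwoRat := by
  intro A B hA hB h
  refine two_rat A hA B.jet (rat_can B hB) (rat_om B hB).2 ?_
  have h1 : (A.jet.sum B.jet).p = ((Arb.sum A B).pq.1 : ℚ) := (jet_pq (Arb.sum A B)).1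
  rw [h1]
  exact natAbs_cast h

theorem splice : St_Splice := by
  intro A B A' B' hA hB sA sB h
  have h1 := Jet.splice A.jet B.jet A'.jet B'.jet (rat_om A' hA).2 (rat_om B' hB).2
    (sameSlope_jet sA) (sameSlope_jet sB)
  have h2 : (Arb.sum A' B').jet.E = 0 := by
    refine two_rat' A' B' hA hB ?_
    simp only [Arb.pq] at h ⊢
    rcases sA with ⟨a1, a2⟩ | ⟨a1, a2⟩ <;> rcases sB with ⟨b1, b2⟩ | ⟨b1, b2⟩ <;>
      rw [a1, a2, b1, b2] at h
    · exact h
    · rw [← h, ← Int.natAbs_neg]
      congr 1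
      ring
    · rw [← h, ← Int.natAbs_neg]
      congr 1
      ring
    · rw [← h]
      congr 1
      ring
  have h3 : (A'.jet.sum B'.jet).E = 0 := h2
  rw [h3] at h1
  show (A.jet.sum B.jet).E = (A.jet.sum B'.jet).E + (A'.jet.sum B.jet).E - _
  rw [h1]
  ring

/-- adding crossings -/
private theorem rat_shift (R : Arb) (hR : Rat R) (n : ℕ) :
    (∃ S, Rat S ∧ S.pq.1 = R.pq.1 + n * R.pq.2 ∧ S.pq.2 = R.pq.2) ∧
      ∃ S, Rat S ∧ S.pq.1 = R.pq.1 - n * R.pq.2 ∧ S.pq.2 = R.pq.2 := by
  induction n with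
  | zero => exact ⟨⟨R, hR, by simp, rfl⟩, ⟨R, hR, by simp, rfl⟩⟩
  | succ n ih =>
    obtain ⟨⟨S, hS, h1, h2⟩, ⟨S', hS', h3, h4⟩⟩ := ih
    refine ⟨⟨_, Rat.add S true hS, ?_, ?_⟩, ⟨_, Rat.add S' false hS', ?_, ?_⟩⟩
    · simp only [Arb.pq, h1, h2]
      push_cast
      simp
      ring
    · simp [Arb.pq, h2]
    · simp only [Arb.pq, h3, h4]
      push_cast
      simp
      ring
    · simp [Arb.pq, h4]

theorem rat_ex_pq : ∀ (n : ℕ) (p q : ℤ), q.natAbs ≤ n → IsCoprime p q →
    ∃ R, Rat R ∧ ((R.pq.1 = p ∧ R.pq.2 = q) ∨ (R.pq.1 = -p ∧ R.pq.2 = -q)) := by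
  intro n
  induction n with
  | zero =>
    intro p q hn h
    have hq : q = 0 := by omega
    rw [hq] at h
    have h1 : IsUnit p := isCoprime_zero_right.mp h
    refine ⟨_, Rat.rot _ Rat.zero, ?_⟩
    rw [hq]
    rcases Int.isUnit_iff.mp h1 with h2 | h2 <;> rw [h2]
    · exact Or.inl (by simp [Arb.pq])
    · exact Or.inr (by simp [Arb.pq])
  | succ n ih =>
    intro p q hn h
    by_cases hq : q = 0
    · exact ih p q (by rw [hq]; simp) h
    have hr0 : 0 ≤ p % q := Int.emod_nonneg p hq
    have hr1 : p % q < |q| := Int.emod_lt_abs p hq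
    have hcop : IsCoprime q (-(p % q)) := by
      rw [IsCoprime.neg_right_iff]
      have h2 : p % q = p + q * (-(p / q)) := by
        have := Int.emod_def p q
        linarith
      rw [h2]
      exact (IsCoprime.add_mul_left_right h.symm _)
    obtain ⟨R, hR, hpq⟩ := ih q (-(p % q)) (by
      rw [Int.natAbs_neg]
      have : |q| = (q.natAbs : ℤ) := Int.abs_eq_natAbs q
      omega) hcop
    obtain ⟨s1, s2⟩ := rat_shift _ (Rat.rot R hR) (p / q).natAbs
    have hdiv : p = p % q + (p / q) * q := by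
      have := Int.emod_add_mul_ediv p q
      linarith [mul_comm (p / q) q]
    have hex : ∃ S, Rat S ∧ S.pq.1 = (Arb.rot R).pq.1 + (p / q) * (Arb.rot R).pq.2 ∧
        S.pq.2 = (Arb.rot R).pq.2 := by
      rcases Int.natAbs_eq (p / q) with h3 | h3
      · obtain ⟨S, hS, e1, e2⟩ := s1
        exact ⟨S, hS, by rw [e1, ← h3], e2⟩
      · obtain ⟨S, hS, e1, e2⟩ := s2
        refine ⟨S, hS, ?_, e2⟩
        rw [e1, h3, Int.natAbs_neg, Int.natAbs_natCast]
        ring
    obtain ⟨S, hS, e1, e2⟩ := hex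
    refine ⟨S, hS, ?_⟩
    simp only [Arb.pq] at e1 e2
    rcases hpq with ⟨h4, h5⟩ | ⟨h4, h5⟩ <;> rw [h4, h5] at e1 <;> rw [h4] at e2
    · refine Or.inr ⟨?_, e2⟩
      rw [e1]
      linarith
    · refine Or.inl ⟨?_, ?_⟩
      · rw [e1]
        linarith
      · rw [e2]
        ring

theorem rat_ex : St_RatEx := by
  intro T h
  obtain ⟨R, hR, h1⟩ := rat_ex_pq _ T.pq.1 T.pq.2 le_rfl h
  refine ⟨R, hR, ?_⟩
  rcases h1 with ⟨h2, h3⟩ | ⟨h2, h3⟩
  · exact Or.inl ⟨h2.symm, h3.symm⟩
  · exact Or.inr ⟨by rw [h2]; ring, by rw [h3]; ring⟩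

end Pool.Agent.ARB
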