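import Mathlib
import Pool.Agent.ARB.JetU
import Pool.Agent.ARB.Ine

/-!
# ARB: three rational tangles
-/

set_option autoImplicit false

namespace Pool.Agent.ARB

namespace Jet

/-- the coefficient of `h²` of `log x` -/
def gg (A : Jet) : ℚ := A.w / A.q ^ 2 - A.p ^ 2 / (2 * A.q ^ 2)

/-- the coefficient of `h³` of `log x` -/
def cc (A : Jet) : ℚ := (A.p * A.H - A.q * A.F) / A.q ^ 3 + A.p / (24 * A.q) -
  A.p * A.w / A.q ^ 3 + A.p ^ 3 / (3 * A.q ^ 3)

/-- the coefficient of `h²` of `log β` -/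
def bb (A : Jet) : ℚ := -A.H / (2 * A.q ^ 2)

/-- the additive invariant -/
def mu (A : Jet) : ℚ := A.bb + A.gg / 2

theorem gg_sum (A B : Jet) (hA : A.q ≠ 0) (hB : B.q ≠ 0) : (A.sum B).gg = A.gg + B.gg := by
  simp only [gg, sum]
  field_simp
  ring

theorem bb_sum (A B : Jet) (hA : A.q ≠ 0) (hB : B.q ≠ 0) : (A.sum B).bb = A.bb + B.bb := by
  simp only [bb, sum]
  field_simp
  ring

theorem cc_sum (A B : Jet) (hA : A.q ≠ 0) (hB : B.q ≠ 0) : (A.sum B).cc = A.cc + B.cc := by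
  simp only [cc, sum]
  field_simp
  ring

theorem mu_sum (A B : Jet) (hA : A.q ≠ 0) (hB : B.q ≠ 0) : (A.sum B).mu = A.mu + B.mu := by
  unfold mu
  rw [gg_sum A B hA hB, bb_sum A B hA hB]
  ring

theorem E_eq (A : Jet) (hp : A.p ^ 2 = 1) (hq : A.q ≠ 0) (hQ : A.Q A.q (-A.p) = A.w ^ 2) :
    A.E = 2 * (A.q * A.p * A.cc + A.mu + 11 / 24 + 1 / (24 * A.q ^ 2) -
      A.q ^ 2 * (A.gg - 1) ^ 2 / 2) := by
  have hG : A.G = (A.w ^ 2 + 2 * A.F * A.p * A.q - A.H * A.p ^ 2) / A.q ^ 2 := by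
    unfold Q at hQ
    rw [eq_div_iff (pow_ne_zero 2 hq)]
    linear_combination hQ
  have key : A.E - 2 * (A.q * A.p * A.cc + A.mu + 11 / 24 + 1 / (24 * A.q ^ 2) -
      A.q ^ 2 * (A.gg - 1) ^ 2 / 2) = -(A.p ^ 2 - 1) * (A.H / A.q ^ 2 - 11 / 12 - A.w / A.q ^ 2 +
      (5 * A.p ^ 2 - 1) / (12 * A.q ^ 2)) := by
    unfold E mu cc bb gg
    rw [hG]
    field_simp
    ring
  rw [hp] at key
  linarith

theorem gg_rat (A : Jet) (hq : A.q ≠ 0) (hO : A.Om = -1) : A.gg = 1 / 2 - 1 / (2 * A.q ^ 2) := by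
  have hw : A.w = (A.p ^ 2 + A.q ^ 2 - 1) / 2 := by
    unfold Om at hO
    linarith
  unfold gg
  rw [hw]
  field_simp
  ring

theorem cc_dia (A : Jet) (hp : A.p ≠ 0) (hq : A.q ≠ 0) (hO : A.Om = -1)
    (hQ : A.Q A.q (-A.p) = A.w ^ 2) :
    A.dia.cc * A.p ^ 2 = (A.p ^ 4 + A.q ^ 4 - 5 * A.p ^ 2 * A.q ^ 2 + 3) / (12 * A.p * A.q) -
      A.cc * A.q ^ 2 := by
  have hw : A.w = (A.p ^ 2 + A.q ^ 2 - 1) / 2 := by
    unfold Om at hO
    linarith
  have hG : A.G = (A.w ^ 2 + 2 * A.F * A.p * A.q - A.H * A.p ^ 2) / A.q ^ 2 := by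
    unfold Q at hQ
    rw [eq_div_iff (pow_ne_zero 2 hq)]
    linear_combination hQ
  simp only [cc, dia]
  rw [hG, hw]
  field_simp
  ring

theorem mu_dia (A : Jet) (hp : A.p ≠ 0) (hq : A.q ≠ 0) (hO : A.Om = -1)
    (hQ : A.Q A.q (-A.p) = A.w ^ 2) :
    A.dia.mu = A.mu + (A.p ^ 4 + 5 * A.q ^ 2 * A.p ^ 2 - 3 * A.q ^ 4 - 3) /
      (24 * A.q ^ 2 * A.p ^ 2) + A.q / A.p * A.cc := by
  have hw : A.w = (A.p ^ 2 + A.q ^ 2 - 1) / 2 := by
    unfold Om at hO
    linarith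
  have hG : A.G = (A.w ^ 2 + 2 * A.F * A.p * A.q - A.H * A.p ^ 2) / A.q ^ 2 := by
    unfold Q at hQ
    rw [eq_div_iff (pow_ne_zero 2 hq)]
    linear_combination hQ
  simp only [mu, bb, gg, cc, dia]
  rw [hG, hw]
  field_simp
  ring

theorem up_cc (A : Jet) (hq : A.q ≠ 0) : A.up.cc = A.cc := by
  unfold up
  rw [cc_sum A _ hq (by simp [cross])]
  norm_num [cc, cross]

theorem up_mu (A : Jet) (hq : A.q ≠ 0) : A.up.mu = A.mu := by
  unfold up
  rw [mu_sum A _ hq (by simp [cross])]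
  norm_num [mu, bb, gg, cross]

theorem dn_cc (A : Jet) (hq : A.q ≠ 0) : A.dn.cc = A.cc := by
  unfold dn
  rw [cc_sum A _ hq (by simp [cross])]
  norm_num [cc, cross]

theorem dn_mu (A : Jet) (hq : A.q ≠ 0) : A.dn.mu = A.mu := by
  unfold dn
  rw [mu_sum A _ hq (by simp [cross])]
  norm_num [mu, bb, gg, cross]

theorem mir_cc (A : Jet) : A.mir.cc = -A.cc := by
  simp only [cc, mir]
  ring

theorem mir_mu (A : Jet) : A.mir.mu = A.mu := by
  simp only [mu, bb, gg, mir]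
  ring

theorem neg_cc (A : Jet) : A.neg.cc = A.cc := by
  simp only [cc, neg]
  have h1 : (-A.q) ^ 3 = -(A.q ^ 3) := by ring
  have h2 : 24 * -A.q = -(24 * A.q) := by ring
  have h3 : 3 * (-A.q) ^ 3 = -(3 * A.q ^ 3) := by ring
  rw [h3, h1, h2, div_neg, div_neg, div_neg, div_neg]
  ring

theorem neg_mu (A : Jet) : A.neg.mu = A.mu := by
  simp only [mu, bb, gg, neg]
  ring

end Jet

theorem can_om : ∀ (n a b : ℕ), a + b ≤ n → (can a b).Om = -1 := by
  intro n
  induction n with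
  | zero =>
    intro a b h1
    have ha : a = 0 := by omega
    rw [ha, can_zero]
    norm_num [Jet.zero, Jet.Om]
  | succ n ih =>
    intro a b h1
    rcases Nat.eq_zero_or_pos a with rfl | ha
    · rw [can_zero]
      norm_num [Jet.zero, Jet.Om]
    · rcases Nat.eq_zero_or_pos b with rfl | hb
      · obtain ⟨a', rfl⟩ : ∃ a', a = a' + 1 := ⟨a - 1, by omega⟩
        rw [can_inf]
        norm_num [Jet.inf, Jet.Om]
      · have hup : ∀ J : Jet, J.Om = -1 → J.up.Om = -1 := by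
          intro J hJ
          unfold Jet.up
          rw [Jet.Om_sum, hJ]
          simp only [Jet.cross, Jet.Om]
          norm_num
        have hdia : ∀ J : Jet, J.Om = -1 → J.dia.Om = -1 := by
          intro J hJ
          rw [← hJ]
          simp only [Jet.dia, Jet.Om]
          ring
        by_cases h : b ≤ a
        · obtain ⟨c, rfl⟩ : ∃ c, a = c + b := ⟨a - b, by omega⟩
          rw [can_add c b hb]
          exact hup _ (ih c b (by omega))
        · obtain ⟨c, rfl⟩ : ∃ c, b = a + c := ⟨b - a, by omega⟩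
          rw [can_add' a c ha (by omega)]
          exact hdia _ (hup _ (hdia _ (ih a c (by omega))))

theorem can_quad : ∀ (n a b : ℕ), a + b ≤ n →
    (can a b).Q (can a b).q (-(can a b).p) = (can a b).w ^ 2 := by
  intro n
  induction n with
  | zero =>
    intro a b h1
    have ha : a = 0 := by omega
    rw [ha, can_zero]
    norm_num [Jet.zero, Jet.Q]
  | succ n ih =>
    intro a b h1
    rcases Nat.eq_zero_or_pos a with rfl | ha
    · rw [can_zero]
      norm_num [Jet.zero, Jet.Q]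
    · rcases Nat.eq_zero_or_pos b with rfl | hb
      · obtain ⟨a', rfl⟩ : ∃ a', a = a' + 1 := ⟨a - 1, by omega⟩
        rw [can_inf]
        norm_num [Jet.inf, Jet.Q]
      · have hup : ∀ J : Jet, J.Q J.q (-J.p) = J.w ^ 2 → J.up.Q J.up.q (-J.up.p) = J.up.w ^ 2 := by
          intro J hJ
          simp only [Jet.Q] at hJ
          simp only [Jet.up, Jet.sum, Jet.Q, Jet.cross, if_true]
          linear_combination hJ
        have hdia : ∀ J : Jet, J.Q J.q (-J.p) = J.w ^ 2 →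
            J.dia.Q J.dia.q (-J.dia.p) = J.dia.w ^ 2 := by
          intro J hJ
          simp only [Jet.Q] at hJ
          simp only [Jet.dia, Jet.Q]
          linear_combination hJ
        by_cases h : b ≤ a
        · obtain ⟨c, rfl⟩ : ∃ c, a = c + b := ⟨a - b, by omega⟩
          rw [can_add c b hb]
          exact hup _ (ih c b (by omega))
        · obtain ⟨c, rfl⟩ : ∃ c, b = a + c := ⟨b - a, by omega⟩
          rw [can_add' a c ha (by omega)]
          exact hdia _ (hup _ (hdia _ (ih a c (by omega))))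

/-- reflection -/
theorem can_refl (a c : ℕ) (ha : 0 < a) (hc : 0 < c) :
    (can a (a + c)).dn = (can c (a + c)).mir := by
  rw [can_add' a c ha hc, Jet.rel, ← can_add a c hc, ← can_symm _ (a + c) c le_rfl (by omega)]

private theorem can_q_ne {a b : ℕ} (h : Nat.Coprime a b) (hb : 0 < b) : (can a b).q ≠ 0 := by
  rw [(can_pq _ a b le_rfl h).2]
  exact_mod_cast hb.ne'

/-- the bounds for the canonical jets -/
private def Bd (a b : ℕ) : Prop :=
  |(can a b).cc| ≤ (b : ℚ) / 12 ∧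
    (can a b).mu ≤ ((b : ℚ) ^ 2 - 1) / 24 + (1 - 1 / (b : ℚ) ^ 2) / 4

private theorem bd_reduce (b : ℕ) (hb : 0 < b) (h : ∀ a, a < b → Nat.Coprime a b → Bd a b) :
    ∀ a, Nat.Coprime a b → Bd a b := by
  intro a
  induction a using Nat.strong_induction_on with
  | _ a ih =>
    intro hab
    by_cases hlt : a < b
    · exact h a hlt hab
    · obtain ⟨c, rfl⟩ : ∃ c, a = c + b := ⟨a - b, by omega⟩
      have hc : Nat.Coprime c b := by simpa using hab
      have h1 := ih c (by omega) hc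
      unfold Bd at h1 ⊢
      rw [can_add c b hb, Jet.up_cc _ (can_q_ne hc hb), Jet.up_mu _ (can_q_ne hc hb)]
      exact h1

private theorem can_one_zero (n : ℕ) : (can n 1).cc = 0 ∧ (can n 1).mu = 0 := by
  induction n with
  | zero =>
    rw [can_zero]
    constructor <;> norm_num [Jet.cc, Jet.mu, Jet.bb, Jet.gg, Jet.zero]
  | succ n ih =>
    have h1 : Nat.Coprime n 1 := Nat.coprime_one_right n
    rw [can_add n 1 one_pos, Jet.up_cc _ (can_q_ne h1 one_pos),
      Jet.up_mu _ (can_q_ne h1 one_pos)]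
    exact ih

private theorem bd_all (b : ℕ) : ∀ a, 0 < b → Nat.Coprime a b → Bd a b := by
  induction b using Nat.strong_induction_on with
  | _ b IH =>
    intro a hb hab
    refine bd_reduce b hb ?_ a hab
    clear hab a
    -- the bound for `cc`
    have hcc : ∀ a, a < b → Nat.Coprime a b → |(can a b).cc| ≤ (b : ℚ) / 12 := by
      intro a hlt hab
      rcases Nat.eq_zero_or_pos a with rfl | ha
      · rw [can_zero]
        have : Jet.zero.cc = 0 := by norm_num [Jet.cc, Jet.zero]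
        rw [this, abs_zero]
        positivity
      · have hsym : can a b = (can b a).dia := can_symm _ b a le_rfl (by omega)
        obtain ⟨hp, hq⟩ := can_pq _ b a le_rfl hab.symm
        have hb0 : (0 : ℚ) < b := by exact_mod_cast hb
        have ha0 : (0 : ℚ) < a := by exact_mod_cast ha
        have h1 := Jet.cc_dia (can b a) (by rw [hp]; exact hb0.ne') (by rw [hq]; exact ha0.ne')
          (can_om _ b a le_rfl) (can_quad _ b a le_rfl)
        rw [← hsym, hp, hq] at h1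
        have h2 := (IH a hlt b ha hab.symm).1
        have h3 : |(can b a).cc * (a : ℚ) ^ 2| ≤ (a : ℚ) ^ 3 / 12 := by
          rw [abs_mul, abs_of_nonneg (by positivity : (0 : ℚ) ≤ (a : ℚ) ^ 2)]
          calc |(can b a).cc| * (a : ℚ) ^ 2 ≤ (a : ℚ) / 12 * (a : ℚ) ^ 2 :=
                mul_le_mul_of_nonneg_right h2 (by positivity)
            _ = (a : ℚ) ^ 3 / 12 := by ring
        have ha1 : (1 : ℚ) ≤ a := by exact_mod_cast ha
        have hab1 : (a : ℚ) + 1 ≤ b := by exact_mod_cast hlt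
        have h4 := ine_C_up (a : ℚ) b _ ha1 hab1 h3
        have h5 := ine_C_lo (a : ℚ) b _ ha1 hab1 h3
        have h6 : (can a b).cc * (b : ℚ) ^ 2 = ((a : ℚ) ^ 4 + (b : ℚ) ^ 4 -
            5 * (a : ℚ) ^ 2 * (b : ℚ) ^ 2 + 3) / (12 * a * b) - (can b a).cc * (a : ℚ) ^ 2 := by
          rw [h1]
          congr 1
          ring
        rw [← h6] at h4 h5
        have hb2 : (0 : ℚ) < (b : ℚ) ^ 2 := by positivity
        rw [abs_le]
        constructor
        · have : -((b : ℚ) / 12) * (b : ℚ) ^ 2 ≤ (can a b).cc * (b : ℚ) ^ 2 := by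
            calc -((b : ℚ) / 12) * (b : ℚ) ^ 2 = -((b : ℚ) ^ 3 / 12) := by ring
              _ ≤ _ := h5
          exact le_of_mul_le_mul_right this hb2
        · have : (can a b).cc * (b : ℚ) ^ 2 ≤ (b : ℚ) / 12 * (b : ℚ) ^ 2 := by
            calc (can a b).cc * (b : ℚ) ^ 2 ≤ (b : ℚ) ^ 3 / 12 := h4
              _ = _ := by ring
          exact le_of_mul_le_mul_right this hb2
    -- the bound for `mu`, small numerators
    have hmu : ∀ a, 0 < a → 2 * a ≤ b → Nat.Coprime a b →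
        (can a b).mu ≤ ((b : ℚ) ^ 2 - 1) / 24 + (1 - 1 / (b : ℚ) ^ 2) / 4 := by
      intro a ha hlt hab
      have hsym : can a b = (can b a).dia := can_symm _ b a le_rfl (by omega)
      obtain ⟨hp, hq⟩ := can_pq _ b a le_rfl hab.symm
      have hb0 : (0 : ℚ) < b := by exact_mod_cast hb
      have ha0 : (0 : ℚ) < a := by exact_mod_cast ha
      have h1 := Jet.mu_dia (can b a) (by rw [hp]; exact hb0.ne') (by rw [hq]; exact ha0.ne')
        (can_om _ b a le_rfl) (can_quad _ b a le_rfl)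
      rw [← hsym, hp, hq] at h1
      rw [h1]
      by_cases ha1 : a = 1
      · obtain ⟨z1, z2⟩ := can_one_zero b
        rw [ha1, z1, z2]
        have h2 := ine_mu_one (b : ℚ) hb0
        rw [← h2]
        push_cast
        apply le_of_eq
        ring
      · have ha2 : 2 ≤ a := by omega
        have hne : 2 * a ≠ b := by
          intro h
          rw [← h] at hab
          have : a ∣ 2 * a := Dvd.intro_left 2 rfl
          have h3 := Nat.Coprime.eq_one_of_dvd hab this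
          omega
        have hba : 2 * a + 1 ≤ b := by omega
        obtain ⟨i1, i2⟩ := IH a (by omega) b ha hab.symm
        exact ine_mu (a : ℚ) b _ _ (by exact_mod_cast ha2) (by exact_mod_cast hba) i1 i2
    intro a hlt hab
    refine ⟨hcc a hlt hab, ?_⟩
    rcases Nat.eq_zero_or_pos a with rfl | ha
    · have hb1 : b = 1 := by simpa using hab
      rw [can_zero, hb1]
      norm_num [Jet.mu, Jet.bb, Jet.gg, Jet.zero]
    · by_cases h2 : 2 * a ≤ b
      · exact hmu a ha h2 hab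
      · obtain ⟨c, rfl⟩ : ∃ c, b = a + c := ⟨b - a, by omega⟩
        have hc : 0 < c := by omega
        have hac : Nat.Coprime a c := by simpa using hab
        have hcb : Nat.Coprime c (a + c) := by simpa using hac.symm
        have h3 := hmu c hc (by omega) hcb
        have h4 := congrArg Jet.mu (can_refl a c ha hc)
        rw [Jet.dn_mu _ (can_q_ne hab hb), Jet.mir_mu] at h4
        rw [h4]
        exact h3

theorem bd_rat (R : Arb) (hR : Rat R) (hq : R.pq.2 ≠ 0) :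
    |R.jet.cc| ≤ |(R.pq.2 : ℚ)| / 12 ∧
      R.jet.mu ≤ ((R.pq.2 : ℚ) ^ 2 - 1) / 24 + (1 - 1 / (R.pq.2 : ℚ) ^ 2) / 4 := by
  obtain ⟨a, b, hab, h⟩ := rat_can R hR
  have e1 : |R.jet.q| = |(can a b).q| := by
    rcases h with h | h | h | h <;> rw [h] <;> simp [Jet.neg, Jet.mir]
  have e2 : |R.jet.cc| = |(can a b).cc| := by
    rcases h with h | h | h | h <;> rw [h]
    · rw [Jet.neg_cc]
    · rw [Jet.mir_cc, abs_neg]
    · rw [Jet.neg_cc, Jet.mir_cc, abs_neg]
  have e3 : R.jet.mu = (can a b).mu := by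
    rcases h with h | h | h | h <;> rw [h]
    · rw [Jet.neg_mu]
    · rw [Jet.mir_mu]
    · rw [Jet.neg_mu, Jet.mir_mu]
  have e4 : |(R.pq.2 : ℚ)| = b := by
    rw [← (jet_pq R).2, e1, (can_pq _ a b le_rfl hab).2, abs_of_nonneg (by positivity)]
  have hb : 0 < b := by
    rcases Nat.eq_zero_or_pos b with h0 | h0
    · rw [h0] at e4
      have : (R.pq.2 : ℚ) = 0 := by
        rw [← abs_eq_zero, e4]
        norm_num
      exact absurd (by exact_mod_cast this) hq
    · exact h0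
  have e5 : (R.pq.2 : ℚ) ^ 2 = (b : ℚ) ^ 2 := by
    rw [← sq_abs, e4]
  rw [e2, e3, e4, e5]
  exact bd_all b a hb hab

private def Psi (x y z : ℚ) : ℚ :=
  1 / 8 * (x * y * z * (1 - 1 / x ^ 2 - 1 / y ^ 2 - 1 / z ^ 2)) ^ 2 -
    (11 / 24 + 1 / (24 * (x * y * z) ^ 2) +
      (((x ^ 2 - 1) / 24 + (1 - 1 / x ^ 2) / 4) + ((y ^ 2 - 1) / 24 + (1 - 1 / y ^ 2) / 4) +
        ((z ^ 2 - 1) / 24 + (1 - 1 / z ^ 2) / 4)) + x * y * z * (x / 12 + y / 12 + z / 12))

private theorem Psi_12 (x y z : ℚ) : Psi x y z = Psi y x z := by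
  unfold Psi
  ring

private theorem Psi_23 (x y z : ℚ) : Psi x y z = Psi x z y := by
  unfold Psi
  ring

private theorem Psi_lt (a b c : ℕ) (ha : 2 ≤ a) (hab : a < b) (hbc : b < c)
    (h1 : Nat.Coprime a b) (h2 : Nat.Coprime b c) (h3 : Nat.Coprime a c) :
    0 < Psi a b c := by
  have hc : 5 ≤ c := by
    by_contra hcon
    have hc4 : c = 4 := by omega
    have hb3 : b = 3 := by omega
    have ha2 : a = 2 := by omega
    rw [ha2, hc4] at h3
    norm_num at h3
  have := ine_final (a : ℚ) b c (by exact_mod_cast ha)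
    (by
      have : 3 ≤ b := by omega
      exact_mod_cast this) (by exact_mod_cast hc) (by exact_mod_cast hab.le)
    (by exact_mod_cast hbc.le)
  unfold Psi
  linarith

private theorem ne_of_cop {a b : ℕ} (ha : 2 ≤ a) (h : Nat.Coprime a b) : a ≠ b := by
  intro hab
  rw [← hab, Nat.coprime_self] at h
  omega

private theorem Psi_pos (a b c : ℕ) (ha : 2 ≤ a) (hb : 2 ≤ b) (hc : 2 ≤ c)
    (h1 : Nat.Coprime a b) (h2 : Nat.Coprime b c) (h3 : Nat.Coprime a c) :
    0 < Psi a b c := by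
  have n1 := ne_of_cop ha h1
  have n2 := ne_of_cop hb h2
  have n3 := ne_of_cop ha h3
  rcases Nat.lt_or_ge a b with i1 | i1
  · rcases Nat.lt_or_ge b c with i2 | i2
    · exact Psi_lt a b c ha i1 i2 h1 h2 h3
    · rcases Nat.lt_or_ge a c with i3 | i3
      · rw [Psi_23]
        exact Psi_lt a c b ha i3 (by omega) h3 h2.symm h1
      · rw [Psi_23, Psi_12]
        exact Psi_lt c a b hc (by omega) i1 h3.symm h1 h2.symm
  · rcases Nat.lt_or_ge b c with i2 | i2
    · rcases Nat.lt_or_ge a c with i3 | i3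
      · rw [Psi_12]
        exact Psi_lt b a c hb (by omega) i3 h1.symm h3 h2
      · rw [Psi_12, Psi_23]
        exact Psi_lt b c a hb i2 (by omega) h2 h3.symm h1.symm
    · rw [Psi_12, Psi_23, Psi_12]
      exact Psi_lt c b a hc (by omega) (by omega) h2.symm h1.symm h3.symm

private theorem cop_abs {a b : ℤ} (h : IsCoprime a b) : Nat.Coprime a.natAbs b.natAbs :=
  Int.isCoprime_iff_gcd_eq_one.mp h

private theorem jetT_one {z : ℤ} (h : z.natAbs = 1) : ∃ s : ℤ, s * z = 1 := by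
  rcases Int.natAbs_eq z with h1 | h1
  · exact ⟨1, by rw [h1, h]; norm_num⟩
  · exact ⟨-1, by rw [h1, h]; norm_num⟩

theorem three : St_Three := by
  intro R1 R2 R3 h1 h2 h3 hp l1 l2 l3
  obtain ⟨s, hs⟩ := jetT_one hp
  have n1 : R1.pq.2 ≠ 0 := by
    intro h0
    rw [h0] at l1
    norm_num at l1
  have n2 : R2.pq.2 ≠ 0 := by
    intro h0
    rw [h0] at l2
    norm_num at l2
  have n3 : R3.pq.2 ≠ 0 := by
    intro h0
    rw [h0] at l3
    norm_num at l3
  have m1 : R1.jet.q ≠ 0 := by rw [(jet_pq R1).2]; exact_mod_cast n1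
  have m2 : R2.jet.q ≠ 0 := by rw [(jet_pq R2).2]; exact_mod_cast n2
  have m3 : R3.jet.q ≠ 0 := by rw [(jet_pq R3).2]; exact_mod_cast n3
  have m12 : (R1.jet.sum R2.jet).q ≠ 0 := mul_ne_zero m1 m2
  obtain ⟨T, hT⟩ : ∃ T, T = Arb.sum (Arb.sum R1 R2) R3 := ⟨_, rfl⟩
  rw [← hT] at hp hs ⊢
  have hTj : T.jet = (R1.jet.sum R2.jet).sum R3.jet := by rw [hT]; rfl
  have hTp : T.pq.1 = (R1.pq.1 * R2.pq.2 + R1.pq.2 * R2.pq.1) * R3.pq.2 +
      R1.pq.2 * R2.pq.2 * R3.pq.1 := by rw [hT]; rfl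
  have hTq : T.pq.2 = R1.pq.2 * R2.pq.2 * R3.pq.2 := by rw [hT]; rfl
  -- coprimality
  have c12 : IsCoprime R1.pq.2 R2.pq.2 := by
    refine ⟨s * (R2.pq.1 * R3.pq.2 + R2.pq.2 * R3.pq.1), s * (R1.pq.1 * R3.pq.2), ?_⟩
    rw [hTp] at hs
    linear_combination hs
  have c23 : IsCoprime R2.pq.2 R3.pq.2 := by
    refine ⟨s * (R1.pq.1 * R3.pq.2 + R1.pq.2 * R3.pq.1), s * (R1.pq.2 * R2.pq.1), ?_⟩
    rw [hTp] at hs
    linear_combination hs
  have c13 : IsCoprime R1.pq.2 R3.pq.2 := by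
    refine ⟨s * (R2.pq.1 * R3.pq.2 + R2.pq.2 * R3.pq.1), s * (R1.pq.1 * R2.pq.2), ?_⟩
    rw [hTp] at hs
    linear_combination hs
  obtain ⟨a, ha⟩ : ∃ a, a = R1.pq.2.natAbs := ⟨_, rfl⟩
  obtain ⟨b, hb⟩ : ∃ b, b = R2.pq.2.natAbs := ⟨_, rfl⟩
  obtain ⟨c, hc⟩ : ∃ c, c = R3.pq.2.natAbs := ⟨_, rfl⟩
  have hpos : 0 < Psi a b c := by
    rw [ha, hb, hc]
    exact Psi_pos _ _ _ l1 l2 l3 (cop_abs c12) (cop_abs c23) (cop_abs c13)
  have absc : ∀ z : ℤ, |(z : ℚ)| = (z.natAbs : ℚ) := by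
    intro z
    rw [Nat.cast_natAbs, Int.cast_abs]
  have ea : |(R1.pq.2 : ℚ)| = a := by rw [absc, ha]
  have eb : |(R2.pq.2 : ℚ)| = b := by rw [absc, hb]
  have ec : |(R3.pq.2 : ℚ)| = c := by rw [absc, hc]
  have sa : (R1.pq.2 : ℚ) ^ 2 = (a : ℚ) ^ 2 := by rw [← sq_abs, ea]
  have sb : (R2.pq.2 : ℚ) ^ 2 = (b : ℚ) ^ 2 := by rw [← sq_abs, eb]
  have sc : (R3.pq.2 : ℚ) ^ 2 = (c : ℚ) ^ 2 := by rw [← sq_abs, ec]
  have a0 : (0 : ℚ) < a := by
    have : 0 < a := by omega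
    exact_mod_cast this
  have b0 : (0 : ℚ) < b := by
    have : 0 < b := by omega
    exact_mod_cast this
  have c0 : (0 : ℚ) < c := by
    have : 0 < c := by omega
    exact_mod_cast this
  -- the jets
  have hp1 : |T.jet.p| = 1 := by
    rw [(jet_pq T).1]
    exact natAbs_cast hp
  have hp2 : T.jet.p ^ 2 = 1 := by
    rw [← sq_abs, hp1]
    norm_num
  have hq1 : |T.jet.q| = a * b * c := by
    rw [(jet_pq T).2, hTq]
    push_cast
    rw [abs_mul, abs_mul, ea, eb, ec]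
  have hq0 : T.jet.q ≠ 0 := by
    intro h0
    rw [h0, abs_zero] at hq1
    have : (0 : ℚ) < a * b * c := by positivity
    linarith
  have hq2 : T.jet.q ^ 2 = (a * b * c : ℚ) ^ 2 := by rw [← sq_abs, hq1]
  have hE := Jet.E_eq T.jet hp2 hq0 (jet_quad T)
  have ecc : T.jet.cc = R1.jet.cc + R2.jet.cc + R3.jet.cc := by
    rw [hTj, Jet.cc_sum _ _ m12 m3, Jet.cc_sum _ _ m1 m2]
  have emu : T.jet.mu = R1.jet.mu + R2.jet.mu + R3.jet.mu := by
    rw [hTj, Jet.mu_sum _ _ m12 m3, Jet.mu_sum _ _ m1 m2]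
  have egg : T.jet.gg = 3 / 2 - (1 / (a : ℚ) ^ 2 + 1 / (b : ℚ) ^ 2 + 1 / (c : ℚ) ^ 2) / 2 := by
    rw [hTj, Jet.gg_sum _ _ m12 m3, Jet.gg_sum _ _ m1 m2, Jet.gg_rat _ m1 (rat_om R1 h1).2,
      Jet.gg_rat _ m2 (rat_om R2 h2).2, Jet.gg_rat _ m3 (rat_om R3 h3).2, (jet_pq R1).2,
      (jet_pq R2).2, (jet_pq R3).2, sa, sb, sc]
    field_simp
    ring
  obtain ⟨u1, v1⟩ := bd_rat R1 h1 n1
  obtain ⟨u2, v2⟩ := bd_rat R2 h2 n2
  obtain ⟨u3, v3⟩ := bd_rat R3 h3 n3
  rw [ea] at u1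
  rw [eb] at u2
  rw [ec] at u3
  rw [sa] at v1
  rw [sb] at v2
  rw [sc] at v3
  have w1 : T.jet.q * T.jet.p * T.jet.cc ≤ a * b * c * ((a : ℚ) / 12 + b / 12 + c / 12) := by
    refine (le_abs_self _).trans ?_
    rw [abs_mul, abs_mul, hp1, hq1, mul_one]
    refine mul_le_mul_of_nonneg_left ?_ (by positivity)
    rw [ecc]
    refine (abs_add_le _ _).trans (add_le_add ((abs_add_le _ _).trans (add_le_add u1 u2)) u3)
  have w2 : T.jet.q ^ 2 * (T.jet.gg - 1) ^ 2 / 2 =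
      1 / 8 * (a * b * c * (1 - 1 / (a : ℚ) ^ 2 - 1 / (b : ℚ) ^ 2 - 1 / (c : ℚ) ^ 2)) ^ 2 := by
    rw [hq2, egg]
    ring
  unfold Psi at hpos
  rw [hE, w2, hq2, emu]
  linarith

end Pool.Agent.ARB
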