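import Pool.Agent.ARB.Defs

/-!
# Arborescent knots: statements of the topology block
-/

set_option autoImplicit false

namespace Pool.Agent.ARB

/-- the class of a rational tangle only depends on its slope -/
def St_T3 : Prop := ∀ R R' : Arb, Rat R → Rat R' → R.pq.1 * R'.pq.2 = R.pq.2 * R'.pq.1 →
  Iso 2 R.word R'.word

/-- the slopes of rational tangles are in lowest terms, and all slopes occur -/
def St_T3a : Prop := (∀ R : Arb, Rat R → IsCoprime R.pq.1 R.pq.2) ∧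
  ∀ p q : ℤ, IsCoprime p q → ∃ R : Arb, Rat R ∧ (R.pq = (p, q) ∨ R.pq = (-p, -q))

/-- sums of a rational and an integral tangle are rational -/
def St_T3b : Prop := ∀ R I : Arb, Rat R → Rat I → I.pq.2.natAbs = 1 → ∃ C : Arb, Rat C ∧
  Iso 2 (Arb.sum R I).word C.word ∧ Iso 2 (Arb.sum I R).word C.word ∧
  (C.pq = (Arb.sum R I).pq ∨ C.pq = -(Arb.sum R I).pq)

/-- cyclic permutation -/
def St_T1 : Prop := ∀ A B : Word, Ok A 2 2 → Ok B 2 2 → Iso 0 (NW (A ++ B)) (NW (B ++ A))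

/-- rotation of both sides -/
def St_T2 : Prop := ∀ A B : Word, Ok A 2 2 → Ok B 2 2 →
  Iso 0 (NW (rotW A ++ B)) (NW (A ++ rotW B))

/-- a rational tangle with determinant one closes up to the unknot -/
def St_T4 : Prop := ∀ R : Arb, Rat R → R.pq.1.natAbs = 1 → Iso 0 (NW R.word) O1

/-- connected sums of unknots -/
def St_T5 : Prop := ∀ A B : Word, Ok A 2 2 → Ok B 2 2 → Iso 0 (DW A) O1 → Iso 0 (DW B) O1 →
  Iso 0 (DW (A ++ B)) O1

/-- closing up with the infinite tangle -/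
def St_T7 : Prop := ∀ A : Word, Ok A 2 2 → Iso 0 (NW (A ++ rotW [])) (DW A)

/-- the topological facts used in the induction -/
structure Top : Prop where
  okA : ∀ T : Arb, Ok T.word 2 2
  refl : ∀ (n : ℕ) (w : Word), Iso n w w
  symm : ∀ (n : ℕ) (w w' : Word), Iso n w w' → Iso n w' w
  trans : ∀ (n : ℕ) (w w' w'' : Word), Iso n w w' → Iso n w' w'' → Iso n w w''
  congS : ∀ A A' B B' : Word, Ok A 2 2 → Ok A' 2 2 → Iso 2 A A' → Iso 2 B B' →
    Iso 2 (A ++ B) (A' ++ B')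
  congR : ∀ A A' : Word, Iso 2 A A' → Iso 2 (rotW A) (rotW A')
  congN : ∀ A A' : Word, Iso 2 A A' → Iso 0 (NW A) (NW A')
  t1 : St_T1
  t2 : St_T2
  t3 : St_T3
  t3a : St_T3a
  t3b : St_T3b
  t4 : St_T4
  t5 : St_T5
  t7 : St_T7

end Pool.Agent.ARB
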