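import Pool.Agent.ARB.SecA
import Pool.Agent.ARB.TopStmts

/-!
# ARB: the induction, topological part
-/

set_option autoImplicit false

namespace Pool.Agent.ARB

/-- the numerator closure is isotopic to the trivial diagram -/
def Un (T : Arb) : Prop := Iso 0 (NW T.word) O1

/-- `A` may replace `A'` in trivial diagrams -/
def Le (A A' : Arb) : Prop := ∀ B : Arb, Un (.sum A' B) → Un (.sum A B)

/-- the tangle infinity -/
def infA : Arb := .rot .zero

theorem infA_rat : Rat infA := Rat.rot _ Rat.zero

theorem Le.refl (A : Arb) : Le A A := fun _ h => h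

theorem Le.trans {A B C : Arb} (h : Le A B) (h' : Le B C) : Le A C := fun D u => h D (h' D u)

theorem un_assoc (A B C : Arb) : Un (.sum (.sum A B) C) ↔ Un (.sum A (.sum B C)) := by
  unfold Un
  simp only [Arb.word, List.append_assoc]

theorem slope_of_q {A B : Arb} (hA : IsCoprime A.pq.1 A.pq.2) (hB : IsCoprime B.pq.1 B.pq.2)
    (qA : A.pq.2 = 0) (qB : B.pq.2 = 0) : SameSlope A B := by
  rw [qA] at hA
  rw [qB] at hB
  have h1 := Int.isUnit_iff.mp (isCoprime_zero_right.mp hA)
  have h2 := Int.isUnit_iff.mp (isCoprime_zero_right.mp hB)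
  rcases h1 with h1 | h1 <;> rcases h2 with h2 | h2
  · exact Or.inl ⟨by rw [h1, h2], by rw [qA, qB]⟩
  · exact Or.inr ⟨by rw [h1, h2]; norm_num, by rw [qA, qB]; norm_num⟩
  · exact Or.inr ⟨by rw [h1, h2], by rw [qA, qB]; norm_num⟩
  · exact Or.inl ⟨by rw [h1, h2], by rw [qA, qB]⟩

theorem one_of_cop {a b : ℤ} (h : IsCoprime a b) (ha : a = 0) : b.natAbs = 1 := by
  rw [ha] at h
  exact Int.isUnit_iff_natAbs_eq.mp (isCoprime_zero_left.mp h)

/-- a sum of two rational tangles with `Om = -1` has an integral summand -/
theorem int_of_om {R S : Arb} (h : IsCoprime (Arb.sum R S).pq.1 (Arb.sum R S).pq.2)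
    (hO : (Arb.sum R S).jet.Om = -1) : S.pq.2.natAbs = 1 ∨ R.pq.2.natAbs = 1 := by
  by_cases hq : (Arb.sum R S).pq.2 = 0
  · have hc := (cop_sum R S h).2.2
    simp only [Arb.pq] at hq
    rcases mul_eq_zero.1 hq with h0 | h0
    · exact Or.inl (one_of_cop hc h0)
    · exact Or.inr (one_of_cop hc.symm h0)
  · rcases (om_sum R S h hq hO).2.2 with h1 | h1
    · exact Or.inr h1
    · exact Or.inl h1

/-- `Om` of a sum with a summand of slope infinity -/
theorem om_inf {A B : Arb} (h : IsCoprime (Arb.sum A B).pq.1 (Arb.sum A B).pq.2)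
    (hO : (Arb.sum A B).jet.Om = -1) (hA : A.pq.2 = 0) : A.jet.Om = -1 := by
  have hc := (cop_sum A B h).2.2
  have h1 := one_of_cop hc hA
  have h2 : A.jet.q = 0 := by rw [(jet_pq A).2, hA]; norm_num
  have h3 : B.jet.q ^ 2 = 1 := by
    rw [(jet_pq B).2, ← sq_abs, natAbs_cast h1]
    norm_num
  have h4 : (A.jet.sum B.jet).Om = -1 := hO
  rw [Jet.Om_sum, h2, h3] at h4
  linarith

section

variable (X : Top)

include X

theorem un_iso {A B : Arb} (h : Iso 2 A.word B.word) (u : Un B) : Un A :=
  X.trans _ _ _ _ (X.congN _ _ h) u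

theorem un_comm {A B : Arb} (u : Un (.sum A B)) : Un (.sum B A) :=
  X.trans _ _ _ _ (X.t1 B.word A.word (X.okA B) (X.okA A)) u

theorem un_rot1 {A B : Arb} (u : Un (.sum A (.rot B))) : Un (.sum (.rot A) B) :=
  X.trans _ _ _ _ (X.t2 A.word B.word (X.okA A) (X.okA B)) u

theorem un_rot2 {A B : Arb} (u : Un (.sum (.rot A) B)) : Un (.sum A (.rot B)) :=
  X.trans _ _ _ _ (X.symm _ _ _ (X.t2 A.word B.word (X.okA A) (X.okA B))) u

theorem isoR (A : Arb) {B B' : Arb} (h : Iso 2 B.word B'.word) :
    Iso 2 (Arb.sum A B).word (Arb.sum A B').word :=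
  X.congS _ _ _ _ (X.okA A) (X.okA A) (X.refl _ _) h

theorem isoL {A A' : Arb} (h : Iso 2 A.word A'.word) (B : Arb) :
    Iso 2 (Arb.sum A B).word (Arb.sum A' B).word :=
  X.congS _ _ _ _ (X.okA A) (X.okA A') h (X.refl _ _)

theorem le_iso {A A' : Arb} (h : Iso 2 A.word A'.word) : Le A A' :=
  fun B u => un_iso X (isoL X h B) u

theorem le_sumL {A A' : Arb} (h : Le A A') (B : Arb) : Le (.sum A B) (.sum A' B) := by
  intro C u
  rw [un_assoc] at u ⊢
  exact h _ u

theorem le_sumR {A A' : Arb} (h : Le A A') (B : Arb) : Le (.sum B A) (.sum B A') := by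
  intro C u
  rw [un_assoc] at u ⊢
  have u2 := un_comm X u
  rw [un_assoc] at u2
  have u3 := h _ u2
  rw [← un_assoc] at u3
  exact un_comm X u3

theorem le_rot {A A' : Arb} (h : Le A A') : Le (.rot A) (.rot A') :=
  fun _ u => un_rot1 X (h _ (un_rot2 X u))

theorem rat_iso {R R' : Arb} (h : Rat R) (h' : Rat R') (s : SameSlope R R') :
    Iso 2 R.word R'.word := by
  refine X.t3 R R' h h' ?_
  rcases s with ⟨h1, h2⟩ | ⟨h1, h2⟩ <;> rw [h1, h2] <;> ring

theorem int_iso {R I C : Arb} (hR : Rat R) (hI : Rat I) (hq : I.pq.2.natAbs = 1) (hC : Rat C)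
    (s : SameSlope (.sum R I) C) :
    Iso 2 (Arb.sum R I).word C.word ∧ Iso 2 (Arb.sum I R).word C.word := by
  obtain ⟨C0, h0, i1, i2, hpq⟩ := X.t3b R I hR hI hq
  have s0 : SameSlope C0 C := by
    refine SameSlope.trans ?_ s
    rcases hpq with h | h
    · exact Or.inl ⟨by rw [h], by rw [h]⟩
    · exact Or.inr ⟨by rw [h]; rfl, by rw [h]; rfl⟩
  have i3 := rat_iso X h0 hC s0
  exact ⟨X.trans _ _ _ _ i1 i3, X.trans _ _ _ _ i2 i3⟩

/-- two rational tangles -/
theorem un_two {V : Arb} (hV : Rat V) : ∀ W : Arb, Rat W → (Arb.sum V W).pq.1.natAbs = 1 →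
    Un (.sum V W) := by
  induction hV with
  | zero =>
      intro W hW h
      have h1 : Un W := by
        refine X.t4 W hW ?_
        rw [← h]
        simp only [Arb.pq]
        congr 1
        ring
      exact h1
  | add T p hT ih =>
      intro W hW h
      have hI : Rat (.sum .zero (.cross p)) := Rat.add _ p Rat.zero
      have hq : (Arb.sum .zero (.cross p)).pq.2.natAbs = 1 := by simp [Arb.pq]
      obtain ⟨C, hC, _, i2, hpq⟩ := X.t3b W _ hW hI hq
      rw [un_assoc]
      have i3 : Iso 2 (Arb.sum (.cross p) W).word C.word := i2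
      refine un_iso X (isoR X T i3) (ih C hC ?_)
      rw [← h]
      have s0 : SameSlope C (.sum W (.sum .zero (.cross p))) := by
        rcases hpq with h | h
        · exact Or.inl ⟨by rw [h], by rw [h]⟩
        · exact Or.inr ⟨by rw [h]; rfl, by rw [h]; rfl⟩
      refine SameSlope.p ((s0.sumR T).trans ?_)
      refine Or.inl ⟨?_, ?_⟩ <;> simp only [Arb.pq] <;> ring
  | rot T hT ih =>
      intro W hW h
      refine un_rot1 X (ih _ (Rat.rot _ hW) ?_)
      rw [← h]
      simp only [Arb.pq]
      congr 1
      ring

theorem un_last {R1 R2 R3 : Arb} (h1 : Rat R1) (h2 : Rat R2) (h3 : Rat R3)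
    (hp : (Arb.sum (Arb.sum R1 R2) R3).pq.1.natAbs = 1) (hq : R3.pq.2.natAbs = 1) :
    Un (.sum (.sum R1 R2) R3) := by
  have hp' : (Arb.sum R1 (Arb.sum R2 R3)).pq.1.natAbs = 1 := by
    rw [← (SameSlope.assoc R1 R2 R3).p]
    exact hp
  obtain ⟨C, hC, s⟩ := rat_ex (.sum R2 R3) (cop_of_one hp').2
  rw [un_assoc]
  refine un_iso X (isoR X R1 (int_iso X h2 h3 hq hC s).1) (un_two X h1 C hC ?_)
  rw [← (s.sumR R1).p]
  exact hp'

theorem un_three {R1 R2 R3 : Arb} (h1 : Rat R1) (h2 : Rat R2) (h3 : Rat R3)
    (hp : (Arb.sum (Arb.sum R1 R2) R3).pq.1.natAbs = 1)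
    (hq : R1.pq.2.natAbs = 1 ∨ R2.pq.2.natAbs = 1 ∨ R3.pq.2.natAbs = 1) :
    Un (.sum (.sum R1 R2) R3) := by
  rcases hq with hq | hq | hq
  · rw [un_assoc]
    refine un_comm X (un_last X h2 h3 h1 ?_ hq)
    rw [← hp]
    exact ((SameSlope.sumC (.sum R2 R3) R1).trans (SameSlope.assoc R1 R2 R3).symm).p
  · rw [un_assoc]
    refine un_comm X ?_
    rw [un_assoc]
    refine un_comm X (un_last X h3 h1 h2 ?_ hq)
    rw [← hp]
    refine SameSlope.p ?_
    refine Or.inl ⟨?_, ?_⟩ <;> simp only [Arb.pq] <;> ring
  · exact un_last X h1 h2 h3 hp hq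

/-- replacing a rational tangle with `q = 0` by infinity -/
theorem un_inf {A R : Arb} (hR : Rat R) (hq : R.pq.2 = 0) (u : Un (.sum A R)) :
    Un (.sum A infA) := by
  refine un_iso X (isoR X A (rat_iso X infA_rat hR ?_)) u
  exact slope_of_q (rat_om _ infA_rat).1 (rat_om _ hR).1 rfl hq

theorem un_conn {A B : Arb} (u : Un (.sum A infA)) (v : Un (.sum B infA)) :
    Un (.sum (.sum A B) infA) := by
  have h1 : Iso 0 (DW A.word) O1 := X.trans _ _ _ _ (X.symm _ _ _ (X.t7 A.word (X.okA A))) u
  have h2 : Iso 0 (DW B.word) O1 := X.trans _ _ _ _ (X.symm _ _ _ (X.t7 B.word (X.okA B))) v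
  have h3 := X.t5 A.word B.word (X.okA A) (X.okA B) h1 h2
  exact X.trans _ _ _ _ (X.t7 (Arb.sum A B).word (X.okA _)) h3

/-- a knotted arc may be replaced by a trivial one -/
theorem le_long1 {B : Arb} (u : Un (.sum B infA)) : Le (.sum infA B) infA := by
  intro C v
  rw [un_assoc]
  exact un_comm X (un_conn X u (un_comm X v))

theorem le_long2 {B : Arb} (u : Un (.sum B infA)) : Le (.sum B infA) infA := by
  intro C v
  refine un_comm X ?_
  rw [← un_assoc]
  exact un_conn X (un_comm X v) u

/-- MAIN 2: the case of equality. -/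
theorem main2 (H3 : St_Three) (T : Arb) :
    (∀ R : Arb, Rat R → (Arb.sum T R).pq.1.natAbs = 1 → (Arb.sum T R).jet.E = 0 →
      Un (.sum T R)) ∧
    (∀ R W : Arb, Rat R → Rat W → (Arb.sum T R).pq.1.natAbs = 1 → (Arb.sum T R).jet.E = 0 →
      T.jet.Om = -1 → SameSlope T W → Le T W) := by
  induction T with
  | zero =>
      refine ⟨fun R hR h _ => un_two X Rat.zero R hR h, fun R W hR hW _ _ _ s => ?_⟩
      exact le_iso X (rat_iso X Rat.zero hW s)
  | cross p =>
      have hI : Rat (.sum .zero (.cross p)) := Rat.add _ p Rat.zero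
      have i0 : Iso 2 (Arb.cross p).word (Arb.sum .zero (.cross p)).word := X.refl _ _
      have s0 : SameSlope (.cross p) (.sum .zero (.cross p)) := by
        refine Or.inl ⟨?_, ?_⟩ <;> simp [Arb.pq]
      refine ⟨fun R hR h _ => ?_, fun R W hR hW _ _ _ s => ?_⟩
      · refine un_iso X (isoL X i0 R) (un_two X hI R hR ?_)
        rw [← h]
        exact (s0.symm.sumL R).p
      · exact le_iso X (X.trans _ _ _ _ i0 (rat_iso X hI hW (s0.symm.trans s)))
  | rot T ih =>
      refine ⟨fun R hR h hE => ?_, fun R W hR hW h hE hO s => ?_⟩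
      · refine un_rot1 X (ih.1 _ (Rat.rot _ hR) ?_ ?_)
        · rw [← h]
          simp only [Arb.pq]
          congr 1
          ring
        · rw [← hE]
          exact (Jet.E_rot _ _).symm
      · have h' : (Arb.sum T (.rot R)).pq.1.natAbs = 1 := by
          rw [← h]
          simp only [Arb.pq]
          congr 1
          ring
        have hE' : (Arb.sum T (.rot R)).jet.E = 0 := by
          rw [← hE]
          exact (Jet.E_rot _ _).symm
        obtain ⟨W', hW', s'⟩ := rat_ex T (cop_of_one h').1
        have l := ih.2 (.rot R) W' (Rat.rot _ hR) hW' h' hE' (by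
          rw [← Jet.Om_rot]; exact hO) s'
        exact (le_rot X l).trans (le_iso X (rat_iso X (Rat.rot _ hW') hW (s'.rot.symm.trans s)))
  | sum A B ihA ihB =>
      refine ⟨fun R hR h hE => ?_, fun R W hR hW h hE hO s => ?_⟩
      · obtain ⟨A', B', Ch, Ch', D⟩ := exDec A B R h
        obtain ⟨zA, zB, z3, oA, oB⟩ := dec_zero H3 hR D hE
        have uA := ihA.1 Ch D.rC D.pA zA
        have uB := ihB.1 Ch' D.rD D.pB zB
        by_cases hA : A.jet.Om = -1
        · have lA : Le A A' := ihA.2 Ch A' D.rC D.rA D.pA zA hA D.sA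
          by_cases hB : B.jet.Om = -1
          · have lB : Le B B' := ihB.2 Ch' B' D.rD D.rB D.pB zB hB D.sB
            have u3 := un_three X D.rA D.rB hR D.p3 ((three_le H3 D.rA D.rB hR D.p3).2 z3)
            exact (le_sumL X lA B).trans (le_sumR X lB A') R u3
          · have hD := oB.resolve_left hB
            have i : Iso 2 (Arb.sum R A').word Ch'.word := by
              rcases int_of_om (cop_of_one D.pD).2 hD with hq | hq
              · exact (int_iso X hR D.rA hq D.rD D.sD).1
              · exact (int_iso X D.rA hR hq D.rD ((SameSlope.sumC A' R).trans D.sD)).2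
            have u1 := un_iso X (isoR X B i) uB
            rw [← un_assoc] at u1
            have u2 := un_comm X u1
            rw [← un_assoc] at u2
            exact le_sumL X lA B R u2
        · have hC := oA.resolve_left hA
          have cC := (cop_of_one D.pC).2
          by_cases hq : R.pq.2 = 0
          · have q1 : Ch.pq.2 = 0 := by
              have := D.sC.q
              simp only [Arb.pq] at this
              rw [hq] at this
              simpa using this.symm
            have q2 : Ch'.pq.2 = 0 := by
              have := D.sD.q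
              simp only [Arb.pq] at this
              rw [hq] at this
              simpa using this.symm
            have u1 := un_conn X (un_inf X D.rC q1 uA) (un_inf X D.rD q2 uB)
            refine un_iso X (isoR X (.sum A B) (rat_iso X hR infA_rat ?_)) u1
            exact slope_of_q (rat_om _ hR).1 (rat_om _ infA_rat).1 hq rfl
          · have hOB : B.jet.Om = -1 := by
              by_cases hB : B.pq.2 = 0
              · exact om_inf cC hC hB
              · refine (om_sum B R cC ?_ hC).1
                simp only [Arb.pq]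
                exact mul_ne_zero hB hq
            have lB : Le B B' := ihB.2 Ch' B' D.rD D.rB D.pB zB hOB D.sB
            have sC' : SameSlope (.sum B' R) Ch := (D.sB.symm.sumL R).trans D.sC
            have i : Iso 2 (Arb.sum B' R).word Ch.word := by
              rcases int_of_om cC hC with hq' | hq'
              · exact (int_iso X D.rB hR hq' D.rC sC').1
              · rw [D.sB.q] at hq'
                exact (int_iso X hR D.rB hq' D.rC ((SameSlope.sumC R B').trans sC')).2
            have u1 := un_iso X (isoR X A i) uA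
            rw [← un_assoc] at u1
            exact le_sumR X lB A R u1
      · obtain ⟨A', B', Ch, Ch', D⟩ := exDec A B R h
        obtain ⟨zA, zB, z3, oA, oB⟩ := dec_zero H3 hR D hE
        have uA := ihA.1 Ch D.rC D.pA zA
        have uB := ihB.1 Ch' D.rD D.pB zB
        have cT := (cop_of_one h).1
        have cW := (rat_om W hW).1
        have sAB : SameSlope (.sum A' B') W :=
          ((D.sA.symm.sumL B').trans (D.sB.symm.sumR A)).trans s
        by_cases qA : A.pq.2 = 0
        · have hOA := om_inf cT hO qA
          have lA : Le A A' := ihA.2 Ch A' D.rC D.rA D.pA zA hOA D.sA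
          have qA' : A'.pq.2 = 0 := by
            have := D.sA.q
            rw [qA] at this
            simpa using this.symm
          have qW : W.pq.2 = 0 := by
            have := s.q
            simp only [Arb.pq] at this
            rw [qA] at this
            simpa using this.symm
          have q2 : Ch'.pq.2 = 0 := by
            have := D.sD.q
            simp only [Arb.pq] at this
            rw [qA'] at this
            simpa using this.symm
          have u1 := un_inf X D.rD q2 uB
          have i1 : Iso 2 A'.word infA.word := rat_iso X D.rA infA_rat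
            (slope_of_q (rat_om _ D.rA).1 (rat_om _ infA_rat).1 qA' rfl)
          have i2 : Iso 2 infA.word W.word := rat_iso X infA_rat hW
            (slope_of_q (rat_om _ infA_rat).1 cW rfl qW)
          exact (le_sumL X (lA.trans (le_iso X i1)) B).trans ((le_long1 X u1).trans (le_iso X i2))
        · by_cases qB : B.pq.2 = 0
          · have cT' : IsCoprime (Arb.sum B A).pq.1 (Arb.sum B A).pq.2 := by
              have e1 : (Arb.sum B A).pq.1 = (Arb.sum A B).pq.1 := by
                simp only [Arb.pq]; ring
              have e2 : (Arb.sum B A).pq.2 = (Arb.sum A B).pq.2 := by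
                simp only [Arb.pq]; ring
              rw [e1, e2]
              exact cT
            have hO' : (Arb.sum B A).jet.Om = -1 := by
              have e : (Arb.sum B A).jet = (Arb.sum A B).jet := Jet.sum_comm _ _
              rw [e]
              exact hO
            have hOB := om_inf cT' hO' qB
            have lB : Le B B' := ihB.2 Ch' B' D.rD D.rB D.pB zB hOB D.sB
            have qB' : B'.pq.2 = 0 := by
              have := D.sB.q
              rw [qB] at this
              simpa using this.symm
            have qW : W.pq.2 = 0 := by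
              have := s.q
              simp only [Arb.pq] at this
              rw [qB] at this
              simpa using this.symm
            have q1 : Ch.pq.2 = 0 := by
              have := D.sC.q
              simp only [Arb.pq] at this
              rw [qB] at this
              simpa using this.symm
            have u1 := un_inf X D.rC q1 uA
            have i1 : Iso 2 B'.word infA.word := rat_iso X D.rB infA_rat
              (slope_of_q (rat_om _ D.rB).1 (rat_om _ infA_rat).1 qB' rfl)
            have i2 : Iso 2 infA.word W.word := rat_iso X infA_rat hW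
              (slope_of_q (rat_om _ infA_rat).1 cW rfl qW)
            exact (le_sumR X (lB.trans (le_iso X i1)) A).trans
              ((le_long2 X u1).trans (le_iso X i2))
          · have hq : (Arb.sum A B).pq.2 ≠ 0 := by
              simp only [Arb.pq]
              exact mul_ne_zero qA qB
            obtain ⟨hOA, hOB, hI⟩ := om_sum A B cT hq hO
            have lA : Le A A' := ihA.2 Ch A' D.rC D.rA D.pA zA hOA D.sA
            have lB : Le B B' := ihB.2 Ch' B' D.rD D.rB D.pB zB hOB D.sB
            have i : Iso 2 (Arb.sum A' B').word W.word := by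
              rcases hI with hq' | hq'
              · rw [D.sA.q] at hq'
                exact (int_iso X D.rB D.rA hq' hW ((SameSlope.sumC B' A').trans sAB)).2
              · rw [D.sB.q] at hq'
                exact (int_iso X D.rA D.rB hq' hW sAB).1
            exact ((le_sumL X lA B).trans (le_sumR X lB A')).trans (le_iso X i)

/-- SECTION 6: if `p = ± 1` and `E = 0` then the numerator closure is the unknot. -/
theorem sec6 (H3 : St_Three) (T : Arb) (hp : T.jet.p = 1 ∨ T.jet.p = -1) (hE : T.jet.E = 0) :
    Iso 0 (NW T.word) O1 := by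
  have h1 : T.pq.1.natAbs = 1 := by
    have h2 : (T.pq.1 : ℚ) = 1 ∨ (T.pq.1 : ℚ) = -1 := by
      rw [← (jet_pq T).1]
      exact hp
    rcases h2 with h2 | h2
    · have : T.pq.1 = 1 := by exact_mod_cast h2
      rw [this]; rfl
    · have : T.pq.1 = -1 := by exact_mod_cast h2
      rw [this]; rfl
  have h3 : (Arb.sum T .zero).pq.1.natAbs = 1 := by
    rw [← h1]
    simp [Arb.pq]
  have h4 : (Arb.sum T .zero).jet.E = 0 := by
    show (T.jet.sum Jet.zero).E = 0
    rw [Jet.sum_zero]
    exact hE
  have h5 : Un (.sum T .zero) := (main2 X H3 T).1 .zero Rat.zero h3 h4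
  unfold Un at h5
  simpa [Arb.word] using h5

end

end Pool.Agent.ARB
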