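import Pool.Agent.ARB.Bridge
import Pool.Agent.ARB.SecB
import Pool.Agent.ARB.JetT

/-!
# ARB: the algebraic half of the theorem
-/

set_option autoImplicit false

namespace Pool.Agent.ARB

open LaurentPolynomial

/-- If the bracket of the numerator closure of an arborescent tangle is a unit `± A ^ k`, even only
modulo `(A ^ 4 + 1) ^ 3`, then the closure is isotopic to the trivial diagram. -/
theorem alg_dvd (X : Top) (S : Arb) (u : LaurentPolynomial ℤ) (hu : IsU u)
    (h : (T 4 + 1 : LaurentPolynomial ℤ) ^ 3 ∣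
      S.pair.1 + Pool.Agent.Helper2.loopVal * S.pair.2 - u) :
    Iso 0 (NW S.word) O1 := by
  obtain ⟨h1, h2⟩ := bridge_dvd S u hu h
  exact sec6 X three S h1 h2

theorem alg_unit (X : Top) (S : Arb)
    (h : IsU (S.pair.1 + Pool.Agent.Helper2.loopVal * S.pair.2)) :
    Iso 0 (NW S.word) O1 := by
  obtain ⟨h1, h2⟩ := bridge_unit S h
  exact sec6 X three S h1 h2

end Pool.Agent.ARB
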