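import Pool.Agent.ARB.TopSts2

/-!
# ARB, module PairRun: the operator of an arborescent tangle
-/

set_option autoImplicit false

namespace Pool.Agent.ARB

open LaurentPolynomial Pool.Agent.Helper2

section

variable {V : Type} [AddCommGroup V] [Module LP V]

theorem pairRun_append (M : Model LP V) (u v : Word) (x : V) :
    runW M (u ++ v) x = runW M v (runW M u x) := by
  induction u generalizing x with
  | nil => rfl
  | cons s u ih =>
    show runW M (u ++ v) (opP M s x) = runW M v (runW M u (opP M s x))
    exact ih _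

theorem pairRun_cons (M : Model LP V) (s : Piece) (w : Word) (x : V) :
    runW M (s :: w) x = runW M w (opP M s x) := rfl

theorem pairRun_nil (M : Model LP V) (x : V) : runW M [] x = x := rfl

theorem pairRun_U (M : Model LP V) (i : ℕ) (x : V) : opP M (pU i) x = M.cup i x := rfl

theorem pairRun_N (M : Model LP V) (i : ℕ) (x : V) : opP M (pN i) x = M.cap i x := rfl

theorem pairRun_X (M : Model LP V) (i : ℕ) (p : Bool) (x : V) : opP M (pX i p) x =
    (T (if p then 1 else -1) : LP) • x + (T (if p then -1 else 1) : LP) • M.cup i (M.cap i x) :=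
  rfl

theorem pairRun_word (M : Model LP V) (hM : Good M) (R : Arb) : ∀ (j n : ℕ) (x : V),
    j + 2 ≤ n → M.Supp n x →
    runW M (sh j R.word) x = R.pair.2 • x + R.pair.1 • M.cup j (M.cap j x) := by
  induction R with
  | zero =>
    intro j n x hj hx
    show x = (1 : LP) • x + (0 : LP) • M.cup j (M.cap j x)
    rw [one_smul, zero_smul, add_zero]
  | cross p =>
    intro j n x hj hx
    show opP M (pX (0 + j) p) x = _
    rw [pairRun_X, Nat.zero_add]
    rfl
  | sum S R hS hR =>
    intro j n x hj hx
    have hx' : M.Supp (n - 2 + 2) x := by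
      rw [show n - 2 + 2 = n by omega]
      exact hx
    have hc : M.Supp (n - 2) (M.cap j x) := M.supp_cap _ _ _ (by omega) hx'
    have he : M.Supp n (M.cup j (M.cap j x)) := by
      have h := M.supp_cup _ j _ (by omega) hc
      rw [show n - 2 + 2 = n by omega] at h
      exact h
    show runW M (sh j (S.word ++ R.word)) x = _
    rw [sh_append, pairRun_append, hS j n x hj hx, map_add, map_smul, map_smul,
      hR j n x hj hx, hR j n _ hj he]
    have h1 : M.cap j (M.cup j (M.cap j x)) = loopVal • M.cap j x := by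
      rw [← hM.del]
      exact M.rel1 _ _ _ hc (by omega)
    rw [h1, map_smul]
    show _ = (S.pair.2 * R.pair.2) • x + (S.pair.1 * R.pair.2 + S.pair.2 * R.pair.1 +
      loopVal * (S.pair.1 * R.pair.1)) • M.cup j (M.cap j x)
    module
  | rot R hR =>
    intro j n x hj hx
    have h1 : sh j (rotW R.word) = pU (2 + j) :: (sh (1 + j) R.word ++ [pN j]) := by
      show sh j (pU 2 :: (sh 1 R.word ++ [pN 0])) = _
      rw [sh_cons, sh_append, sh_sh, Nat.add_comm j 1]
      show pU (2 + j) :: (sh (1 + j) R.word ++ [pN (0 + j)]) = _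
      rw [Nat.zero_add]
    have hy : M.Supp (n + 2) (M.cup (2 + j) x) := M.supp_cup _ _ _ (by omega) hx
    show runW M (sh j (rotW R.word)) x = _
    rw [h1, pairRun_cons, pairRun_append, pairRun_U, hR (1 + j) (n + 2) _ (by omega) hy,
      pairRun_cons, pairRun_nil, pairRun_N, map_add, map_smul, map_smul]
    have h2 : M.cap j (M.cup (2 + j) x) = M.cup j (M.cap j x) := by
      have h := M.rel5 n j 0 x hx (by omega)
      rw [show j + 0 + 2 = 2 + j by omega, Nat.add_zero] at h
      exact h
    have h3 : M.cap (1 + j) (M.cup (2 + j) x) = x := by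
      have h := M.rel3 n (1 + j) x hx (by omega)
      rw [show 1 + j + 1 = 2 + j by omega] at h
      exact h
    have h4 : M.cap j (M.cup (1 + j) x) = x := by
      have h := M.rel3 n j x hx (by omega)
      rw [show j + 1 = 1 + j by omega] at h
      exact h
    rw [h2, h3, h4]
    show R.pair.2 • M.cup j (M.cap j x) + R.pair.1 • x = R.pair.1 • x +
      R.pair.2 • M.cup j (M.cap j x)
    exact add_comm _ _

end

theorem thm_PairRun : St_PairRun := by
  intro V _ _ M hM
  refine ⟨fun R => pairRun_word M hM R, fun R => ?_⟩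
  have h0 := M.supp_init
  have h2 : M.Supp 2 (M.cup 0 M.init) := M.supp_cup 0 0 _ (by omega) h0
  have h4 : M.Supp 4 (M.cup 1 (M.cup 0 M.init)) := M.supp_cup 2 1 _ (by omega) h2
  have e : runW M (NW R.word) M.init =
      M.cap 0 (M.cap 1 (runW M R.word (M.cup 1 (M.cup 0 M.init)))) := by
    show runW M (pU 0 :: pU 1 :: (R.word ++ [pN 1, pN 0])) M.init = _
    rw [pairRun_cons, pairRun_cons, pairRun_append]
    rfl
  have h5 := pairRun_word M hM R 0 4 _ (by omega) h4
  rw [sh_zero] at h5
  have h6 : M.cap 0 (M.cup 1 (M.cup 0 M.init)) = M.cup 0 M.init := M.rel3 2 0 _ h2 (by omega)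
  have h7 : M.cap 1 (M.cup 1 (M.cup 0 M.init)) = loopVal • M.cup 0 M.init := by
    rw [← hM.del]
    exact M.rel1 2 1 _ h2 (by omega)
  have h8 : M.cap 1 (M.cup 0 (M.cup 0 M.init)) = M.cup 0 M.init := M.rel2 2 0 _ h2 (by omega)
  have h9 : M.cap 0 (M.cup 0 M.init) = loopVal • M.init := by
    rw [← hM.del]
    exact M.rel1 0 0 _ h0 (by omega)
  rw [e, h5, h6]
  simp only [map_add, map_smul]
  rw [h7, h8]
  simp only [map_smul]
  rw [h9]
  module

/-! ### units and the bracket -/

theorem pairRun_loopVal_ne : (loopVal : LP) ≠ 0 := by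
  intro h
  have h1 := congrArg (fun f : LP => f.coeff 2) h
  simp [loopVal] at h1

private theorem pairRun_ok : ∀ (D : List Slice) (n m : ℕ), Helper2.Ok D n m →
    Ok (forget D) n m := by
  intro D
  induction D with
  | nil => intro n m h; exact h
  | cons s D ih =>
    intro n m h
    cases s with
    | cup i u => exact ⟨by show i + 0 ≤ n; exact h.1, ih _ _ h.2⟩
    | cap i => exact ⟨h.1, ih _ _ h.2⟩
    | cross i p =>
      refine ⟨h.1, ?_⟩
      have h1 : n - 2 + 2 = n := by
        have := h.1
        omega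
      show Ok (forget D) (n - 2 + 2) m
      rw [h1]
      exact ih _ _ h.2

/-- the loop value is not a unit -/
theorem pairRun_loopVal_mul (u y : LP) : (1 : LP) ≠ u * (loopVal * y) := by
  intro h
  set φ : LP →+* ZMod 2 := LaurentPolynomial.eval₂ (Int.castRingHom (ZMod 2)) 1 with hφ
  have h1 : φ loopVal = 0 := by
    rw [loopVal, map_neg, map_add, hφ, LaurentPolynomial.eval₂_T, LaurentPolynomial.eval₂_T]
    decide
  have h2 := congrArg φ h
  rw [map_one, map_mul, map_mul, h1, zero_mul, mul_zero] at h2
  exact one_ne_zero h2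

theorem thm_BrArb (h1 : St_Inv) (h2 : St_BrRun) (h3 : St_Vert) : St_BrArb := by
  intro D R hD hI
  obtain ⟨V, _, _, M, hM, hinj⟩ := h3
  obtain ⟨u, hu, hrun⟩ := h1 V M hM 0 0 (forget D) (NW R.word) (pairRun_ok D 0 0 hD) hI
  refine ⟨u, hu, ?_⟩
  have h4 := hrun M.init M.supp_init
  by_cases hne : D = []
  · exfalso
    subst hne
    rw [(thm_PairRun V M hM).2 R, smul_smul] at h4
    have h5 : (1 : LP) • M.init = (u * (loopVal * (R.pair.1 + loopVal * R.pair.2))) • M.init := by
      rw [one_smul, ← h4]
      rfl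
    exact pairRun_loopVal_mul u _ (hinj _ _ h5)
  · rw [h2 V M hM D hne hD, (thm_PairRun V M hM).2 R, smul_smul] at h4
    have h5 := hinj _ _ h4
    apply mul_left_cancel₀ pairRun_loopVal_ne
    rw [h5]
    ring

theorem thm_FArb (h : St_BrArb) : St_FArb := by
  intro D R hD hI hf
  have hOk : Helper2.Ok D 0 0 := ok_of_dirs D [] [] hD
  obtain ⟨u, ⟨k, hu⟩, hb⟩ := h D R hOk hI
  unfold fPoly at hf
  set c := R.pair.1 + loopVal * R.pair.2 with hc
  have hT : ∀ a b : ℤ, (T a : LP) * T b = T (a + b) := fun a b => (T_add a b).symm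
  have h0 : ∀ (a : ℤ) (x : LP), T a * x = 1 → x = T (-a) := by
    intro a x hx
    calc x = T (-a) * (T a * x) := by
          rw [← mul_assoc, hT, neg_add_cancel, T_zero, one_mul]
      _ = T (-a) := by rw [hx, mul_one]
  have h1 : ∀ (a : ℤ) (x : LP), T a * x = -1 → x = -T (-a) := by
    intro a x hx
    calc x = T (-a) * (T a * x) := by
          rw [← mul_assoc, hT, neg_add_cancel, T_zero, one_mul]
      _ = -T (-a) := by rw [hx, mul_neg, mul_one]
  have key : ∀ a : ℤ, T a * c = 1 ∨ T a * c = -1 → IsU c := by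
    rintro a (ha | ha)
    · exact ⟨-a, Or.inl (h0 a c ha)⟩
    · exact ⟨-a, Or.inr (h1 a c ha)⟩
  rw [hb] at hf
  rcases neg_one_pow_eq_or LP (writhe D).natAbs with hs | hs <;> rw [hs] at hf <;>
    rcases hu with hu | hu <;> rw [hu] at hf
  · apply key (-3 * writhe D + k)
    left
    rw [← hT]
    linear_combination hf
  · apply key (-3 * writhe D + k)
    right
    rw [← hT]
    linear_combination -hf
  · apply key (-3 * writhe D + k)
    right
    rw [← hT]
    linear_combination -hf
  · apply key (-3 * writhe D + k)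
    left
    rw [← hT]
    linear_combination hf

end Pool.Agent.ARB
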