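import Pool.Agent.ARB.Row
import Pool.Agent.ARB.PairRun
import Pool.Agent.ARB.Alg

/-!
# ARB: the final theorem
-/

set_option autoImplicit false

namespace Pool.Agent.ARB

open LaurentPolynomial Pool.Agent.Helper2

theorem all_T4 : St_T4 := thm_T4' all_T2 thm_T7 all_T3

/-- the topological facts -/
theorem top : Top := top_of_T4 all_T4

theorem all_BrArb : St_BrArb := thm_BrArb thm_Inv thm_BrRun thm_Vert

/-- The f-polynomial of a diagram which is isotopic to an arborescent one. -/
theorem fPoly_arb (D : List Slice) (R : Arb) (hD : IsDiagram D)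
    (h : Iso 0 (forget D) (NW R.word)) :
    ∃ u : LP, IsU u ∧ fPoly D = u * (R.pair.1 + loopVal * R.pair.2) := by
  have hok : Helper2.Ok D 0 0 := ok_of_dirs D [] [] hD
  obtain ⟨u, hu, h1⟩ := all_BrArb D R hok h
  have h2 : IsU (((-1 : LP)) ^ (writhe D).natAbs * T (-3 * writhe D)) := by
    rcases neg_one_pow_eq_or LP (writhe D).natAbs with h3 | h3 <;> rw [h3]
    · rw [one_mul]
      exact IsU.T _
    · rw [neg_one_mul]
      exact (IsU.T _).neg
  refine ⟨_, h2.mul hu, ?_⟩
  show (-1 : LP) ^ (writhe D).natAbs * T (-3 * writhe D) * bracket D = _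
  rw [h1]
  ring

/-- The diagram of an arborescent knot whose f-polynomial is trivial modulo the cube of
`A ^ 4 + 1` is isotopic to the trivial diagram. -/
theorem fin (D : List Slice) (hD : IsDiagram D) (R : Arb)
    (hT : Iso 0 (forget D) (NW R.word))
    (hf : (LaurentPolynomial.T 4 + 1) ^ 3 ∣ fPoly D - 1) : Iso 0 (forget D) O1 := by
  obtain ⟨u, hu, h1⟩ := fPoly_arb D R hD hT
  obtain ⟨v, hv, h2⟩ := hu.inv
  have h3 : (LaurentPolynomial.T 4 + 1) ^ 3 ∣ R.pair.1 + loopVal * R.pair.2 - v := by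
    have e1 : R.pair.1 + loopVal * R.pair.2 - v = v * (fPoly D - 1) := by
      rw [h1, mul_sub, ← mul_assoc, h2]
      ring
    rw [e1]
    exact Dvd.dvd.mul_left hf v
  exact hT.trans (alg_dvd top R v hv h3)

/-- The same for the bracket, up to a unit. -/
theorem fin_unit (D : List Slice) (hD : Helper2.Ok D 0 0) (R : Arb)
    (hT : Iso 0 (forget D) (NW R.word)) (hf : IsU (bracket D)) : Iso 0 (forget D) O1 := by
  obtain ⟨u, hu, h1⟩ := all_BrArb D R hD hT
  obtain ⟨v, hv, h2⟩ := hu.inv
  have h3 : IsU (R.pair.1 + loopVal * R.pair.2) := by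
    have e1 : R.pair.1 + loopVal * R.pair.2 = v * bracket D := by
      rw [h1, ← mul_assoc, h2]
      ring
    rw [e1]
    exact hv.mul hf
  exact hT.trans (alg_unit top R h3)

end Pool.Agent.ARB
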