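import Pool.Agent.ARB.TopSts2

/-!
# ARB, module Rev: reflection of words in a horizontal line
-/

set_option autoImplicit false

namespace Pool.Agent.ARB

theorem rev_append (u v : Word) : rev (u ++ v) = rev v ++ rev u := by
  induction u with
  | nil =>
    show rev v = rev v ++ []
    rw [List.append_nil]
  | cons s u ih =>
    show rev (u ++ v) ++ [⟨s.k.flip, s.i⟩] = rev v ++ (rev u ++ [⟨s.k.flip, s.i⟩])
    rw [ih, List.append_assoc]

theorem flip_flip (k : Kind) : k.flip.flip = k := by
  cases k with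
  | U => rfl
  | N => rfl
  | X p =>
    show Kind.X (!!p) = Kind.X p
    rw [Bool.not_not]

theorem flip_inn (k : Kind) : k.flip.inn = k.out := by cases k <;> rfl

theorem flip_out (k : Kind) : k.flip.out = k.inn := by cases k <;> rfl

theorem rev_rev (w : Word) : rev (rev w) = w := by
  induction w with
  | nil => rfl
  | cons s w ih =>
    show rev (rev w ++ [⟨s.k.flip, s.i⟩]) = s :: w
    rw [rev_append, ih]
    show [(⟨s.k.flip.flip, s.i⟩ : Piece)] ++ w = s :: w
    rw [flip_flip]
    rfl

theorem rev_sh (j : ℕ) (w : Word) : rev (sh j w) = sh j (rev w) := by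
  induction w with
  | nil => rfl
  | cons s w ih =>
    show rev (sh j w) ++ [⟨s.k.flip, s.i + j⟩] = sh j (rev w ++ [⟨s.k.flip, s.i⟩])
    rw [sh_append, ih]
    rfl

theorem ok_rev {w : Word} {n m : ℕ} (h : Ok w n m) : Ok (rev w) m n := by
  induction w generalizing n with
  | nil => exact Eq.symm h
  | cons s w ih =>
    have h1 := h.1
    have h2 := ih h.2
    refine h2.append ⟨?_, ?_⟩
    · show s.i + s.k.flip.inn ≤ n - s.k.inn + s.k.out
      rw [flip_inn]
      omega
    · show n - s.k.inn + s.k.out - s.k.flip.inn + s.k.flip.out = n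
      rw [flip_inn, flip_out]
      omega

theorem loc_rev {a b : Word} (h : Loc a b) : Loc (rev a) (rev b) ∨ Loc (rev b) (rev a) := by
  cases h with
  | swap s t i k =>
    right
    have h1 := Loc.swap s.flip t.flip i k
    rw [flip_out, flip_inn] at h1
    exact h1
  | zig i => exact Or.inl (Loc.zag i)
  | zag i => exact Or.inl (Loc.zig i)
  | slU i p =>
    left
    exact Loc.slN i (!p)
  | slN i p =>
    left
    exact Loc.slU i (!p)
  | r1U i p => exact Or.inl (Loc.r1N i (!p))
  | r1N i p => exact Or.inl (Loc.r1U i (!p))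
  | r2 i p =>
    left
    have h1 := Loc.r2 i (!!p)
    rw [Bool.not_not] at h1
    have h2 : rev [pX i p, pX i (!p)] = [pX i (!!p), pX i (!p)] := rfl
    rw [h2, Bool.not_not]
    exact h1
  | r3 i p => exact Or.inl (Loc.r3 i (!p))

theorem step_rev {n m : ℕ} {w w' : Word} (hw : Ok w n m) (h : Step n w w') :
    Step m (rev w) (rev w') := by
  obtain ⟨u, a, b, v, k, l, rfl, rfl, h3, h4, h5, h6⟩ := h
  obtain ⟨k', h7, h8⟩ := hw.split
  obtain rfl := h3.det h7
  obtain ⟨l', h9, h10⟩ := h8.split
  obtain rfl := h4.det h9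
  refine ⟨rev v, rev a, rev b, rev u, l, k, ?_, ?_, ok_rev h10, ok_rev h4, ok_rev h5, ?_⟩
  · rw [rev_append, rev_append, List.append_assoc]
  · rw [rev_append, rev_append, List.append_assoc]
  · rcases h6 with h6 | h6
    · exact loc_rev h6
    · exact (loc_rev h6).symm

theorem iso_rev {n m : ℕ} {w w' : Word} (hw : Ok w n m) (h : Iso n w w') :
    Iso m (rev w) (rev w') := by
  induction h with
  | refl => exact Iso.refl _ _
  | tail h1 h2 ih => exact Relation.ReflTransGen.tail ih (step_rev (Iso.ok h1 hw) h2)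

theorem thm_Rev : St_Rev :=
  ⟨rev_append, rev_rev, rev_sh, fun _ _ _ h => ok_rev h, fun _ _ _ _ hw h => iso_rev hw h⟩

end Pool.Agent.ARB
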