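import Pool.Agent.ARB.TopSts2

/-!
# ARB: distant parts of a word can be interchanged
-/

set_option autoImplicit false

namespace Pool.Agent.ARB

theorem comm_piece (s : Piece) (a : ℕ) (hs : s.i + s.k.inn ≤ a) (w : Word) :
    ∀ c d : ℕ, Ok w c d →
      Iso (a + c) (s :: sh (a - s.k.inn + s.k.out) w) (sh a w ++ [s]) := by
  induction w with
  | nil => intro c d _; exact Iso.refl _ _
  | cons t w ih =>
    intro c d h
    have h1 := h.1
    have e1 : t.i + a - s.k.inn + s.k.out = t.i + (a - s.k.inn + s.k.out) := by omega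
    have h2 : Iso (a + c) [s, ⟨t.k, t.i + (a - s.k.inn + s.k.out)⟩] [⟨t.k, t.i + a⟩, s] := by
      have h3 := Iso.swap (n := a + c) s.k t.k s.i (t.i + a) (by omega) (by omega)
      rw [e1] at h3
      exact h3
    have h4 : Iso (a + c) ([s, ⟨t.k, t.i + (a - s.k.inn + s.k.out)⟩] ++
        sh (a - s.k.inn + s.k.out) w)
        ([⟨t.k, t.i + a⟩, s] ++ sh (a - s.k.inn + s.k.out) w) := h2.right _
    have h5 := ih _ _ h.2
    have e2 : a + (c - t.k.inn + t.k.out) = a + c - t.k.inn + t.k.out := by omega
    rw [e2] at h5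
    have h6 : Ok [(⟨t.k, t.i + a⟩ : Piece)] (a + c) (a + c - t.k.inn + t.k.out) :=
      ⟨by show t.i + a + t.k.inn ≤ a + c; omega, rfl⟩
    exact h4.trans (Iso.left h6 h5)

theorem thm_Comm : St_Comm := by
  intro u w a b c d hu hw
  induction u generalizing a with
  | nil =>
    have h1 : a = b := hu
    subst h1
    show Iso (a + c) (sh a w) (sh a w ++ [])
    rw [List.append_nil]
    exact Iso.refl _ _
  | cons s u ih =>
    have h1 := hu.1
    have h2 := ih _ hu.2
    have h3 : Ok [s] (a + c) (a - s.k.inn + s.k.out + c) := by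
      refine ⟨by omega, ?_⟩
      show a + c - s.k.inn + s.k.out = a - s.k.inn + s.k.out + c
      omega
    have h4 : Iso (a + c) ([s] ++ (u ++ sh b w))
        ([s] ++ (sh (a - s.k.inn + s.k.out) w ++ u)) := Iso.left h3 h2
    have h5 := (comm_piece s a h1 w c d hw).right u
    rw [List.append_assoc] at h5
    exact h4.trans h5

end Pool.Agent.ARB
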