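import Pool.Agent.ARB.TopStmts

/-!
# Arborescent knots: basic facts on words and isotopies
-/

set_option autoImplicit false

namespace Pool.Agent.ARB

/-! ### words -/

theorem sh_nil (j : ℕ) : sh j [] = [] := rfl

theorem sh_cons (j : ℕ) (s : Piece) (w : Word) : sh j (s :: w) = ⟨s.k, s.i + j⟩ :: sh j w := rfl

theorem sh_append (j : ℕ) (u v : Word) : sh j (u ++ v) = sh j u ++ sh j v := List.map_append

theorem sh_sh (i j : ℕ) (w : Word) : sh i (sh j w) = sh (i + j) w := by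
  induction w with
  | nil => rfl
  | cons s w ih =>
    rw [sh_cons, sh_cons, sh_cons, ih]
    have h1 : s.i + j + i = s.i + (i + j) := by omega
    show (⟨s.k, s.i + j + i⟩ : Piece) :: _ = _
    rw [h1]

theorem sh_zero (w : Word) : sh 0 w = w := by
  induction w with
  | nil => rfl
  | cons s w ih => rw [sh_cons, ih]; rfl

theorem Ok.append {u v : Word} {n k m : ℕ} (h : Ok u n k) (h' : Ok v k m) : Ok (u ++ v) n m := by
  induction u generalizing n with
  | nil =>
    have h1 : n = k := h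
    subst h1
    exact h'
  | cons s u ih => exact ⟨h.1, ih h.2⟩

theorem Ok.split {u v : Word} {n m : ℕ} (h : Ok (u ++ v) n m) : ∃ k, Ok u n k ∧ Ok v k m := by
  induction u generalizing n with
  | nil => exact ⟨n, rfl, h⟩
  | cons s u ih =>
    obtain ⟨k, h1, h2⟩ := ih h.2
    exact ⟨k, ⟨h.1, h1⟩, h2⟩

theorem Ok.det {w : Word} {n m m' : ℕ} (h : Ok w n m) (h' : Ok w n m') : m = m' := by
  induction w generalizing n with
  | nil =>
    have h1 : n = m := h
    have h2 : n = m' := h'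
    omega
  | cons s w ih => exact ih h.2 h'.2

/-- more strands on the right -/
theorem Ok.add {w : Word} {n m : ℕ} (h : Ok w n m) (j : ℕ) : Ok w (n + j) (m + j) := by
  induction w generalizing n with
  | nil =>
    have h1 : n = m := h
    subst h1
    rfl
  | cons s w ih =>
    have h1 := h.1
    refine ⟨by omega, ?_⟩
    have h2 := ih h.2
    have h3 : n + j - s.k.inn + s.k.out = n - s.k.inn + s.k.out + j := by omega
    rw [h3]
    exact h2

/-- more strands on the left -/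
theorem Ok.sh {w : Word} {n m : ℕ} (h : Ok w n m) (j : ℕ) : Ok (sh j w) (n + j) (m + j) := by
  induction w generalizing n with
  | nil =>
    have h1 : n = m := h
    subst h1
    rfl
  | cons s w ih =>
    have h1 := h.1
    refine ⟨by show s.i + j + s.k.inn ≤ n + j; omega, ?_⟩
    have h2 := ih h.2
    have h3 : n + j - s.k.inn + s.k.out = n - s.k.inn + s.k.out + j := by omega
    show Ok (ARB.sh j w) (n + j - s.k.inn + s.k.out) (m + j)
    rw [h3]
    exact h2

theorem Ok.single {s : Piece} {n : ℕ} (h : s.i + s.k.inn ≤ n) :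
    Ok [s] n (n - s.k.inn + s.k.out) := ⟨h, rfl⟩

/-! ### isotopies -/

theorem Loc.sh {a b : Word} (h : Loc a b) (j : ℕ) : Loc (sh j a) (sh j b) := by
  cases h with
  | swap s t i k =>
    have h1 := Loc.swap s t (i + j) k
    have e1 : i + j + s.out + k = i + s.out + k + j := by omega
    have e2 : i + j + s.inn + k = i + s.inn + k + j := by omega
    rw [e1, e2] at h1
    exact h1
  | zig i =>
    have h1 := Loc.zig (i + j)
    have e1 : i + j + 1 = i + 1 + j := by omega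
    rw [e1] at h1
    exact h1
  | zag i =>
    have h1 := Loc.zag (i + j)
    have e1 : i + j + 1 = i + 1 + j := by omega
    rw [e1] at h1
    exact h1
  | slU i p =>
    have h1 := Loc.slU (i + j) p
    have e1 : i + j + 1 = i + 1 + j := by omega
    rw [e1] at h1
    exact h1
  | slN i p =>
    have h1 := Loc.slN (i + j) p
    have e1 : i + j + 1 = i + 1 + j := by omega
    rw [e1] at h1
    exact h1
  | r1U i p => exact Loc.r1U (i + j) p
  | r1N i p => exact Loc.r1N (i + j) p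
  | r2 i p => exact Loc.r2 (i + j) p
  | r3 i p =>
    have h1 := Loc.r3 (i + j) p
    have e1 : i + j + 1 = i + 1 + j := by omega
    rw [e1] at h1
    exact h1

theorem Step.symm {n : ℕ} {w w' : Word} (h : Step n w w') : Step n w' w := by
  obtain ⟨u, a, b, v, k, l, h1, h2, h3, h4, h5, h6⟩ := h
  exact ⟨u, b, a, v, k, l, h2, h1, h3, h5, h4, h6.symm⟩

theorem Iso.refl (n : ℕ) (w : Word) : Iso n w w := Relation.ReflTransGen.refl

theorem Iso.trans {n : ℕ} {w w' w'' : Word} (h : Iso n w w') (h' : Iso n w' w'') :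
    Iso n w w'' := Relation.ReflTransGen.trans h h'

theorem Iso.symm {n : ℕ} {w w' : Word} (h : Iso n w w') : Iso n w' w := by
  induction h with
  | refl => exact Iso.refl n w
  | tail _ hs ih => exact Relation.ReflTransGen.head hs.symm ih

/-- a local move is an isotopy -/
theorem Iso.of_loc {n m : ℕ} {a b : Word} (h : Loc a b) (ha : Ok a n m) (hb : Ok b n m) :
    Iso n a b :=
  Relation.ReflTransGen.single ⟨[], a, b, [], n, m, by simp, by simp, rfl, ha, hb, Or.inl h⟩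

theorem Step.right {n : ℕ} {w w' : Word} (h : Step n w w') (z : Word) :
    Step n (w ++ z) (w' ++ z) := by
  obtain ⟨u, a, b, v, k, l, rfl, rfl, h3, h4, h5, h6⟩ := h
  exact ⟨u, a, b, v ++ z, k, l, by simp, by simp, h3, h4, h5, h6⟩

theorem Step.left {n k : ℕ} {w w' z : Word} (hz : Ok z n k) (h : Step k w w') :
    Step n (z ++ w) (z ++ w') := by
  obtain ⟨u, a, b, v, k', l, rfl, rfl, h3, h4, h5, h6⟩ := h
  exact ⟨z ++ u, a, b, v, k', l, by simp, by simp, hz.append h3, h4, h5, h6⟩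

theorem Iso.right {n : ℕ} {w w' : Word} (h : Iso n w w') (z : Word) :
    Iso n (w ++ z) (w' ++ z) := by
  induction h with
  | refl => exact Iso.refl _ _
  | tail _ hs ih => exact Relation.ReflTransGen.tail ih (hs.right z)

theorem Iso.left {n k : ℕ} {w w' z : Word} (hz : Ok z n k) (h : Iso k w w') :
    Iso n (z ++ w) (z ++ w') := by
  induction h with
  | refl => exact Iso.refl _ _
  | tail _ hs ih => exact Relation.ReflTransGen.tail ih (hs.left hz)

/-- isotopy of the middle part of a word -/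
theorem Iso.mid {n k : ℕ} {a b : Word} (u v : Word) (hu : Ok u n k) (h : Iso k a b) :
    Iso n (u ++ (a ++ v)) (u ++ (b ++ v)) := Iso.left hu (h.right v)

theorem Step.ok {n m : ℕ} {w w' : Word} (h : Step n w w') (hw : Ok w n m) : Ok w' n m := by
  obtain ⟨u, a, b, v, k, l, rfl, rfl, h3, h4, h5, h6⟩ := h
  obtain ⟨k', h7, h8⟩ := hw.split
  obtain rfl := h3.det h7
  obtain ⟨l', h9, h10⟩ := h8.split
  obtain rfl := h4.det h9
  exact h3.append (h5.append h10)

theorem Iso.ok {n m : ℕ} {w w' : Word} (h : Iso n w w') (hw : Ok w n m) : Ok w' n m := by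
  induction h with
  | refl => exact hw
  | tail _ hs ih => exact hs.ok ih

theorem Step.add {n : ℕ} {w w' : Word} (h : Step n w w') (j : ℕ) : Step (n + j) w w' := by
  obtain ⟨u, a, b, v, k, l, h1, h2, h3, h4, h5, h6⟩ := h
  exact ⟨u, a, b, v, k + j, l + j, h1, h2, h3.add j, h4.add j, h5.add j, h6⟩

/-- more strands on the right -/
theorem Iso.add {n : ℕ} {w w' : Word} (h : Iso n w w') (j : ℕ) : Iso (n + j) w w' := by
  induction h with
  | refl => exact Iso.refl _ _
  | tail _ hs ih => exact Relation.ReflTransGen.tail ih (hs.add j)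

theorem Step.sh {n : ℕ} {w w' : Word} (h : Step n w w') (j : ℕ) :
    Step (n + j) (sh j w) (sh j w') := by
  obtain ⟨u, a, b, v, k, l, rfl, rfl, h3, h4, h5, h6⟩ := h
  refine ⟨ARB.sh j u, ARB.sh j a, ARB.sh j b, ARB.sh j v, k + j, l + j, by simp [sh_append],
    by simp [sh_append], h3.sh j, h4.sh j, h5.sh j, ?_⟩
  exact h6.imp (fun h => h.sh j) (fun h => h.sh j)

/-- more strands on the left -/
theorem Iso.sh {n : ℕ} {w w' : Word} (h : Iso n w w') (j : ℕ) :
    Iso (n + j) (sh j w) (sh j w') := by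
  induction h with
  | refl => exact Iso.refl _ _
  | tail _ hs ih => exact Relation.ReflTransGen.tail ih (hs.sh j)

/-- the same for words which fit on at least the given number of strands -/
theorem Iso.le {n n' : ℕ} {w w' : Word} (h : Iso n w w') (hn : n ≤ n') : Iso n' w w' := by
  obtain ⟨j, rfl⟩ := Nat.exists_eq_add_of_le hn
  exact h.add j

/-! ### single moves in arbitrary position -/

theorem Iso.zig {n i : ℕ} (h : i + 1 ≤ n) : Iso n [pU i, pN (i + 1)] [] := by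
  refine Iso.of_loc (m := n) (Loc.zig i) ⟨by show i + 0 ≤ n; omega, ?_⟩ rfl
  exact ⟨by show i + 1 + 2 ≤ n - 0 + 2; omega, by show n - 0 + 2 - 2 + 0 = n; omega⟩

theorem Iso.zag {n i : ℕ} (h : i + 1 ≤ n) : Iso n [pU (i + 1), pN i] [] := by
  refine Iso.of_loc (m := n) (Loc.zag i) ⟨by show i + 1 + 0 ≤ n; omega, ?_⟩ rfl
  exact ⟨by show i + 2 ≤ n - 0 + 2; omega, by show n - 0 + 2 - 2 + 0 = n; omega⟩

theorem Iso.slU {n i : ℕ} (p : Bool) (h : i + 1 ≤ n) :
    Iso n [pU (i + 1), pX i p] [pU i, pX (i + 1) (!p)] := by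
  refine Iso.of_loc (m := n + 2) (Loc.slU i p) ⟨by show i + 1 + 0 ≤ n; omega, ?_⟩
    ⟨by show i + 0 ≤ n; omega, ?_⟩
  · exact ⟨by show i + 2 ≤ n - 0 + 2; omega, by show n - 0 + 2 - 2 + 2 = n + 2; omega⟩
  · exact ⟨by show i + 1 + 2 ≤ n - 0 + 2; omega, by show n - 0 + 2 - 2 + 2 = n + 2; omega⟩

theorem Iso.slN {n i : ℕ} (p : Bool) (h : i + 3 ≤ n) :
    Iso n [pX i p, pN (i + 1)] [pX (i + 1) (!p), pN i] := by
  refine Iso.of_loc (m := n - 2) (Loc.slN i p) ⟨by show i + 2 ≤ n; omega, ?_⟩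
    ⟨by show i + 1 + 2 ≤ n; omega, ?_⟩
  · exact ⟨by show i + 1 + 2 ≤ n - 2 + 2; omega, by show n - 2 + 2 - 2 + 0 = n - 2; omega⟩
  · exact ⟨by show i + 2 ≤ n - 2 + 2; omega, by show n - 2 + 2 - 2 + 0 = n - 2; omega⟩

theorem Iso.r1U {n i : ℕ} (p : Bool) (h : i ≤ n) : Iso n [pU i, pX i p] [pU i] := by
  refine Iso.of_loc (m := n + 2) (Loc.r1U i p) ⟨by show i + 0 ≤ n; omega, ?_⟩
    ⟨by show i + 0 ≤ n; omega, by show n - 0 + 2 = n + 2; omega⟩
  exact ⟨by show i + 2 ≤ n - 0 + 2; omega, by show n - 0 + 2 - 2 + 2 = n + 2; omega⟩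

theorem Iso.r1N {n i : ℕ} (p : Bool) (h : i + 2 ≤ n) : Iso n [pX i p, pN i] [pN i] := by
  refine Iso.of_loc (m := n - 2) (Loc.r1N i p) ⟨by show i + 2 ≤ n; omega, ?_⟩
    ⟨by show i + 2 ≤ n; omega, by show n - 2 + 0 = n - 2; omega⟩
  exact ⟨by show i + 2 ≤ n - 2 + 2; omega, by show n - 2 + 2 - 2 + 0 = n - 2; omega⟩

theorem Iso.r2 {n i : ℕ} (p : Bool) (h : i + 2 ≤ n) : Iso n [pX i p, pX i (!p)] [] := by
  refine Iso.of_loc (m := n) (Loc.r2 i p) ⟨by show i + 2 ≤ n; omega, ?_⟩ rfl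
  exact ⟨by show i + 2 ≤ n - 2 + 2; omega, by show n - 2 + 2 - 2 + 2 = n; omega⟩

theorem Iso.r2' {n i : ℕ} (p : Bool) (h : i + 2 ≤ n) : Iso n [pX i (!p), pX i p] [] := by
  have h1 := Iso.r2 (!p) h
  rw [Bool.not_not] at h1
  exact h1

theorem Iso.r3 {n i : ℕ} (p : Bool) (h : i + 3 ≤ n) :
    Iso n [pX i p, pX (i + 1) p, pX i p] [pX (i + 1) p, pX i p, pX (i + 1) p] := by
  refine Iso.of_loc (m := n) (Loc.r3 i p) ⟨by show i + 2 ≤ n; omega, ?_⟩
    ⟨by show i + 1 + 2 ≤ n; omega, ?_⟩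
  · refine ⟨by show i + 1 + 2 ≤ n - 2 + 2; omega, by show i + 2 ≤ n - 2 + 2 - 2 + 2; omega, ?_⟩
    show n - 2 + 2 - 2 + 2 - 2 + 2 = n
    omega
  · refine ⟨by show i + 2 ≤ n - 2 + 2; omega,
      by show i + 1 + 2 ≤ n - 2 + 2 - 2 + 2; omega, ?_⟩
    show n - 2 + 2 - 2 + 2 - 2 + 2 = n
    omega

/-- interchange of two pieces; `s` is at the position `i`, `t` on the right of it -/
theorem Iso.swap {n : ℕ} (s t : Kind) (i j : ℕ) (h1 : i + s.inn ≤ j) (h2 : j + t.inn ≤ n) :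
    Iso n [⟨s, i⟩, ⟨t, j - s.inn + s.out⟩] [⟨t, j⟩, ⟨s, i⟩] := by
  have h3 := Loc.swap s t i (j - i - s.inn)
  have e1 : i + s.out + (j - i - s.inn) = j - s.inn + s.out := by omega
  have e2 : i + s.inn + (j - i - s.inn) = j := by omega
  rw [e1, e2] at h3
  refine Iso.of_loc (m := n - s.inn + s.out - t.inn + t.out) h3 ⟨by show i + s.inn ≤ n; omega, ?_⟩
    ⟨h2, ?_⟩
  · exact ⟨by show j - s.inn + s.out + t.inn ≤ n - s.inn + s.out; omega, rfl⟩
  · exact ⟨by show i + s.inn ≤ n - t.inn + t.out; omega,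
      by show n - t.inn + t.out - s.inn + s.out = n - s.inn + s.out - t.inn + t.out; omega⟩

/-! ### tangles -/

theorem ok_rotW {w : Word} (h : Ok w 2 2) : Ok (rotW w) 2 2 := by
  have h1 : Ok (ARB.sh 1 w ++ [pN 0]) 4 2 := ((h.sh 1).add 1).append ⟨by decide, rfl⟩
  exact ⟨by decide, h1⟩

theorem ok_rotW' {w : Word} (h : Ok w 2 2) : Ok (rotW' w) 2 2 := by
  have h1 : Ok (ARB.sh 1 w ++ [pN 2]) 4 2 := ((h.sh 1).add 1).append ⟨by decide, rfl⟩
  exact ⟨by decide, h1⟩

theorem okA (T : Arb) : Ok T.word 2 2 := by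
  induction T with
  | zero => rfl
  | cross p => exact ⟨Nat.le_refl 2, rfl⟩
  | sum S T hS hT => exact hS.append hT
  | rot T hT => exact ok_rotW hT

theorem ok_NW {w : Word} (h : Ok w 2 2) : Ok (NW w) 0 0 := by
  have h1 : Ok (w ++ [pN 1, pN 0]) 4 0 := (h.add 2).append ⟨by decide, by decide, rfl⟩
  exact ⟨by decide, by decide, h1⟩

theorem ok_DW {w : Word} (h : Ok w 2 2) : Ok (DW w) 0 0 := by
  have h1 : Ok (w ++ [pN 0]) 2 0 := h.append ⟨by decide, rfl⟩
  exact ⟨by decide, h1⟩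

theorem congS (A A' B B' : Word) (_hA : Ok A 2 2) (hA' : Ok A' 2 2) (h : Iso 2 A A')
    (h' : Iso 2 B B') : Iso 2 (A ++ B) (A' ++ B') :=
  (h.right B).trans (Iso.left hA' h')

theorem congR (A A' : Word) (h : Iso 2 A A') : Iso 2 (rotW A) (rotW A') := by
  have h1 : Iso 4 (ARB.sh 1 A ++ [pN 0]) (ARB.sh 1 A' ++ [pN 0]) := ((h.sh 1).add 1).right _
  exact Iso.left (z := [pU 2]) (k := 4) ⟨by decide, rfl⟩ h1

theorem congR' (A A' : Word) (h : Iso 2 A A') : Iso 2 (rotW' A) (rotW' A') := by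
  have h1 : Iso 4 (ARB.sh 1 A ++ [pN 2]) (ARB.sh 1 A' ++ [pN 2]) := ((h.sh 1).add 1).right _
  exact Iso.left (z := [pU 0]) (k := 4) ⟨by decide, rfl⟩ h1

theorem congN (A A' : Word) (h : Iso 2 A A') : Iso 0 (NW A) (NW A') := by
  have h1 : Iso 4 (A ++ [pN 1, pN 0]) (A' ++ [pN 1, pN 0]) := (h.add 2).right _
  exact Iso.left (z := [pU 0, pU 1]) (k := 4) ⟨by decide, by decide, rfl⟩ h1

theorem congD (A A' : Word) (h : Iso 2 A A') : Iso 0 (DW A) (DW A') := by
  have h1 : Iso 2 (A ++ [pN 0]) (A' ++ [pN 0]) := h.right _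
  exact Iso.left (z := [pU 0]) (k := 2) ⟨by decide, rfl⟩ h1

end Pool.Agent.ARB
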