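import Pool.Agent.ARB.Defs

/-!
# ARB: the bracket pair of an arborescent tangle, in the ring `ℤ[A, A⁻¹]`
-/

set_option autoImplicit false

namespace Pool.Agent.ARB

open LaurentPolynomial Pool.Agent.Helper2

/-- the coefficients `(γ, β)` of the tangle in the basis (cap followed by cup, identity) -/
noncomputable def Arb.pair : Arb → LaurentPolynomial ℤ × LaurentPolynomial ℤ
  | .zero => (0, 1)
  | .cross p => (T (if p then -1 else 1), T (if p then 1 else -1))
  | .sum S R => (S.pair.1 * R.pair.2 + S.pair.2 * R.pair.1 + loopVal * (S.pair.1 * R.pair.1),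
      S.pair.2 * R.pair.2)
  | .rot S => (S.pair.2, S.pair.1)

/-- the units `± A ^ k` -/
def IsU (u : LaurentPolynomial ℤ) : Prop := ∃ k : ℤ, u = T k ∨ u = -T k

theorem IsU.one : IsU 1 := ⟨0, Or.inl T_zero.symm⟩

theorem IsU.T (k : ℤ) : IsU (LaurentPolynomial.T k) := ⟨k, Or.inl rfl⟩

theorem IsU.neg {u : LaurentPolynomial ℤ} (h : IsU u) : IsU (-u) := by
  obtain ⟨k, h | h⟩ := h
  · exact ⟨k, Or.inr (by rw [h])⟩
  · exact ⟨k, Or.inl (by rw [h, neg_neg])⟩

theorem IsU.mul {u v : LaurentPolynomial ℤ} (h : IsU u) (h' : IsU v) : IsU (u * v) := by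
  obtain ⟨k, h | h⟩ := h <;> obtain ⟨l, h' | h'⟩ := h' <;> rw [h, h'] <;> refine ⟨k + l, ?_⟩ <;>
    rw [T_add]
  · exact Or.inl rfl
  · exact Or.inr (by ring)
  · exact Or.inr (by ring)
  · exact Or.inl (by ring)

theorem IsU.inv {u : LaurentPolynomial ℤ} (h : IsU u) : ∃ v, IsU v ∧ v * u = 1 := by
  obtain ⟨k, h | h⟩ := h
  · exact ⟨LaurentPolynomial.T (-k), IsU.T _, by rw [h, ← T_add, neg_add_cancel, T_zero]⟩
  · exact ⟨-LaurentPolynomial.T (-k), (IsU.T _).neg,
      by rw [h, neg_mul_neg, ← T_add, neg_add_cancel, T_zero]⟩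

end Pool.Agent.ARB
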