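import Pool.Agent.ARB.AlgStmts
import Pool.Agent.ARB.JetU

/-!
# ARB: the induction, numerical part
-/

set_option autoImplicit false

namespace Pool.Agent.ARB

/-- equality of jets up to the sign of `(p, q)` -/
def Sim (J J' : Jet) : Prop := J = J' ∨ J = J'.neg

theorem Sim.refl (J : Jet) : Sim J J := Or.inl rfl

theorem Sim.symm {J J' : Jet} (h : Sim J J') : Sim J' J := by
  rcases h with h | h
  · exact Or.inl h.symm
  · exact Or.inr (by rw [h, Jet.neg_neg'])

theorem Sim.trans {J J' J'' : Jet} (h : Sim J J') (h' : Sim J' J'') : Sim J J'' := by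
  rcases h with rfl | rfl <;> rcases h' with rfl | rfl
  · exact Or.inl rfl
  · exact Or.inr rfl
  · exact Or.inr rfl
  · exact Or.inl (by rw [Jet.neg_neg'])

theorem Sim.sumL {J J' : Jet} (h : Sim J J') (K : Jet) : Sim (J.sum K) (J'.sum K) := by
  rcases h with rfl | rfl
  · exact Or.inl rfl
  · exact Or.inr (by rw [Jet.neg_sum])

theorem Sim.sumR {J J' : Jet} (h : Sim J J') (K : Jet) : Sim (K.sum J) (K.sum J') := by
  rw [Jet.sum_comm K J, Jet.sum_comm K J']
  exact h.sumL K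

theorem Sim.E {J J' : Jet} (h : Sim J J') : J.E = J'.E := by
  rcases h with rfl | rfl
  · rfl
  · simp [Jet.E, Jet.neg]

theorem rat_sim {R R' : Arb} (h : Rat R) (h' : Rat R') (s : SameSlope R R') :
    Sim R.jet R'.jet := by
  obtain ⟨h1, h2, h3, h4⟩ := rat_uniq R R' h h' s
  rcases sameSlope_jet s with ⟨h5, h6⟩ | ⟨h5, h6⟩
  · exact Or.inl (by ext <;> simp [h1, h2, h3, h4, h5, h6])
  · exact Or.inr (by ext <;> simp [Jet.neg, h1, h2, h3, h4, h5, h6])

theorem SameSlope.refl (A : Arb) : SameSlope A A := Or.inl ⟨rfl, rfl⟩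

theorem SameSlope.symm {A B : Arb} (h : SameSlope A B) : SameSlope B A := by
  rcases h with ⟨h1, h2⟩ | ⟨h1, h2⟩
  · exact Or.inl ⟨h1.symm, h2.symm⟩
  · exact Or.inr ⟨by rw [h1]; ring, by rw [h2]; ring⟩

theorem SameSlope.trans {A B C : Arb} (h : SameSlope A B) (h' : SameSlope B C) :
    SameSlope A C := by
  rcases h with ⟨h1, h2⟩ | ⟨h1, h2⟩ <;> rcases h' with ⟨h3, h4⟩ | ⟨h3, h4⟩
  · exact Or.inl ⟨h1.trans h3, h2.trans h4⟩
  · exact Or.inr ⟨h1.trans h3, h2.trans h4⟩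
  · exact Or.inr ⟨by rw [h1, h3], by rw [h2, h4]⟩
  · exact Or.inl ⟨by rw [h1, h3]; ring, by rw [h2, h4]; ring⟩

theorem SameSlope.sumL {A B : Arb} (h : SameSlope A B) (C : Arb) :
    SameSlope (.sum A C) (.sum B C) := by
  rcases h with ⟨h1, h2⟩ | ⟨h1, h2⟩
  · exact Or.inl ⟨by simp only [Arb.pq]; rw [h1, h2], by simp only [Arb.pq]; rw [h2]⟩
  · exact Or.inr ⟨by simp only [Arb.pq]; rw [h1, h2]; ring, by simp only [Arb.pq]; rw [h2]; ring⟩

theorem SameSlope.sumC (A B : Arb) : SameSlope (.sum A B) (.sum B A) := by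
  refine Or.inl ⟨?_, ?_⟩ <;> simp only [Arb.pq] <;> ring

theorem SameSlope.sumR {A B : Arb} (h : SameSlope A B) (C : Arb) :
    SameSlope (.sum C A) (.sum C B) :=
  (SameSlope.sumC C A).trans ((h.sumL C).trans (SameSlope.sumC B C))

theorem SameSlope.assoc (A B C : Arb) :
    SameSlope (.sum (.sum A B) C) (.sum A (.sum B C)) := by
  refine Or.inl ⟨?_, ?_⟩ <;> simp only [Arb.pq] <;> ring

theorem SameSlope.rot {A B : Arb} (h : SameSlope A B) : SameSlope (.rot A) (.rot B) := by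
  rcases h with ⟨h1, h2⟩ | ⟨h1, h2⟩
  · exact Or.inl ⟨by simp only [Arb.pq]; rw [h2], by simp only [Arb.pq]; rw [h1]⟩
  · exact Or.inr ⟨by simp only [Arb.pq]; rw [h2], by simp only [Arb.pq]; rw [h1]⟩

theorem SameSlope.p {A B : Arb} (h : SameSlope A B) : A.pq.1.natAbs = B.pq.1.natAbs := by
  rcases h with ⟨h1, _⟩ | ⟨h1, _⟩
  · rw [h1]
  · rw [h1, Int.natAbs_neg]

theorem SameSlope.q {A B : Arb} (h : SameSlope A B) : A.pq.2.natAbs = B.pq.2.natAbs := by
  rcases h with ⟨_, h1⟩ | ⟨_, h1⟩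
  · rw [h1]
  · rw [h1, Int.natAbs_neg]

/-- if `|p(A + B)| = 1` then both pairs are coprime -/
theorem cop_of_one {A B : Arb} (h : (Arb.sum A B).pq.1.natAbs = 1) :
    IsCoprime A.pq.1 A.pq.2 ∧ IsCoprime B.pq.1 B.pq.2 := by
  simp only [Arb.pq] at h
  rcases Int.natAbs_eq (A.pq.1 * B.pq.2 + A.pq.2 * B.pq.1) with h1 | h1 <;> rw [h] at h1
  · exact ⟨⟨B.pq.2, B.pq.1, by push_cast at h1; linarith⟩,
      ⟨A.pq.2, A.pq.1, by push_cast at h1; linarith⟩⟩
  · exact ⟨⟨-B.pq.2, -B.pq.1, by push_cast at h1; linarith⟩,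
      ⟨-A.pq.2, -A.pq.1, by push_cast at h1; linarith⟩⟩

theorem cop_self {A : Arb} (h : A.pq.1.natAbs = 1) : IsCoprime A.pq.1 A.pq.2 := by
  rcases Int.natAbs_eq A.pq.1 with h1 | h1 <;> rw [h] at h1
  · exact ⟨1, 0, by rw [h1]; norm_num⟩
  · exact ⟨-1, 0, by rw [h1]; norm_num⟩

/-! ### integral tangles -/

/-- adding `n` crossings -/
def addX (p : Bool) : ℕ → Arb → Arb
  | 0, T => T
  | n + 1, T => .sum (addX p n T) (.cross p)

theorem addX_rat (p : Bool) (n : ℕ) {R : Arb} (h : Rat R) : Rat (addX p n R) := by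
  induction n with
  | zero => exact h
  | succ n ih => exact Rat.add _ p ih

theorem addX_pq (p : Bool) (n : ℕ) (R : Arb) :
    (addX p n R).pq = (R.pq.1 + (if p then 1 else -1) * n * R.pq.2, R.pq.2) := by
  induction n with
  | zero => simp [addX]
  | succ n ih =>
      have e1 : (addX p (n + 1) R).pq.1 = R.pq.1 + (if p then 1 else -1) * ((n + 1 : ℕ) : ℤ) *
          R.pq.2 := by
        simp only [addX, Arb.pq, ih]
        push_cast
        ring
      have e2 : (addX p (n + 1) R).pq.2 = R.pq.2 := by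
        simp only [addX, Arb.pq, ih]
        ring
      exact Prod.ext e1 e2

theorem addX_jet (p : Bool) (n : ℕ) (R : Arb) :
    (addX p n R).jet = R.jet.sum (addX p n .zero).jet := by
  induction n with
  | zero =>
      show R.jet = R.jet.sum Jet.zero
      rw [Jet.sum_zero]
  | succ n ih =>
      show (addX p n R).jet.sum (Jet.cross p) = R.jet.sum ((addX p n .zero).jet.sum (Jet.cross p))
      rw [ih, Jet.sum_assoc]

/-- an integral tangle has the slope of a row of crossings -/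
theorem int_slope {I : Arb} (h : I.pq.2.natAbs = 1) :
    ∃ (p : Bool) (n : ℕ), SameSlope I (addX p n .zero) := by
  have key : ∀ m : ℤ, ∃ (p : Bool) (n : ℕ), (addX p n Arb.zero).pq = (m, 1) := by
    intro m
    rcases Int.natAbs_eq m with h1 | h1
    · refine ⟨true, m.natAbs, ?_⟩
      rw [addX_pq]
      simp only [Arb.pq, if_true]
      rw [h1]
      simp
    · refine ⟨false, m.natAbs, ?_⟩
      rw [addX_pq]
      simp only [Arb.pq]
      rw [h1]
      simp
  rcases Int.natAbs_eq I.pq.2 with h1 | h1 <;> rw [h] at h1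
  · obtain ⟨p, n, e⟩ := key I.pq.1
    exact ⟨p, n, Or.inl ⟨by rw [e], by rw [e, h1]; rfl⟩⟩
  · obtain ⟨p, n, e⟩ := key (-I.pq.1)
    exact ⟨p, n, Or.inr ⟨by rw [e]; ring, by rw [e, h1]; rfl⟩⟩

/-- the jet of a sum of a rational and an integral tangle -/
theorem int_jet {R I C : Arb} (hR : Rat R) (hI : Rat I) (hq : I.pq.2.natAbs = 1) (hC : Rat C)
    (s : SameSlope (.sum R I) C) : Sim (R.jet.sum I.jet) C.jet := by
  obtain ⟨p, n, h⟩ := int_slope hq
  have h1 : Sim I.jet (addX p n .zero).jet := rat_sim hI (addX_rat p n Rat.zero) h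
  have h2 : Sim (R.jet.sum I.jet) (addX p n R).jet := by
    rw [addX_jet]
    exact h1.sumR _
  refine h2.trans (rat_sim (addX_rat p n hR) hC ?_)
  refine SameSlope.trans ?_ s
  refine SameSlope.trans ?_ (h.symm.sumR R)
  refine Or.inl ⟨?_, ?_⟩
  · rw [addX_pq]
    simp only [Arb.pq, addX_pq]
    ring
  · rw [addX_pq]
    simp only [Arb.pq, addX_pq]
    ring

/-- three rational tangles, the last one integral -/
theorem three_last {R1 R2 R3 : Arb} (h1 : Rat R1) (h2 : Rat R2) (h3 : Rat R3)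
    (hp : (Arb.sum (Arb.sum R1 R2) R3).pq.1.natAbs = 1) (hq : R3.pq.2.natAbs = 1) :
    (Arb.sum (Arb.sum R1 R2) R3).jet.E = 0 := by
  have hp' : (Arb.sum R1 (Arb.sum R2 R3)).pq.1.natAbs = 1 := by
    rw [← (SameSlope.assoc R1 R2 R3).p]
    exact hp
  obtain ⟨C, hC, s⟩ := rat_ex (.sum R2 R3) (cop_of_one hp').2
  have e1 : (Arb.sum (Arb.sum R1 R2) R3).jet = R1.jet.sum (R2.jet.sum R3.jet) :=
    Jet.sum_assoc _ _ _
  rw [e1, ((int_jet h2 h3 hq hC s).sumR R1.jet).E]
  refine two_rat' R1 C h1 hC ?_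
  rw [← (s.sumR R1).p]
  exact hp'

/-- three rational tangles, one of them integral -/
theorem three_int {R1 R2 R3 : Arb} (h1 : Rat R1) (h2 : Rat R2) (h3 : Rat R3)
    (hp : (Arb.sum (Arb.sum R1 R2) R3).pq.1.natAbs = 1)
    (hq : R1.pq.2.natAbs = 1 ∨ R2.pq.2.natAbs = 1 ∨ R3.pq.2.natAbs = 1) :
    (Arb.sum (Arb.sum R1 R2) R3).jet.E = 0 := by
  rcases hq with hq | hq | hq
  · have e : (Arb.sum (Arb.sum R1 R2) R3).jet = (Arb.sum (Arb.sum R2 R3) R1).jet := by
      show (R1.jet.sum R2.jet).sum R3.jet = (R2.jet.sum R3.jet).sum R1.jet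
      rw [Jet.sum_assoc, Jet.sum_comm R1.jet]
    rw [e]
    refine three_last h2 h3 h1 ?_ hq
    rw [← hp]
    exact ((SameSlope.sumC (.sum R2 R3) R1).trans (SameSlope.assoc R1 R2 R3).symm).p
  · have e : (Arb.sum (Arb.sum R1 R2) R3).jet = (Arb.sum (Arb.sum R1 R3) R2).jet := by
      show (R1.jet.sum R2.jet).sum R3.jet = (R1.jet.sum R3.jet).sum R2.jet
      rw [Jet.sum_assoc, Jet.sum_comm R2.jet, Jet.sum_assoc]
    rw [e]
    refine three_last h1 h3 h2 ?_ hq
    rw [← hp]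
    exact ((SameSlope.assoc R1 R3 R2).trans
      (((SameSlope.sumC R3 R2).sumR R1).trans (SameSlope.assoc R1 R2 R3).symm)).p
  · exact three_last h1 h2 h3 hp hq

/-- three rational tangles -/
theorem three_le (H3 : St_Three) {R1 R2 R3 : Arb} (h1 : Rat R1) (h2 : Rat R2) (h3 : Rat R3)
    (hp : (Arb.sum (Arb.sum R1 R2) R3).pq.1.natAbs = 1) :
    (Arb.sum (Arb.sum R1 R2) R3).jet.E ≤ 0 ∧ ((Arb.sum (Arb.sum R1 R2) R3).jet.E = 0 →
      R1.pq.2.natAbs = 1 ∨ R2.pq.2.natAbs = 1 ∨ R3.pq.2.natAbs = 1) := by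
  by_cases hq : R1.pq.2.natAbs = 1 ∨ R2.pq.2.natAbs = 1 ∨ R3.pq.2.natAbs = 1
  · exact ⟨(three_int h1 h2 h3 hp hq).le, fun _ => hq⟩
  · rw [not_or, not_or] at hq
    obtain ⟨q1, q2, q3⟩ := hq
    have hz : ∀ a b c d : ℤ, (a * b * c).natAbs = 1 ∨ (d * 0).natAbs = 1 → b.natAbs = 1 := by
      intro a b c d h
      rcases h with h | h
      · rw [Int.natAbs_mul, Int.natAbs_mul] at h
        have h5 := Nat.eq_one_of_mul_eq_one_right h
        exact Nat.eq_one_of_mul_eq_one_left h5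
      · simp at h
    have n1 : R1.pq.2 ≠ 0 := by
      intro h0
      simp only [Arb.pq] at hp
      rw [h0] at hp
      refine q2 (hz R1.pq.1 R2.pq.2 R3.pq.2 0 (Or.inl ?_))
      rw [← hp]
      congr 1
      ring
    have n2 : R2.pq.2 ≠ 0 := by
      intro h0
      simp only [Arb.pq] at hp
      rw [h0] at hp
      refine q1 (hz R2.pq.1 R1.pq.2 R3.pq.2 0 (Or.inl ?_))
      rw [← hp]
      congr 1
      ring
    have n3 : R3.pq.2 ≠ 0 := by
      intro h0
      simp only [Arb.pq] at hp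
      rw [h0] at hp
      refine q1 (hz R3.pq.1 R1.pq.2 R2.pq.2 0 (Or.inl ?_))
      rw [← hp]
      congr 1
      ring
    have h5 := H3 R1 R2 R3 h1 h2 h3 hp (by omega) (by omega) (by omega)
    exact ⟨h5.le, fun h => absurd h h5.ne⟩

/-! ### the decomposition -/

/-- the data of the decomposition of `(A + B) + R` -/
structure Dec (A B R A' B' Ch Ch' : Arb) : Prop where
  rA : Rat A'
  rB : Rat B'
  rC : Rat Ch
  rD : Rat Ch'
  sA : SameSlope A A'
  sB : SameSlope B B'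
  sC : SameSlope (.sum B R) Ch
  sD : SameSlope (.sum R A') Ch'
  pA : (Arb.sum A Ch).pq.1.natAbs = 1
  pB : (Arb.sum B Ch').pq.1.natAbs = 1
  pC : (Arb.sum A (.sum B R)).pq.1.natAbs = 1
  pD : (Arb.sum B (.sum R A')).pq.1.natAbs = 1
  p3 : (Arb.sum (.sum A' B') R).pq.1.natAbs = 1
  eq : (Arb.sum (.sum A B) R).jet.E = (Arb.sum A Ch).jet.E + (Arb.sum B Ch').jet.E +
    (Arb.sum (.sum A' B') R).jet.E - 1 / 2 * (A.jet.Om + 1) * ((Arb.sum B R).jet.Om + 1) -
    1 / 2 * (B.jet.Om + 1) * ((Arb.sum R A').jet.Om + 1)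

theorem exDec (A B R : Arb) (h : (Arb.sum (.sum A B) R).pq.1.natAbs = 1) :
    ∃ A' B' Ch Ch' : Arb, Dec A B R A' B' Ch Ch' := by
  have pC : (Arb.sum A (.sum B R)).pq.1.natAbs = 1 := by
    rw [← (SameSlope.assoc A B R).p]
    exact h
  obtain ⟨A', rA, sA⟩ := rat_ex A (cop_of_one pC).1
  obtain ⟨Ch, rC, sC⟩ := rat_ex (.sum B R) (cop_of_one pC).2
  have pD : (Arb.sum B (.sum R A')).pq.1.natAbs = 1 := by
    rw [← pC]
    refine SameSlope.p ?_
    exact (SameSlope.assoc B R A').symm.trans ((SameSlope.sumC (.sum B R) A').trans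
      (sA.symm.sumL _))
  obtain ⟨B', rB, sB⟩ := rat_ex B (cop_of_one pD).1
  obtain ⟨Ch', rD, sD⟩ := rat_ex (.sum R A') (cop_of_one pD).2
  have pA : (Arb.sum A Ch).pq.1.natAbs = 1 := by
    rw [← (sC.sumR A).p]
    exact pC
  have pB : (Arb.sum B Ch').pq.1.natAbs = 1 := by
    rw [← (sD.sumR B).p]
    exact pD
  have p3 : (Arb.sum (.sum A' B') R).pq.1.natAbs = 1 := by
    rw [← h]
    exact (((sA.sumL B).trans (sB.sumR A')).sumL R).symm.p
  refine ⟨A', B', Ch, Ch', rA, rB, rC, rD, sA, sB, sC, sD, pA, pB, pC, pD, p3, ?_⟩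
  have e1 := splice A (.sum B R) A' Ch rA rC sA sC pC
  have e2 := splice B (.sum R A') B' Ch' rB rD sB sD pD
  have e3 : (Arb.sum (.sum A B) R).jet = (Arb.sum A (.sum B R)).jet := Jet.sum_assoc _ _ _
  have e4 : (Arb.sum A' (.sum B R)).jet = (Arb.sum B (.sum R A')).jet := by
    show A'.jet.sum (B.jet.sum R.jet) = B.jet.sum (R.jet.sum A'.jet)
    rw [Jet.sum_comm, Jet.sum_assoc]
  have e5 : (Arb.sum B' (.sum R A')).jet = (Arb.sum (.sum A' B') R).jet := by
    show B'.jet.sum (R.jet.sum A'.jet) = (A'.jet.sum B'.jet).sum R.jet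
    rw [Jet.sum_comm, Jet.sum_assoc, Jet.sum_comm, Jet.sum_assoc]
  rw [e3, e1, e4, e2, e5]
  ring

/-- MAIN 1: the sign. -/
theorem main1 (H3 : St_Three) (T : Arb) : ∀ R : Arb, Rat R → (Arb.sum T R).pq.1.natAbs = 1 →
    (Arb.sum T R).jet.E ≤ 0 := by
  induction T with
  | zero =>
      intro R hR h
      exact (two_rat' .zero R Rat.zero hR h).le
  | cross p =>
      intro R hR h
      have e : (Arb.sum (.cross p) R).jet = (Arb.sum (.sum .zero (.cross p)) R).jet := by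
        show (Jet.cross p).sum R.jet = (Jet.zero.sum (Jet.cross p)).sum R.jet
        rw [Jet.zero_sum]
      rw [e]
      refine (two_rat' _ R (Rat.add _ p Rat.zero) hR ?_).le
      rw [← h]
      simp only [Arb.pq]
      congr 1
      ring
  | rot T ih =>
      intro R hR h
      have e : (Arb.sum (.rot T) R).jet.E = (Arb.sum T (.rot R)).jet.E := Jet.E_rot _ _
      rw [e]
      refine ih (.rot R) (Rat.rot _ hR) ?_
      rw [← h]
      simp only [Arb.pq]
      congr 1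
      ring
  | sum A B ihA ihB =>
      intro R hR h
      obtain ⟨A', B', Ch, Ch', D⟩ := exDec A B R h
      rw [D.eq]
      have t1 := ihA Ch D.rC D.pA
      have t2 := ihB Ch' D.rD D.pB
      have t3 := (three_le H3 D.rA D.rB hR D.p3).1
      have o1 := om_ge A (cop_of_one D.pC).1
      have o2 := om_ge (.sum B R) (cop_of_one D.pC).2
      have o3 := om_ge B (cop_of_one D.pD).1
      have o4 := om_ge (.sum R A') (cop_of_one D.pD).2
      have m1 : 0 ≤ (A.jet.Om + 1) * ((Arb.sum B R).jet.Om + 1) :=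
        mul_nonneg (by linarith) (by linarith)
      have m2 : 0 ≤ (B.jet.Om + 1) * ((Arb.sum R A').jet.Om + 1) :=
        mul_nonneg (by linarith) (by linarith)
      linarith

/-- If `E = 0` then every term of the decomposition vanishes. -/
theorem dec_zero (H3 : St_Three) {A B R A' B' Ch Ch' : Arb} (hR : Rat R)
    (D : Dec A B R A' B' Ch Ch') (hE : (Arb.sum (.sum A B) R).jet.E = 0) :
    (Arb.sum A Ch).jet.E = 0 ∧ (Arb.sum B Ch').jet.E = 0 ∧
      (Arb.sum (.sum A' B') R).jet.E = 0 ∧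
      (A.jet.Om = -1 ∨ (Arb.sum B R).jet.Om = -1) ∧
      (B.jet.Om = -1 ∨ (Arb.sum R A').jet.Om = -1) := by
  have h := D.eq
  rw [hE] at h
  have t1 := main1 H3 A Ch D.rC D.pA
  have t2 := main1 H3 B Ch' D.rD D.pB
  have t3 := (three_le H3 D.rA D.rB hR D.p3).1
  have o1 := om_ge A (cop_of_one D.pC).1
  have o2 := om_ge (.sum B R) (cop_of_one D.pC).2
  have o3 := om_ge B (cop_of_one D.pD).1
  have o4 := om_ge (.sum R A') (cop_of_one D.pD).2
  have m1 : 0 ≤ (A.jet.Om + 1) * ((Arb.sum B R).jet.Om + 1) :=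
    mul_nonneg (by linarith) (by linarith)
  have m2 : 0 ≤ (B.jet.Om + 1) * ((Arb.sum R A').jet.Om + 1) :=
    mul_nonneg (by linarith) (by linarith)
  have z1 : (A.jet.Om + 1) * ((Arb.sum B R).jet.Om + 1) = 0 := by linarith
  have z2 : (B.jet.Om + 1) * ((Arb.sum R A').jet.Om + 1) = 0 := by linarith
  refine ⟨by linarith, by linarith, by linarith, ?_, ?_⟩
  · rcases mul_eq_zero.1 z1 with h | h
    · exact Or.inl (by linarith)
    · exact Or.inr (by linarith)
  · rcases mul_eq_zero.1 z2 with h | h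
    · exact Or.inl (by linarith)
    · exact Or.inr (by linarith)

end Pool.Agent.ARB
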