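import Pool.Agent.ARB.Pair
import Pool.Agent.ARB.Jet

/-!
# ARB: from the bracket pair to the 2-jet
-/

set_option autoImplicit false

namespace Pool.Agent.ARB

open LaurentPolynomial PowerSeries

/-- coefficients of a product -/
theorem bc0 (f g : PowerSeries ℂ) : coeff 0 (f * g) = coeff 0 f * coeff 0 g := by
  rw [coeff_mul]
  simp [Finset.Nat.antidiagonal_succ]

theorem bc1 (f g : PowerSeries ℂ) :
    coeff 1 (f * g) = coeff 0 f * coeff 1 g + coeff 1 f * coeff 0 g := by
  rw [coeff_mul]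
  simp [Finset.Nat.antidiagonal_succ]

theorem bc2 (f g : PowerSeries ℂ) :
    coeff 2 (f * g) = coeff 0 f * coeff 2 g + coeff 1 f * coeff 1 g + coeff 2 f * coeff 0 g := by
  rw [coeff_mul]
  simp [Finset.Nat.antidiagonal_succ]
  ring

/-- the 2-jet of the evaluation point -/
structure EvPt where
  z : ℂ
  a : (PowerSeries ℂ)ˣ
  hz : z ^ 2 = Complex.I
  a0 : coeff 0 (a : PowerSeries ℂ) = z
  a1 : coeff 1 (a : PowerSeries ℂ) = -z / 4
  a2 : coeff 2 (a : PowerSeries ℂ) = z / 32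

theorem exEvPt : Nonempty EvPt := by
  obtain ⟨z, hz⟩ := IsAlgClosed.exists_pow_nat_eq Complex.I (n := 2) (by norm_num)
  have hz0 : z ≠ 0 := by
    rintro rfl
    rw [zero_pow (by norm_num)] at hz
    exact Complex.I_ne_zero hz.symm
  let f : PowerSeries ℂ := PowerSeries.mk fun n => if n = 0 then z else if n = 1 then -z / 4 else
    if n = 2 then z / 32 else 0
  have hf : IsUnit f := by
    rw [PowerSeries.isUnit_iff_constantCoeff]
    rw [← PowerSeries.coeff_zero_eq_constantCoeff_apply, PowerSeries.coeff_mk]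
    simpa using hz0
  obtain ⟨a, ha⟩ := hf
  exact ⟨⟨z, a, hz, by rw [ha, PowerSeries.coeff_mk]; simp, by rw [ha, PowerSeries.coeff_mk]; simp,
    by rw [ha, PowerSeries.coeff_mk]; simp⟩⟩

namespace EvPt

variable (P : EvPt)

theorem z0 : P.z ≠ 0 := by
  intro h
  have := P.hz
  rw [h, zero_pow (by norm_num)] at this
  exact Complex.I_ne_zero this.symm

theorem z4 : P.z ^ 4 = -1 := by
  have : P.z ^ 4 = (P.z ^ 2) ^ 2 := by ring
  rw [this, P.hz, Complex.I_sq]

theorem b0 : coeff 0 ((P.a⁻¹ : (PowerSeries ℂ)ˣ) : PowerSeries ℂ) = P.z⁻¹ := by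
  have h : (P.a : PowerSeries ℂ) * ((P.a⁻¹ : (PowerSeries ℂ)ˣ) : PowerSeries ℂ) = 1 :=
    P.a.mul_inv
  have h0 := congrArg (coeff 0) h
  rw [bc0, P.a0] at h0
  have e1 : coeff 0 (1 : PowerSeries ℂ) = 1 := by simp
  rw [e1] at h0
  exact eq_inv_of_mul_eq_one_right h0

theorem b1 : coeff 1 ((P.a⁻¹ : (PowerSeries ℂ)ˣ) : PowerSeries ℂ) = P.z⁻¹ / 4 := by
  have h : (P.a : PowerSeries ℂ) * ((P.a⁻¹ : (PowerSeries ℂ)ˣ) : PowerSeries ℂ) = 1 :=
    P.a.mul_inv
  have h1 := congrArg (coeff 1) h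
  rw [bc1, P.a0, P.a1, P.b0] at h1
  have hz := P.z0
  have e1 : coeff 1 (1 : PowerSeries ℂ) = 0 := by simp [PowerSeries.coeff_one]
  rw [e1] at h1
  have : P.z * (coeff 1 ((P.a⁻¹ : (PowerSeries ℂ)ˣ) : PowerSeries ℂ) - P.z⁻¹ / 4) = 0 := by
    linear_combination h1
  rcases mul_eq_zero.1 this with h2 | h2
  · exact absurd h2 hz
  · exact sub_eq_zero.1 h2

theorem b2 : coeff 2 ((P.a⁻¹ : (PowerSeries ℂ)ˣ) : PowerSeries ℂ) = P.z⁻¹ / 32 := by
  have h : (P.a : PowerSeries ℂ) * ((P.a⁻¹ : (PowerSeries ℂ)ˣ) : PowerSeries ℂ) = 1 :=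
    P.a.mul_inv
  have h2 := congrArg (coeff 2) h
  rw [bc2, P.a0, P.a1, P.a2, P.b0, P.b1] at h2
  have hz := P.z0
  have e1 : coeff 2 (1 : PowerSeries ℂ) = 0 := by simp [PowerSeries.coeff_one]
  rw [e1] at h2
  have : P.z * (coeff 2 ((P.a⁻¹ : (PowerSeries ℂ)ˣ) : PowerSeries ℂ) - P.z⁻¹ / 32) = 0 := by
    linear_combination h2
  rcases mul_eq_zero.1 this with h3 | h3
  · exact absurd h3 hz
  · exact sub_eq_zero.1 h3

/-- the evaluation -/
noncomputable def ev : LaurentPolynomial ℤ →+* PowerSeries ℂ :=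
  LaurentPolynomial.eval₂ (Int.castRingHom (PowerSeries ℂ)) P.a

theorem ev_T (n : ℤ) : P.ev (T n) = ((P.a ^ n : (PowerSeries ℂ)ˣ) : PowerSeries ℂ) := by
  simp [ev]

theorem ev_T1 : P.ev (T 1) = (P.a : PowerSeries ℂ) := by
  rw [P.ev_T, zpow_one]

theorem ev_Tn1 : P.ev (T (-1)) = ((P.a⁻¹ : (PowerSeries ℂ)ˣ) : PowerSeries ℂ) := by
  rw [P.ev_T, zpow_neg_one]

theorem zi2 : P.z⁻¹ ^ 2 = -Complex.I := by
  rw [inv_pow, P.hz, Complex.inv_I]

theorem loop_eq : P.ev Pool.Agent.Helper2.loopVal =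
    -((P.a : PowerSeries ℂ) * (P.a : PowerSeries ℂ) +
      ((P.a⁻¹ : (PowerSeries ℂ)ˣ) : PowerSeries ℂ) *
        ((P.a⁻¹ : (PowerSeries ℂ)ˣ) : PowerSeries ℂ)) := by
  have e2 : (T 2 : LaurentPolynomial ℤ) = T 1 * T 1 := by rw [← T_add]; norm_num
  have e3 : (T (-2) : LaurentPolynomial ℤ) = T (-1) * T (-1) := by rw [← T_add]; norm_num
  rw [Pool.Agent.Helper2.loopVal, e2, e3, map_neg, map_add, map_mul, map_mul, P.ev_T1, P.ev_Tn1]

theorem l0 : coeff 0 (P.ev Pool.Agent.Helper2.loopVal) = 0 := by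
  rw [P.loop_eq, map_neg, map_add, bc0, bc0, P.a0, P.b0]
  linear_combination -P.hz - P.zi2

theorem l1 : coeff 1 (P.ev Pool.Agent.Helper2.loopVal) = Complex.I := by
  rw [P.loop_eq, map_neg, map_add, bc1, bc1, P.a0, P.b0, P.a1, P.b1]
  linear_combination (1 / 2) * P.hz - (1 / 2) * P.zi2

theorem l2 : coeff 2 (P.ev Pool.Agent.Helper2.loopVal) = 0 := by
  rw [P.loop_eq, map_neg, map_add, bc2, bc2, P.a0, P.b0, P.a1, P.b1, P.a2, P.b2]
  linear_combination -(1 / 8) * P.hz - (1 / 8) * P.zi2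

end EvPt

/-- The evaluated pair is a unit times a real pair with the given invariants. -/
theorem pair_jet (P : EvPt) (S : Arb) : ∃ k g0 g1 g2 b0 b1 b2 : ℂ, k ^ 8 = 1 ∧
    coeff 0 (P.ev S.pair.1) = -Complex.I * k * g0 ∧ coeff 1 (P.ev S.pair.1) = -Complex.I * k * g1 ∧
    coeff 2 (P.ev S.pair.1) = -Complex.I * k * g2 ∧
    coeff 0 (P.ev S.pair.2) = k * b0 ∧ coeff 1 (P.ev S.pair.2) = k * b1 ∧
    coeff 2 (P.ev S.pair.2) = k * b2 ∧
    (S.jet.p : ℂ) = g0 ∧ (S.jet.q : ℂ) = b0 ∧ (S.jet.w : ℂ) = g1 * b0 - g0 * b1 ∧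
    (S.jet.G : ℂ) = -(2 * g0 * g2 - g1 ^ 2) ∧ (S.jet.F : ℂ) = -(g2 * b0 - g1 * b1 + g0 * b2) ∧
    (S.jet.H : ℂ) = -(2 * b0 * b2 - b1 ^ 2) := by
  have hI := Complex.I_sq
  have hz := P.hz
  have hzi := P.zi2
  have hz0 := P.z0
  have hz4 := P.z4
  induction S with
  | zero =>
      refine ⟨1, 0, 0, 0, 1, 0, 0, by norm_num, ?_, ?_, ?_, ?_, ?_, ?_, ?_⟩ <;>
        simp [Arb.pair, Arb.jet, Jet.zero, PowerSeries.coeff_one]
  | cross p =>
      cases p with
      | true =>
          refine ⟨P.z, 1, 1 / 4, 1 / 32, 1, -1 / 4, 1 / 32, ?_, ?_, ?_, ?_, ?_, ?_, ?_, ?_, ?_, ?_,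
            ?_, ?_, ?_⟩
          · have : P.z ^ 8 = (P.z ^ 4) ^ 2 := by ring
            rw [this, hz4]; norm_num
          · simp only [Arb.pair, if_true]
            rw [P.ev_Tn1, P.b0]
            field_simp
            linear_combination Complex.I * hz + hI
          · simp only [Arb.pair, if_true]
            rw [P.ev_Tn1, P.b1]
            field_simp
            linear_combination Complex.I * hz + hI
          · simp only [Arb.pair, if_true]
            rw [P.ev_Tn1, P.b2]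
            field_simp
            linear_combination Complex.I * hz + hI
          · simp only [Arb.pair, if_true]
            rw [P.ev_T1, P.a0]
            ring
          · simp only [Arb.pair, if_true]
            rw [P.ev_T1, P.a1]
            ring
          · simp only [Arb.pair, if_true]
            rw [P.ev_T1, P.a2]
            ring
          · simp [Arb.jet, Jet.cross]
          · simp [Arb.jet, Jet.cross]
          · simp [Arb.jet, Jet.cross]; norm_num
          · simp [Arb.jet, Jet.cross]; norm_num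
          · simp [Arb.jet, Jet.cross]; norm_num
          · simp [Arb.jet, Jet.cross]; norm_num
      | false =>
          refine ⟨P.z⁻¹, -1, 1 / 4, -1 / 32, 1, 1 / 4, 1 / 32, ?_, ?_, ?_, ?_, ?_, ?_, ?_, ?_, ?_,
            ?_, ?_, ?_, ?_⟩
          · have : P.z⁻¹ ^ 8 = (P.z⁻¹ ^ 2) ^ 4 := by ring
            rw [this, hzi]
            have : (-Complex.I) ^ 4 = (Complex.I ^ 2) ^ 2 := by ring
            rw [this, hI]; norm_num
          · simp only [Arb.pair]
            rw [if_neg (by simp), P.ev_T1, P.a0]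
            field_simp
            linear_combination hz
          · simp only [Arb.pair]
            rw [if_neg (by simp), P.ev_T1, P.a1]
            field_simp
            linear_combination -hz
          · simp only [Arb.pair]
            rw [if_neg (by simp), P.ev_T1, P.a2]
            field_simp
            linear_combination hz
          · simp only [Arb.pair]
            rw [if_neg (by simp), P.ev_Tn1, P.b0]
            ring
          · simp only [Arb.pair]
            rw [if_neg (by simp), P.ev_Tn1, P.b1]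
            ring
          · simp only [Arb.pair]
            rw [if_neg (by simp), P.ev_Tn1, P.b2]
            ring
          · simp [Arb.jet, Jet.cross]
          · simp [Arb.jet, Jet.cross]
          · simp [Arb.jet, Jet.cross]; norm_num
          · simp [Arb.jet, Jet.cross]; norm_num
          · simp [Arb.jet, Jet.cross]; norm_num
          · simp [Arb.jet, Jet.cross]; norm_num
  | sum S T ihS ihT =>
      obtain ⟨k, g0, g1, g2, b0, b1, b2, hk, hg0, hg1, hg2, hb0, hb1, hb2, hp, hq, hw, hG, hF,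
        hH⟩ := ihS
      obtain ⟨k', g0', g1', g2', b0', b1', b2', hk', hg0', hg1', hg2', hb0', hb1', hb2', hp', hq',
        hw', hG', hF', hH'⟩ := ihT
      refine ⟨k * k', g0 * b0' + b0 * g0', g1 * b0' + g0 * b1' + b1 * g0' + b0 * g1' + g0 * g0',
        g2 * b0' + g1 * b1' + g0 * b2' + b2 * g0' + b1 * g1' + b0 * g2' + g1 * g0' + g0 * g1',
        b0 * b0', b0 * b1' + b1 * b0', b0 * b2' + b1 * b1' + b2 * b0', ?_, ?_, ?_, ?_, ?_, ?_, ?_,
        ?_, ?_, ?_, ?_, ?_, ?_⟩
      · rw [mul_pow, hk, hk', one_mul]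
      · simp only [Arb.pair, map_add, map_mul, bc0, bc1, bc2, hg0, hg1, hg2, hb0, hb1, hb2, hg0',
          hg1', hg2', hb0', hb1', hb2', P.l0, P.l1, P.l2]
        ring
      · simp only [Arb.pair, map_add, map_mul, bc0, bc1, bc2, hg0, hg1, hg2, hb0, hb1, hb2, hg0',
          hg1', hg2', hb0', hb1', hb2', P.l0, P.l1, P.l2]
        linear_combination Complex.I * k * k' * g0 * g0' * hI
      · simp only [Arb.pair, map_add, map_mul, bc0, bc1, bc2, hg0, hg1, hg2, hb0, hb1, hb2, hg0',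
          hg1', hg2', hb0', hb1', hb2', P.l0, P.l1, P.l2]
        linear_combination Complex.I * k * k' * (g1 * g0' + g0 * g1') * hI
      · simp only [Arb.pair, map_add, map_mul, bc0, bc1, bc2, hg0, hg1, hg2, hb0, hb1, hb2, hg0',
          hg1', hg2', hb0', hb1', hb2', P.l0, P.l1, P.l2]
        ring
      · simp only [Arb.pair, map_add, map_mul, bc0, bc1, bc2, hg0, hg1, hg2, hb0, hb1, hb2, hg0',
          hg1', hg2', hb0', hb1', hb2', P.l0, P.l1, P.l2]
        ring
      · simp only [Arb.pair, map_add, map_mul, bc0, bc1, bc2, hg0, hg1, hg2, hb0, hb1, hb2, hg0',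
          hg1', hg2', hb0', hb1', hb2', P.l0, P.l1, P.l2]
        ring
      · simp only [Arb.jet, Jet.sum, Jet.Q]
        push_cast
        rw [hp, hq, hp', hq']
      · simp only [Arb.jet, Jet.sum, Jet.Q]
        push_cast
        rw [hq, hq']
      · simp only [Arb.jet, Jet.sum, Jet.Q]
        push_cast
        rw [hp, hq, hw, hp', hq', hw']
        ring
      · simp only [Arb.jet, Jet.sum, Jet.Q]
        push_cast
        rw [hp, hq, hw, hG, hF, hH, hp', hq', hw', hG', hF', hH']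
        ring
      · simp only [Arb.jet, Jet.sum, Jet.Q]
        push_cast
        rw [hp, hq, hw, hF, hH, hp', hq', hw', hF', hH']
        ring
      · simp only [Arb.jet, Jet.sum, Jet.Q]
        push_cast
        rw [hq, hH, hq', hH']
        ring
  | rot T ih =>
      obtain ⟨k, g0, g1, g2, b0, b1, b2, hk, hg0, hg1, hg2, hb0, hb1, hb2, hp, hq, hw, hG, hF,
        hH⟩ := ih
      refine ⟨Complex.I * k, b0, b1, b2, -g0, -g1, -g2, ?_, ?_, ?_, ?_, ?_, ?_, ?_, ?_, ?_, ?_,
        ?_, ?_, ?_⟩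
      · rw [mul_pow, hk]
        have : Complex.I ^ 8 = (Complex.I ^ 2) ^ 4 := by ring
        rw [this, hI]; norm_num
      · simp only [Arb.pair, hb0]
        linear_combination k * b0 * hI
      · simp only [Arb.pair, hb1]
        linear_combination k * b1 * hI
      · simp only [Arb.pair, hb2]
        linear_combination k * b2 * hI
      · simp only [Arb.pair, hg0]
        ring
      · simp only [Arb.pair, hg1]
        ring
      · simp only [Arb.pair, hg2]
        ring
      · simp only [Arb.jet, Jet.rot]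
        exact hq
      · simp only [Arb.jet, Jet.rot]
        push_cast
        rw [hp]
      · simp only [Arb.jet, Jet.rot]
        rw [hw]
        ring
      · simp only [Arb.jet, Jet.rot]
        rw [hH]
      · simp only [Arb.jet, Jet.rot]
        push_cast
        rw [hF]
        ring
      · simp only [Arb.jet, Jet.rot]
        rw [hG]
        ring

/-- the Hirota square of a power of the evaluation point vanishes -/
theorem zpow_jet (P : EvPt) (n : ℤ) :
    coeff 0 ((P.a ^ n : (PowerSeries ℂ)ˣ) : PowerSeries ℂ) ^ 8 = 1 ∧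
    2 * coeff 0 ((P.a ^ n : (PowerSeries ℂ)ˣ) : PowerSeries ℂ) *
      coeff 2 ((P.a ^ n : (PowerSeries ℂ)ˣ) : PowerSeries ℂ) =
      coeff 1 ((P.a ^ n : (PowerSeries ℂ)ˣ) : PowerSeries ℂ) ^ 2 := by
  have hz4 := P.z4
  have hI := Complex.I_sq
  induction n using Int.induction_on with
  | zero => simp [PowerSeries.coeff_one]
  | succ i ih =>
      rw [zpow_add_one, Units.val_mul, bc0, bc1, bc2, P.a0, P.a1, P.a2]
      obtain ⟨h1, h2⟩ := ih
      refine ⟨?_, ?_⟩
      · rw [mul_pow, h1, one_mul]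
        have : P.z ^ 8 = (P.z ^ 4) ^ 2 := by ring
        rw [this, hz4]; norm_num
      · linear_combination P.z ^ 2 * h2
  | pred i ih =>
      rw [zpow_sub_one, Units.val_mul, bc0, bc1, bc2, P.b0, P.b1, P.b2]
      obtain ⟨h1, h2⟩ := ih
      refine ⟨?_, ?_⟩
      · rw [mul_pow, h1, one_mul]
        have : P.z⁻¹ ^ 8 = (P.z⁻¹ ^ 2) ^ 4 := by ring
        rw [this, P.zi2]
        have : (-Complex.I) ^ 4 = (Complex.I ^ 2) ^ 2 := by ring
        rw [this, hI]; norm_num
      · linear_combination P.z⁻¹ ^ 2 * h2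

/-- The bridge, in terms of coefficients. -/
theorem bridge_coeff (P : EvPt) (S : Arb) (e : ℤ) (he : e = 1 ∨ e = -1) (n : ℤ)
    (c0 : coeff 0 (P.ev (S.pair.1 + Pool.Agent.Helper2.loopVal * S.pair.2)) =
      coeff 0 (P.ev (LaurentPolynomial.C e * T n)))
    (c1 : coeff 1 (P.ev (S.pair.1 + Pool.Agent.Helper2.loopVal * S.pair.2)) =
      coeff 1 (P.ev (LaurentPolynomial.C e * T n)))
    (c2 : coeff 2 (P.ev (S.pair.1 + Pool.Agent.Helper2.loopVal * S.pair.2)) =
      coeff 2 (P.ev (LaurentPolynomial.C e * T n))) :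
    (S.jet.p = 1 ∨ S.jet.p = -1) ∧ S.jet.E = 0 := by
  obtain ⟨k, g0, g1, g2, b0, b1, b2, hk, hg0, hg1, hg2, hb0, hb1, hb2, hp, hq, hw, hG, hF,
    hH⟩ := pair_jet P S
  obtain ⟨h8, hh⟩ := zpow_jet P n
  have hI := Complex.I_sq
  have hk0 : k ≠ 0 := by
    rintro rfl
    norm_num at hk
  have hC : P.ev (LaurentPolynomial.C e) = ((e : ℤ) : PowerSeries ℂ) := by
    simp [EvPt.ev]
  rw [map_add, map_mul, map_mul, P.ev_T, hC] at c0 c1 c2
  set m := ((P.a ^ n : (PowerSeries ℂ)ˣ) : PowerSeries ℂ) with hm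
  have hee : ((e : ℤ) : ℂ) ^ 2 = 1 := by
    rcases he with h | h <;> rw [h] <;> norm_num
  have hce : ∀ i : ℕ, coeff i (((e : ℤ) : PowerSeries ℂ) * m) = (e : ℂ) * coeff i m := by
    intro i
    have : ((e : ℤ) : PowerSeries ℂ) = PowerSeries.C (e : ℂ) := by simp
    rw [this, PowerSeries.coeff_C_mul]
  rw [map_add, bc0, P.l0, hg0, hb0, hce] at c0
  rw [map_add, bc1, P.l0, P.l1, hg1, hb0, hb1, hce] at c1
  rw [map_add, bc2, P.l0, P.l1, P.l2, hg2, hb0, hb1, hb2, hce] at c2
  constructor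
  · have h1 : g0 ^ 8 = 1 := by
      have : (-Complex.I * k * g0 + 0 * (k * b0)) ^ 8 = (((e : ℤ) : ℂ) * coeff 0 m) ^ 8 := by
        rw [c0]
      have e8 : ((e : ℤ) : ℂ) ^ 8 = 1 := by
        have : ((e : ℤ) : ℂ) ^ 8 = (((e : ℤ) : ℂ) ^ 2) ^ 4 := by ring
        rw [this, hee]; norm_num
      have i8 : Complex.I ^ 8 = 1 := by
        have : Complex.I ^ 8 = (Complex.I ^ 2) ^ 4 := by ring
        rw [this, hI]; norm_num
      have t1 : (-Complex.I * k * g0 + 0 * (k * b0)) ^ 8 = Complex.I ^ 8 * k ^ 8 * g0 ^ 8 := by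
        ring
      rw [t1, i8, hk, mul_pow, e8, h8] at this
      simpa using this
    rw [← hp] at h1
    have h2 : S.jet.p ^ 8 = 1 := by exact_mod_cast h1
    have h3 : S.jet.p ^ 2 = 1 := by
      have : (S.jet.p ^ 2) ^ 4 = 1 := by rw [← pow_mul]; exact h2
      exact (pow_eq_one_iff_of_nonneg (sq_nonneg _) (by norm_num)).1 this
    have h4 : (S.jet.p - 1) * (S.jet.p + 1) = 0 := by linear_combination h3
    rcases mul_eq_zero.1 h4 with h | h
    · left; linear_combination h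
    · right; linear_combination h
  · have key : k ^ 2 * (2 * (g1 * b0 - g0 * b1) - b0 ^ 2 + (2 * g0 * g2 - g1 ^ 2)) = 0 := by
      linear_combination (-2 * ((-Complex.I * k * g2 + Complex.I * k * b1))) * c0 +
        ((-Complex.I * k * g1 + Complex.I * k * b0) + e * coeff 1 m) * c1 -
        2 * e * coeff 0 m * c2 - (e : ℂ) ^ 2 * hh +
        k ^ 2 * (2 * (g1 * b0 - g0 * b1) - b0 ^ 2 + (2 * g0 * g2 - g1 ^ 2)) * hI
    have : ((S.jet.E : ℚ) : ℂ) = 0 := by
      rw [Jet.E]
      push_cast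
      rw [hw, hq, hG]
      have hk2 : k ^ 2 ≠ 0 := pow_ne_zero 2 hk0
      rcases mul_eq_zero.1 key with h | h
      · exact absurd h hk2
      · linear_combination h
    exact_mod_cast this

/-- THE BRIDGE: if the bracket of the numerator closure is `± A ^ n` then `p = ± 1` and `E = 0`. -/
theorem bridge (S : Arb) (e : ℤ) (he : e = 1 ∨ e = -1) (n : ℤ)
    (h : S.pair.1 + Pool.Agent.Helper2.loopVal * S.pair.2 = LaurentPolynomial.C e * T n) :
    (S.jet.p = 1 ∨ S.jet.p = -1) ∧ S.jet.E = 0 := by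
  obtain ⟨P⟩ := exEvPt
  exact bridge_coeff P S e he n (by rw [h]) (by rw [h]) (by rw [h])

/-- the bridge for units -/
theorem bridge_unit (S : Arb) (h : IsU (S.pair.1 + Pool.Agent.Helper2.loopVal * S.pair.2)) :
    (S.jet.p = 1 ∨ S.jet.p = -1) ∧ S.jet.E = 0 := by
  obtain ⟨k, h | h⟩ := h
  · exact bridge S 1 (Or.inl rfl) k (by rw [h]; simp)
  · exact bridge S (-1) (Or.inr rfl) k (by rw [h]; simp)

theorem EvPt.ev_fac (P : EvPt) : ∃ g : PowerSeries ℂ, P.ev (T 4 + 1) = PowerSeries.X * g := by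
  have h : coeff 0 (P.ev (T 4 + 1)) = 0 := by
    have e4 : (T 4 : LaurentPolynomial ℤ) = T 1 * T 1 * (T 1 * T 1) := by
      rw [← T_add, ← T_add]; norm_num
    rw [e4, map_add, map_one, map_mul, map_mul, P.ev_T1, map_add, bc0, bc0, P.a0]
    have : coeff 0 (1 : PowerSeries ℂ) = 1 := by simp
    rw [this]
    linear_combination P.z4
  have h2 : (PowerSeries.X : PowerSeries ℂ) ∣ P.ev (T 4 + 1) := by
    rw [PowerSeries.X_dvd_iff, ← PowerSeries.coeff_zero_eq_constantCoeff_apply]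
    exact h
  exact h2

/-- the bridge for units modulo `(A ^ 4 + 1) ^ 3` -/
theorem bridge_dvd (S : Arb) (u : LaurentPolynomial ℤ) (hu : IsU u)
    (h : (T 4 + 1 : LaurentPolynomial ℤ) ^ 3 ∣
      S.pair.1 + Pool.Agent.Helper2.loopVal * S.pair.2 - u) :
    (S.jet.p = 1 ∨ S.jet.p = -1) ∧ S.jet.E = 0 := by
  obtain ⟨P⟩ := exEvPt
  obtain ⟨r, hr⟩ := h
  obtain ⟨g, hg⟩ := P.ev_fac
  have e0 : P.ev (S.pair.1 + Pool.Agent.Helper2.loopVal * S.pair.2) =
      P.ev u + PowerSeries.X ^ 3 * (g ^ 3 * P.ev r) := by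
    have : S.pair.1 + Pool.Agent.Helper2.loopVal * S.pair.2 = u + (T 4 + 1) ^ 3 * r := by
      rw [← hr]; ring
    rw [this, map_add, map_mul, map_pow, hg]
    ring
  have hc : ∀ i : ℕ, i < 3 → coeff i (P.ev (S.pair.1 + Pool.Agent.Helper2.loopVal * S.pair.2)) =
      coeff i (P.ev u) := by
    intro i hi
    rw [e0, map_add, PowerSeries.coeff_X_pow_mul', if_neg (by omega), add_zero]
  obtain ⟨k, hk | hk⟩ := hu
  · have hu' : u = LaurentPolynomial.C 1 * T k := by rw [hk]; simp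
    rw [hu'] at hc
    exact bridge_coeff P S 1 (Or.inl rfl) k (hc 0 (by norm_num)) (hc 1 (by norm_num))
      (hc 2 (by norm_num))
  · have hu' : u = LaurentPolynomial.C (-1) * T k := by rw [hk]; simp
    rw [hu'] at hc
    exact bridge_coeff P S (-1) (Or.inr rfl) k (hc 0 (by norm_num)) (hc 1 (by norm_num))
      (hc 2 (by norm_num))

end Pool.Agent.ARB
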