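import Pool.Agent.ARB.Pair

/-!
# ARB: the units `± A ^ k`

`IsU` and its lemmas are in `Pool.Agent.ARB.Pair`.
-/
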