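import Pool.Agent.ARB.Basic
import Pool.Agent.ARB.V.St
import Pool.Agent.ARB.Pair
import Pool.Agent.ARB.Unit
import Pool.Agent.Helper2.Models

/-!
# ARB: statements about isotopies of words and about the bracket
-/

set_option autoImplicit false

namespace Pool.Agent.ARB

open LaurentPolynomial Pool.Agent.Helper2

/-! ### words -/

/-- the kind of a piece after reflection in a horizontal line -/
def Kind.flip : Kind → Kind
  | .U => .N
  | .N => .U
  | .X p => .X (!p)

/-- reflection in a horizontal line -/
def rev : Word → Word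
  | [] => []
  | s :: w => rev w ++ [⟨s.k.flip, s.i⟩]

/-- reflection of isotopies -/
def St_Rev : Prop :=
  (∀ u v : Word, rev (u ++ v) = rev v ++ rev u) ∧ (∀ w : Word, rev (rev w) = w) ∧
  (∀ (j : ℕ) (w : Word), rev (sh j w) = sh j (rev w)) ∧
  (∀ (w : Word) (n m : ℕ), Ok w n m → Ok (rev w) m n) ∧
  ∀ (w w' : Word) (n m : ℕ), Ok w n m → Iso n w w' → Iso m (rev w) (rev w')

/-- nested cups -/
def cups : ℕ → Word
  | 0 => []
  | n + 1 => pU 0 :: sh 1 (cups n)

/-- nested caps -/
def caps : ℕ → Word
  | 0 => []
  | n + 1 => sh 1 (caps n) ++ [pN 0]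

/-- the kind of a piece after rotation by 180 degrees -/
def Kind.opp : Kind → Kind
  | .U => .N
  | .N => .U
  | .X p => .X p

/-- rotation by 180 degrees of a word on `n` strands -/
def rho : ℕ → Word → Word
  | _, [] => []
  | n, s :: w => rho (n - s.k.inn + s.k.out) w ++ [⟨s.k.opp, n - s.i - s.k.inn⟩]

/-- sliding a word around nested caps or cups -/
def St_Dual : Prop :=
  (∀ (w : Word) (n m : ℕ), Ok w n m → Ok (rho n w) m n) ∧
  (∀ (w : Word) (n m : ℕ), Ok w n m → rho m (rho n w) = w) ∧
  (∀ (w : Word) (n m : ℕ), Ok w n m → Iso (n + m) (w ++ caps m) (sh n (rho n w) ++ caps n)) ∧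
  (∀ (w : Word) (n m : ℕ), Ok w n m → Iso 0 (cups n ++ sh n w) (cups m ++ rho n w))

/-! ### the bracket in a model -/

/-- Laurent polynomials -/
abbrev LP := LaurentPolynomial ℤ

variable {V : Type} [AddCommGroup V] [Module LP V]

/-- the operator of a crossing in a model of the Temperley-Lieb relations -/
noncomputable def crossOp (M : Model LP V) (i : ℕ) (p : Bool) : V →ₗ[LP] V :=
  (T (if p then 1 else -1) : LP) • LinearMap.id +
    (T (if p then -1 else 1) : LP) • (M.cup i ∘ₗ M.cap i)

/-- the operator of a piece -/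
noncomputable def opP (M : Model LP V) (s : Piece) : V →ₗ[LP] V :=
  match s.k with
  | .U => M.cup s.i
  | .N => M.cap s.i
  | .X p => crossOp M s.i p

/-- the operator of a word -/
noncomputable def runW (M : Model LP V) : Word → V →ₗ[LP] V
  | [] => LinearMap.id
  | s :: w => runW M w ∘ₗ opP M s

/-- the models used for the bracket -/
structure Good (M : Model LP V) : Prop where
  del : M.δ = loopVal
  add : ∀ (n : ℕ) (x y : V), M.Supp n x → M.Supp n y → M.Supp n (x + y)
  smul : ∀ (n : ℕ) (c : LP) (x : V), M.Supp n x → M.Supp n (c • x)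
  cupcup : ∀ (n i k : ℕ) (x : V), i + k ≤ n → M.Supp n x →
    M.cup (i + 2 + k) (M.cup i x) = M.cup i (M.cup (i + k) x)
  capcap : ∀ (n i k : ℕ) (x : V), i + k + 4 ≤ n → M.Supp n x →
    M.cap (i + k) (M.cap i x) = M.cap i (M.cap (i + 2 + k) x)

/-- the operators are invariant under isotopies, up to units -/
def St_Inv : Prop := ∀ (V : Type) [AddCommGroup V] [Module LP V] (M : Model LP V), Good M →
  ∀ (n m : ℕ) (w w' : Word), Ok w n m → Iso n w w' → ∃ u : LP, IsU u ∧
    ∀ x : V, M.Supp n x → runW M w x = u • runW M w' x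

/-- the operator of a diagram computes the bracket -/
def St_BrRun : Prop := ∀ (V : Type) [AddCommGroup V] [Module LP V] (M : Model LP V), Good M →
  ∀ D : List Slice, D ≠ [] → Helper2.Ok D 0 0 →
    runW M (forget D) M.init = (loopVal * bracket D) • M.init

/-- There is a good model in which the initial vector is torsion free. -/
def St_Vert : Prop := ∃ (V : Type) (_ : AddCommGroup V) (_ : Module LP V) (M : Model LP V),
  Good M ∧ ∀ c c' : LP, c • M.init = c' • M.init → c = c'

/-- the operator of an arborescent tangle -/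
def St_PairRun : Prop := ∀ (V : Type) [AddCommGroup V] [Module LP V] (M : Model LP V), Good M →
  (∀ (R : Arb) (j n : ℕ) (x : V), j + 2 ≤ n → M.Supp n x →
    runW M (sh j R.word) x = R.pair.2 • x + R.pair.1 • M.cup j (M.cap j x)) ∧
  ∀ R : Arb, runW M (NW R.word) M.init =
    (loopVal * (R.pair.1 + loopVal * R.pair.2)) • M.init

/-- The bracket of a diagram which is isotopic to the numerator closure of an arborescent
tangle. -/
def St_BrArb : Prop := ∀ (D : List Slice) (R : Arb), Helper2.Ok D 0 0 →
  Iso 0 (forget D) (NW R.word) → ∃ u : LP, IsU u ∧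
    bracket D = u * (R.pair.1 + loopVal * R.pair.2)

/-- the same if the f-polynomial is trivial -/
def St_FArb : Prop := ∀ (D : List Slice) (R : Arb), IsDiagram D → Iso 0 (forget D) (NW R.word) →
  fPoly D = 1 → IsU (R.pair.1 + loopVal * R.pair.2)

end Pool.Agent.ARB
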