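import Pool.Agent.ARB.TopSts2
import Pool.Agent.Helper2.StateSum

/-!
# ARB, module BrRun: the operator of a diagram computes the bracket

The statement is proved for nonempty diagrams (for the empty diagram the bracket is `1` by the
convention in the definition, and the operator is the identity).
-/

set_option autoImplicit false
set_option linter.unusedSectionVars false

namespace Pool.Agent.ARB

open LaurentPolynomial Pool.Agent.Helper2

section

variable {V : Type} [AddCommGroup V] [Module LP V]

theorem BrRun_ops (M : Model LP V) (w : List Slice) : ∀ ψ : V,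
    (M.ops (fun i p => crossOp M i p)).run w ψ = runW M (forget w) ψ := by
  induction w with
  | nil => intro ψ; rfl
  | cons s w ih => intro ψ; cases s <;> exact ih _

theorem BrRun_sum {β : Type} (L : List β) (c : LP) (f : β → V) :
    (L.map fun s => c • f s).sum = c • (L.map f).sum := by
  induction L with
  | nil => simp
  | cons x L ih => simp [ih]

theorem BrRun_add {β : Type} (L : List β) (f g : β → V) :
    (L.map fun s => f s + g s).sum = (L.map f).sum + (L.map g).sum := by
  induction L with
  | nil => simp
  | cons x L ih =>
    rw [List.map_cons, List.sum_cons, ih, List.map_cons, List.sum_cons, List.map_cons,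
      List.sum_cons]
    abel

theorem BrRun_smul {β : Type} (L : List β) (f : β → LP) (x : V) :
    (L.map fun s => f s • x).sum = (L.map f).sum • x := by
  induction L with
  | nil => simp
  | cons y L ih => simp [ih, add_smul]

theorem BrRun_two {β γ : Type} (L : List β) (a b : β → γ) (f : γ → V) :
    ((L.flatMap fun s => [a s, b s]).map f).sum = (L.map fun s => f (a s) + f (b s)).sum := by
  induction L with
  | nil => simp
  | cons x L ih => simp [ih, add_assoc]

/-- expansion in states -/
theorem BrRun_states (M : Model LP V) (w : List Slice) : ∀ (n m : ℕ) (ψ : V),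
    Helper2.Ok w n m → M.Supp n ψ → runW M (forget w) ψ =
      ((states w).map fun s => (T s.1 : LP) • runW M (forget s.2) ψ).sum := by
  induction w with
  | nil =>
    intro n m ψ _ _
    simp [states, forget, runW]
  | cons s w ih =>
    intro n m ψ h hψ
    cases s with
    | cup i u =>
      have h1 := ih _ _ _ h.2 (M.supp_cup n i ψ h.1 hψ)
      have e1 : runW M (forget (.cup i u :: w)) ψ = runW M (forget w) (M.cup i ψ) := rfl
      rw [e1, h1, states, List.map_map]
      · rfl
      · intro j p; exact Slice.noConfusion
    | cap i =>
      obtain ⟨k, rfl⟩ : ∃ k, n = k + 2 := ⟨n - 2, by have := h.1; omega⟩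
      have h1 := ih _ _ _ h.2 (M.supp_cap k i ψ (by have := h.1; omega) hψ)
      have e1 : runW M (forget (.cap i :: w)) ψ = runW M (forget w) (M.cap i ψ) := rfl
      rw [e1, h1, states, List.map_map]
      · rfl
      · intro j p; exact Slice.noConfusion
    | cross i p =>
      obtain ⟨k, rfl⟩ : ∃ k, n = k + 2 := ⟨n - 2, by have := h.1; omega⟩
      have hcap := M.supp_cap k i ψ (by have := h.1; omega) hψ
      have hcup := M.supp_cup k i _ (by have := h.1; omega) hcap
      have e1 : runW M (forget (.cross i p :: w)) ψ =
          (T (if p then 1 else -1) : LP) • runW M (forget w) ψ +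
            (T (if p then -1 else 1) : LP) • runW M (forget w) (M.cup i (M.cap i ψ)) := by
        have e2 : runW M (forget (.cross i p :: w)) ψ = runW M (forget w) (crossOp M i p ψ) := rfl
        have e3 : crossOp M i p ψ = (T (if p then 1 else -1) : LP) • ψ +
            (T (if p then -1 else 1) : LP) • (M.cup i (M.cap i ψ)) := rfl
        rw [e2, e3, map_add, map_smul, map_smul]
      rw [e1, ih _ _ _ h.2 hψ, ih _ _ _ h.2 hcup, states, BrRun_two, ← BrRun_sum, ← BrRun_sum,
        ← BrRun_add]
      congr 1
      apply List.map_congr_left
      intro s _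
      have e2 : runW M (forget (.cap i :: .cup i true :: s.2)) ψ =
        runW M (forget s.2) (M.cup i (M.cap i ψ)) := rfl
      dsimp only
      rw [e2, smul_smul, smul_smul, ← T_add, ← T_add]
      congr 3
      · ring
      · cases p
        · simp only [Bool.false_eq_true, if_false]
          ring
        · simp only [if_true]
          ring

/-- diagrams without crossings -/
theorem BrRun_noCross (M : Model LP V) (w : List Slice) (hw : NoCross w)
    (h : Helper2.Ok w 0 0) : runW M (forget w) M.init = M.δ ^ curves w • M.init := by
  obtain ⟨C', e, hC', H⟩ := run_smul_build w hw 0 0 [] h CupsOk.nil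
  cases hC'
  have h1 := H colModel (fun i _ => lift eX0 i) 1
  have h2 := H M (fun i p => crossOp M i p) 1
  rw [run_ops_col, one_smul, one_mul] at h1
  rw [BrRun_ops, one_smul, one_mul] at h2
  have h3 := colour_curves w h
  have h4 : colOps.run w (fun l => if l.length = 0 then 1 else 0) [] = (2 : ℤ) ^ e := by
    have := congrFun h1 []
    simp only [Model.build, Pi.smul_apply, smul_eq_mul] at this
    have e2 : colModel.init = (fun l => if l.length = 0 then 1 else 0) := rfl
    rw [e2] at this
    rw [this]
    simp [colModel]
  rw [h4] at h3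
  have h5 : e = curves w := Int.pow_right_injective (a := 2) (by decide) h3
  rw [← h5]
  exact h2

end

theorem thm_BrRun : St_BrRun := by
  intro V _ _ M hM D hD h
  rw [BrRun_states M D 0 0 M.init h M.supp_init, bracket, ← List.sum_map_mul_left, ← BrRun_smul]
  congr 1
  apply List.map_congr_left
  intro s hs
  obtain ⟨h1, h2⟩ := states_ok D 0 0 h s hs
  have h3 := curves_pos s.2 h2 (states_ne D h hD s hs)
  rw [BrRun_noCross M s.2 h1 h2, hM.del, smul_smul]
  obtain ⟨k, hk⟩ : ∃ k, curves s.2 = k + 1 := ⟨curves s.2 - 1, by omega⟩
  rw [hk, Nat.add_sub_cancel, pow_succ]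
  congr 1
  ring

/-! ### the empty word -/

theorem BrRun_ok_nil {a : Word} {l : ℕ} {b : Word} (h : Ok a 0 l) (hL : Loc a b ∨ Loc b a)
    (hb : Ok b 0 l) : a ≠ [] ∧ b ≠ [] := by
  rcases hL with hL | hL
  · cases hL <;> simp_all [Ok, Kind.inn, Kind.out]
  · cases hL <;> simp_all [Ok, Kind.inn, Kind.out]

theorem BrRun_step_nil {w w' : Word} (h : Step 0 w w') : w ≠ [] ∧ w' ≠ [] := by
  obtain ⟨u, a, b, v, k, l, rfl, rfl, hu, ha, hb, hL⟩ := h
  rcases u with _ | ⟨s, u⟩
  · have hk : k = 0 := hu.symm
    subst hk
    have h1 := BrRun_ok_nil ha hL hb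
    constructor
    · intro h2
      exact h1.1 (by simpa using (List.append_eq_nil_iff.mp (by simpa using h2)).1)
    · intro h2
      exact h1.2 (by simpa using (List.append_eq_nil_iff.mp (by simpa using h2)).1)
  · exact ⟨by simp, by simp⟩

/-- only the empty word on no strand is isotopic to the empty word -/
theorem iso_nil {w : Word} (h : Iso 0 [] w) : w = [] := by
  induction h with
  | refl => rfl
  | tail _ h2 ih =>
    subst ih
    exact absurd rfl (BrRun_step_nil h2).1

theorem iso_nil' {w : Word} (h : Iso 0 w []) : w = [] := by
  induction h using Relation.ReflTransGen.head_induction_on with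
  | refl => rfl
  | head h1 _ ih =>
    subst ih
    exact absurd rfl (BrRun_step_nil h1).2

end Pool.Agent.ARB
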