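import Pool.Agent.ARB.Comm

/-!
# ARB: sliding a word around nested caps or cups
-/

set_option autoImplicit false

namespace Pool.Agent.ARB

/-! ### nested caps and cups -/

theorem caps_add (a b : ℕ) : caps (a + b) = sh a (caps b) ++ caps a := by
  induction a with
  | zero =>
    rw [Nat.zero_add, sh_zero]
    show caps b = caps b ++ []
    rw [List.append_nil]
  | succ a ih =>
    have e1 : a + 1 + b = a + b + 1 := by omega
    rw [e1]
    show sh 1 (caps (a + b)) ++ [pN 0] = sh (a + 1) (caps b) ++ (sh 1 (caps a) ++ [pN 0])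
    rw [ih, sh_append, sh_sh, List.append_assoc, Nat.add_comm 1 a]

theorem ok_caps (n : ℕ) : Ok (caps n) (n + n) 0 := by
  induction n with
  | zero => rfl
  | succ n ih =>
    have h1 : Ok (sh 1 (caps n)) (n + n + 1 + 1) (0 + 1 + 1) := (ih.sh 1).add 1
    have e1 : n + 1 + (n + 1) = n + n + 1 + 1 := by omega
    rw [e1]
    exact h1.append ⟨by decide, rfl⟩

theorem ok_cups (n : ℕ) : Ok (cups n) 0 (n + n) := by
  induction n with
  | zero => rfl
  | succ n ih =>
    have h1 : Ok (sh 1 (cups n)) (0 + 1 + 1) (n + n + 1 + 1) := (ih.sh 1).add 1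
    have e1 : n + 1 + (n + 1) = n + n + 1 + 1 := by omega
    rw [e1]
    exact ⟨by decide, h1⟩

/-! ### the rotated word -/

theorem opp_inn (k : Kind) : k.opp.inn = k.out := by cases k <;> rfl

theorem opp_out (k : Kind) : k.opp.out = k.inn := by cases k <;> rfl

theorem opp_opp (k : Kind) : k.opp.opp = k := by cases k <;> rfl

theorem flip_inn (k : Kind) : k.flip.inn = k.out := by cases k <;> rfl

theorem flip_out (k : Kind) : k.flip.out = k.inn := by cases k <;> rfl

theorem flip_opp (k : Kind) : k.flip.opp = k.opp.flip := by cases k <;> rfl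

theorem rho_append (u v : Word) (n k : ℕ) (h : Ok u n k) : rho n (u ++ v) = rho k v ++ rho n u := by
  induction u generalizing n with
  | nil =>
    have h1 : n = k := h
    subst h1
    show rho n v = rho n v ++ []
    rw [List.append_nil]
  | cons s u ih =>
    show rho (n - s.k.inn + s.k.out) (u ++ v) ++ [_] = rho k v ++ (rho _ u ++ [_])
    rw [ih _ h.2, List.append_assoc]

theorem ok_rho (w : Word) : ∀ (n m : ℕ), Ok w n m → Ok (rho n w) m n := by
  induction w with
  | nil =>
    intro n m h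
    have h1 : n = m := h
    subst h1
    rfl
  | cons s w ih =>
    intro n m h
    have h1 := h.1
    refine (ih _ _ h.2).append ⟨?_, ?_⟩
    · show n - s.i - s.k.inn + s.k.opp.inn ≤ n - s.k.inn + s.k.out
      rw [opp_inn]
      omega
    · show n - s.k.inn + s.k.out - s.k.opp.inn + s.k.opp.out = n
      rw [opp_inn, opp_out]
      omega

theorem rho_rho (w : Word) : ∀ (n m : ℕ), Ok w n m → rho m (rho n w) = w := by
  induction w with
  | nil => intro n m _; rfl
  | cons s w ih =>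
    intro n m h
    have h1 := h.1
    show rho m (rho (n - s.k.inn + s.k.out) w ++ [⟨s.k.opp, n - s.i - s.k.inn⟩]) = s :: w
    rw [rho_append _ _ _ _ (ok_rho w _ _ h.2), ih _ _ h.2]
    have e1 : n - s.k.inn + s.k.out - (n - s.i - s.k.inn) - s.k.opp.inn = s.i := by
      rw [opp_inn]
      omega
    show (⟨s.k.opp.opp, n - s.k.inn + s.k.out - (n - s.i - s.k.inn) - s.k.opp.inn⟩ : Piece) :: w
      = s :: w
    rw [e1, opp_opp]

theorem rho_add (w : Word) (j : ℕ) : ∀ (n m : ℕ), Ok w n m → rho (n + j) w = sh j (rho n w) := by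
  induction w with
  | nil => intro n m _; rfl
  | cons s w ih =>
    intro n m h
    have h1 := h.1
    show rho (n + j - s.k.inn + s.k.out) w ++ [⟨s.k.opp, n + j - s.i - s.k.inn⟩] =
      sh j (rho (n - s.k.inn + s.k.out) w ++ [⟨s.k.opp, n - s.i - s.k.inn⟩])
    have e1 : n + j - s.k.inn + s.k.out = n - s.k.inn + s.k.out + j := by omega
    have e2 : n + j - s.i - s.k.inn = n - s.i - s.k.inn + j := by omega
    rw [e1, ih _ _ h.2, e2, sh_append]
    rfl

theorem rho_sh (w : Word) (j : ℕ) : ∀ (n m : ℕ), Ok w n m → rho (n + j) (sh j w) = rho n w := by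
  induction w with
  | nil => intro n m _; rfl
  | cons s w ih =>
    intro n m h
    have h1 := h.1
    show rho (n + j - s.k.inn + s.k.out) (sh j w) ++ [⟨s.k.opp, n + j - (s.i + j) - s.k.inn⟩] =
      rho (n - s.k.inn + s.k.out) w ++ [⟨s.k.opp, n - s.i - s.k.inn⟩]
    have e1 : n + j - s.k.inn + s.k.out = n - s.k.inn + s.k.out + j := by omega
    have e2 : n + j - (s.i + j) - s.k.inn = n - s.i - s.k.inn := by omega
    rw [e1, ih _ _ h.2, e2]

/-! ### one piece -/

theorem dual_base (k : Kind) :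
    Iso (k.inn + k.out) (⟨k, 0⟩ :: caps k.out) (⟨k.opp, k.inn⟩ :: caps k.inn) := by
  cases k with
  | U =>
    have h1 : Iso 2 ([pU 0, pN 1] ++ [pN 0]) ([] ++ [pN 0]) := (Iso.zig (by decide)).right _
    have h2 : Iso 2 [pU 0, pN 1, pN 0] [pN 0] := h1
    exact h2
  | N =>
    have h1 : Iso 2 ([pU 2, pN 1] ++ [pN 0]) ([] ++ [pN 0]) := (Iso.zag (by decide)).right _
    have h2 : Iso 2 [pU 2, pN 1, pN 0] [pN 0] := h1
    exact h2.symm
  | X p =>
    have h1 : Iso 4 ([pX 0 p, pN 1] ++ [pN 0]) ([pX 1 (!p), pN 0] ++ [pN 0]) :=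
      (Iso.slN p (by decide)).right _
    have h2 : Iso 4 ([pX 1 (!p)] ++ [pN 0, pN 0]) ([pX 1 (!p)] ++ [pN 2, pN 0]) := by
      refine Iso.left (k := 4) ⟨by show 1 + 2 ≤ 4; omega, rfl⟩ ?_
      exact Iso.swap (n := 4) .N .N 0 2 (by decide) (by decide)
    have h3 : Iso 4 ([pX 1 (!p), pN 2] ++ [pN 0]) ([pX 2 p, pN 1] ++ [pN 0]) := by
      have h4 := (Iso.slN (n := 4) (i := 1) (!p) (by decide)).right [pN 0]
      rw [Bool.not_not] at h4
      exact h4
    have h4 : Iso 4 [pX 0 p, pN 1, pN 0] [pX 2 p, pN 1, pN 0] := (h1.trans h2).trans h3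
    exact h4

theorem dual_zero (k : Kind) (r : ℕ) :
    Iso (k.inn + r + (k.out + r)) (⟨k, 0⟩ :: caps (k.out + r))
      (⟨k.opp, k.inn + r + r⟩ :: caps (k.inn + r)) := by
  have hr := ok_caps r
  rw [caps_add, caps_add]
  -- move the caps below the piece
  have h1 : Ok [(⟨k, 0⟩ : Piece)] k.inn k.out :=
    ⟨by show 0 + k.inn ≤ k.inn; omega, by show k.inn - k.inn + k.out = k.out; omega⟩
  have h2 := (thm_Comm _ _ _ _ _ _ h1 hr).add k.out
  have e1 : k.inn + r + (k.out + r) = k.inn + (r + r) + k.out := by omega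
  rw [e1]
  have h3 := h2.right (caps k.out)
  have h4 : Ok (sh k.inn (caps r)) (k.inn + (r + r) + k.out) (k.inn + k.out) := by
    have h5 := (hr.sh k.inn).add k.out
    have e2 : r + r + k.inn + k.out = k.inn + (r + r) + k.out := by omega
    have e3 : 0 + k.inn + k.out = k.inn + k.out := by omega
    rw [e2, e3] at h5
    exact h5
  have h6 := Iso.left h4 (dual_base k)
  -- move the caps above the new piece
  have h7 : Ok [(⟨k.opp, 0⟩ : Piece)] k.out k.inn := by
    refine ⟨?_, ?_⟩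
    · show 0 + k.opp.inn ≤ k.out
      rw [opp_inn]
      omega
    · show k.out - k.opp.inn + k.opp.out = k.inn
      rw [opp_inn, opp_out]
      omega
  have h8 := ((thm_Comm _ _ _ _ _ _ hr h7).sh k.inn).right (caps k.inn)
  have e4 : r + r + k.out + k.inn = k.inn + (r + r) + k.out := by omega
  have e5 : sh k.inn (caps r ++ sh 0 [(⟨k.opp, 0⟩ : Piece)]) =
      sh k.inn (caps r) ++ [⟨k.opp, k.inn⟩] := by
    rw [sh_zero, sh_append, sh_cons, sh_nil]
    show _ ++ [(⟨k.opp, 0 + k.inn⟩ : Piece)] = _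
    rw [Nat.zero_add]
  have e6 : sh k.inn (sh (r + r) [(⟨k.opp, 0⟩ : Piece)] ++ caps r) =
      ⟨k.opp, k.inn + r + r⟩ :: sh k.inn (caps r) := by
    rw [sh_append, sh_sh, sh_cons, sh_nil]
    show (⟨k.opp, 0 + (k.inn + (r + r))⟩ : Piece) :: sh k.inn (caps r) = _
    have e7 : 0 + (k.inn + (r + r)) = k.inn + r + r := by omega
    rw [e7]
  rw [e4, e5, e6] at h8
  have h9 : Iso (k.inn + (r + r) + k.out)
      (⟨k, 0⟩ :: (sh k.out (caps r) ++ caps k.out))
      (sh k.inn (caps r) ++ (⟨k, 0⟩ :: caps k.out)) := by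
    have h10 := h3
    rw [List.append_assoc, List.append_assoc] at h10
    exact h10
  have h11 : Iso (k.inn + (r + r) + k.out)
      (sh k.inn (caps r) ++ (⟨k.opp, k.inn⟩ :: caps k.inn))
      (⟨k.opp, k.inn + r + r⟩ :: (sh k.inn (caps r) ++ caps k.inn)) := by
    have h12 := h8
    rw [List.append_assoc] at h12
    exact h12
  exact (h9.trans h6).trans h11

theorem dual_piece (s : Piece) (n : ℕ) (hs : s.i + s.k.inn ≤ n) :
    Iso (n + (n - s.k.inn + s.k.out)) (s :: caps (n - s.k.inn + s.k.out))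
      (sh n [⟨s.k.opp, n - s.i - s.k.inn⟩] ++ caps n) := by
  obtain ⟨k, i⟩ := s
  obtain ⟨r, rfl⟩ := Nat.exists_eq_add_of_le hs
  have hs' : i + k.inn ≤ i + k.inn + r := Nat.le_add_right _ _
  show Iso (i + k.inn + r + (i + k.inn + r - k.inn + k.out))
    (⟨k, i⟩ :: caps (i + k.inn + r - k.inn + k.out))
    (⟨k.opp, i + k.inn + r - i - k.inn + (i + k.inn + r)⟩ :: caps (i + k.inn + r))
  have e1 : i + k.inn + r - k.inn + k.out = i + (k.out + r) := by omega
  have e2 : i + k.inn + r - i - k.inn + (i + k.inn + r) = k.inn + r + r + i := by omega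
  have e3 : i + k.inn + r = i + (k.inn + r) := by omega
  rw [e1, e2, e3, caps_add i (k.out + r), caps_add i (k.inn + r)]
  have h1 := (((dual_zero k r).sh i).add i).right (caps i)
  have e4 : k.inn + r + (k.out + r) + i + i = i + (k.inn + r) + (i + (k.out + r)) := by omega
  rw [e4, sh_cons, sh_cons] at h1
  have e5 : (⟨(⟨k, 0⟩ : Piece).k, (⟨k, 0⟩ : Piece).i + i⟩ : Piece) = ⟨k, i⟩ := by
    show (⟨k, 0 + i⟩ : Piece) = ⟨k, i⟩
    rw [Nat.zero_add]
  rw [e5] at h1
  exact h1

/-! ### words -/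

theorem dual_caps (w : Word) : ∀ (n m : ℕ), Ok w n m →
    Iso (n + m) (w ++ caps m) (sh n (rho n w) ++ caps n) := by
  induction w with
  | nil =>
    intro n m h
    have h1 : n = m := h
    subst h1
    exact Iso.refl _ _
  | cons s w ih =>
    intro n m h
    have h1 := h.1
    have h2 := h.2
    have hs : Ok [s] n (n - s.k.inn + s.k.out) := ⟨h1, rfl⟩
    have h3 : Iso (n + m) ([s] ++ (w ++ caps m))
        ([s] ++ (sh (n - s.k.inn + s.k.out) (rho (n - s.k.inn + s.k.out) w) ++
          caps (n - s.k.inn + s.k.out))) := Iso.left (hs.add m) (ih _ _ h2)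
    have h4 := (thm_Comm [s] (rho (n - s.k.inn + s.k.out) w) n (n - s.k.inn + s.k.out) m
      (n - s.k.inn + s.k.out) hs (ok_rho w _ _ h2)).right (caps (n - s.k.inn + s.k.out))
    rw [List.append_assoc, List.append_assoc] at h4
    have h5 : Ok (sh n (rho (n - s.k.inn + s.k.out) w)) (n + m)
        (n + (n - s.k.inn + s.k.out)) := by
      have h6 := (ok_rho w _ _ h2).sh n
      rw [Nat.add_comm m n, Nat.add_comm _ n] at h6
      exact h6
    have h7 := Iso.left h5 (dual_piece s n h1)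
    have h8 := (h3.trans h4).trans h7
    have e1 : sh n (rho n (s :: w)) ++ caps n =
        sh n (rho (n - s.k.inn + s.k.out) w) ++
          (sh n [⟨s.k.opp, n - s.i - s.k.inn⟩] ++ caps n) := by
      show sh n (rho (n - s.k.inn + s.k.out) w ++ [⟨s.k.opp, n - s.i - s.k.inn⟩]) ++ caps n = _
      rw [sh_append, List.append_assoc]
    rw [e1]
    exact h8

theorem rev_caps (h : St_Rev) (n : ℕ) : rev (caps n) = cups n := by
  induction n with
  | zero => rfl
  | succ n ih =>
    show rev (sh 1 (caps n) ++ [pN 0]) = pU 0 :: sh 1 (cups n)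
    rw [h.1, h.2.2.1, ih]
    rfl

theorem rho_rev (h : St_Rev) (w : Word) : ∀ (n m : ℕ), Ok w n m →
    rho m (rev w) = rev (rho n w) := by
  induction w with
  | nil => intro n m _; rfl
  | cons s w ih =>
    intro n m hw
    have h1 := hw.1
    show rho m (rev w ++ [⟨s.k.flip, s.i⟩]) =
      rev (rho (n - s.k.inn + s.k.out) w ++ [⟨s.k.opp, n - s.i - s.k.inn⟩])
    rw [rho_append _ _ _ _ (h.2.2.2.1 w _ _ hw.2), ih _ _ hw.2, h.1]
    show [(⟨s.k.flip.opp, n - s.k.inn + s.k.out - s.i - s.k.flip.inn⟩ : Piece)] ++ _ =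
      [(⟨s.k.opp.flip, n - s.i - s.k.inn⟩ : Piece)] ++ _
    have e1 : n - s.k.inn + s.k.out - s.i - s.k.flip.inn = n - s.i - s.k.inn := by
      rw [flip_inn]
      omega
    rw [e1, flip_opp]

theorem dual_cups (h : St_Rev) (w : Word) (n m : ℕ) (hw : Ok w n m) :
    Iso 0 (cups n ++ w) (cups m ++ sh m (rho n w)) := by
  have h1 := h.2.2.2.1 w n m hw
  have h2 := dual_caps (rev w) m n h1
  have h3 : Ok (rev w ++ caps n) (m + n) 0 := (h1.add n).append (ok_caps n)
  have h4 := h.2.2.2.2 _ _ _ _ h3 h2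
  rw [h.1, h.1, h.2.1, rev_caps h, rev_caps h, h.2.2.1, rho_rev h w n m hw, h.2.1] at h4
  exact h4

theorem thm_Dual (h : St_Rev) : St_Dual := by
  refine ⟨ok_rho, rho_rho, dual_caps, ?_⟩
  intro w n m hw
  have h1 := dual_cups h (rho n w) m n (ok_rho w n m hw)
  rw [rho_rho w n m hw] at h1
  exact h1.symm

end Pool.Agent.ARB
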