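import Pool.Agent.ARB.TopSts2

/-!
# ARB, module Inv: invariance of the operators of words under isotopies
-/

set_option autoImplicit false

namespace Pool.Agent.ARB

open LaurentPolynomial Pool.Agent.Helper2

/-! ### units -/

theorem isU_one : IsU 1 := ⟨0, Or.inl T_zero.symm⟩

theorem isU_mul {u v : LaurentPolynomial ℤ} (hu : IsU u) (hv : IsU v) : IsU (u * v) := by
  obtain ⟨k, hk⟩ := hu
  obtain ⟨l, hl⟩ := hv
  refine ⟨k + l, ?_⟩
  rw [T_add]
  rcases hk with rfl | rfl <;> rcases hl with rfl | rfl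
  · exact Or.inl rfl
  · exact Or.inr (by ring)
  · exact Or.inr (by ring)
  · exact Or.inl (by ring)

theorem isU_inv {u : LaurentPolynomial ℤ} (hu : IsU u) : ∃ v, IsU v ∧ v * u = 1 := by
  obtain ⟨k, hk⟩ := hu
  have h1 : (T (-k) * T k : LaurentPolynomial ℤ) = 1 := by
    rw [← T_add, neg_add_cancel, T_zero]
  rcases hk with rfl | rfl
  · exact ⟨T (-k), ⟨-k, Or.inl rfl⟩, h1⟩
  · exact ⟨-T (-k), ⟨-k, Or.inr rfl⟩, by rw [neg_mul_neg, h1]⟩

section model

variable {V : Type} [AddCommGroup V] [Module LP V] {M : Model LP V}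

/-- cup after cap -/
noncomputable def invE (M : Model LP V) (i : ℕ) (x : V) : V := M.cup i (M.cap i x)

theorem invE_add (i : ℕ) (x y : V) : invE M i (x + y) = invE M i x + invE M i y := by
  unfold invE
  rw [map_add, map_add]

theorem invE_smul (i : ℕ) (c : LP) (x : V) : invE M i (c • x) = c • invE M i x := by
  unfold invE
  rw [map_smul, map_smul]

theorem cross_apply (i : ℕ) (p : Bool) (x : V) : crossOp M i p x =
    (T (if p then 1 else -1) : LP) • x + (T (if p then -1 else 1) : LP) • invE M i x := rfl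

/-! ### supports -/

theorem supp_cap' {n i : ℕ} {x : V} (hi : i + 2 ≤ n) (hx : M.Supp n x) :
    M.Supp (n - 2) (M.cap i x) := by
  refine M.supp_cap (n - 2) i x (by omega) ?_
  have h : n - 2 + 2 = n := by omega
  rw [h]
  exact hx

theorem supp_E {n i : ℕ} {x : V} (hi : i + 2 ≤ n) (hx : M.Supp n x) :
    M.Supp n (invE M i x) := by
  have h1 := M.supp_cup (n - 2) i (M.cap i x) (by omega) (supp_cap' hi hx)
  have h : n - 2 + 2 = n := by omega
  rw [h] at h1
  exact h1

theorem supp_opP (hM : Good M) {n : ℕ} {s : Piece} {x : V} (hs : s.i + s.k.inn ≤ n)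
    (hx : M.Supp n x) : M.Supp (n - s.k.inn + s.k.out) (opP M s x) := by
  obtain ⟨k, i⟩ := s
  cases k with
  | U => exact M.supp_cup n i x hs hx
  | N => exact supp_cap' hs hx
  | X p =>
    have hs' : i + 2 ≤ n := hs
    have h : n - 2 + 2 = n := by omega
    show M.Supp (n - 2 + 2) (crossOp M i p x)
    rw [h, cross_apply]
    exact hM.add _ _ _ (hM.smul _ _ _ hx) (hM.smul _ _ _ (supp_E hs' hx))

theorem supp_run (hM : Good M) {w : Word} {n m : ℕ} (h : Ok w n m) {x : V} (hx : M.Supp n x) :
    M.Supp m (runW M w x) := by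
  induction w generalizing n x with
  | nil =>
    have h1 : n = m := h
    subst h1
    exact hx
  | cons s w ih => exact ih h.2 (supp_opP hM h.1 hx)

theorem run_append (u v : Word) (x : V) : runW M (u ++ v) x = runW M v (runW M u x) := by
  induction u generalizing x with
  | nil => rfl
  | cons s u ih => exact ih _

/-! ### distant pieces -/

theorem inv_rel4 {n i k : ℕ} {x : V} (h : i + k + 2 ≤ n) (hx : M.Supp n x) :
    M.cap (i + 2 + k) (M.cup i x) = M.cup i (M.cap (i + k) x) := by
  have h1 := M.rel4 n i k x hx h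
  have e : i + k + 2 = i + 2 + k := by omega
  rw [e] at h1
  exact h1

theorem inv_rel5 {n i k : ℕ} {x : V} (h : i + k + 2 ≤ n) (hx : M.Supp n x) :
    M.cap i (M.cup (i + 2 + k) x) = M.cup (i + k) (M.cap i x) := by
  have h1 := M.rel5 n i k x hx h
  have e : i + k + 2 = i + 2 + k := by omega
  rw [e] at h1
  exact h1

theorem E_cup (hM : Good M) {n i k : ℕ} {x : V} (h : i + k + 2 ≤ n) (hx : M.Supp n x) :
    invE M (i + 2 + k) (M.cup i x) = M.cup i (invE M (i + k) x) := by
  unfold invE
  rw [inv_rel4 h hx]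
  exact hM.cupcup (n - 2) i k _ (by omega) (supp_cap' (by omega) hx)

theorem E_cap (hM : Good M) {n i k : ℕ} {x : V} (h : i + k + 4 ≤ n) (hx : M.Supp n x) :
    invE M (i + k) (M.cap i x) = M.cap i (invE M (i + 2 + k) x) := by
  unfold invE
  rw [hM.capcap n i k x h hx]
  exact (inv_rel5 (n := n - 2) (by omega) (supp_cap' (by omega) hx)).symm

theorem cup_E (hM : Good M) {n i k : ℕ} {x : V} (h : i + k + 2 ≤ n) (hx : M.Supp n x) :
    M.cup (i + 2 + k) (invE M i x) = invE M i (M.cup (i + 2 + k) x) := by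
  unfold invE
  rw [inv_rel5 h hx]
  exact hM.cupcup (n - 2) i k _ (by omega) (supp_cap' (by omega) hx)

theorem cap_E (hM : Good M) {n i k : ℕ} {x : V} (h : i + k + 4 ≤ n) (hx : M.Supp n x) :
    M.cap (i + 2 + k) (invE M i x) = invE M i (M.cap (i + 2 + k) x) := by
  unfold invE
  rw [inv_rel4 (n := n - 2) (by omega) (supp_cap' (by omega) hx), hM.capcap n i k x h hx]

theorem E_E (hM : Good M) {n i k : ℕ} {x : V} (h : i + k + 4 ≤ n) (hx : M.Supp n x) :
    invE M (i + 2 + k) (invE M i x) = invE M i (invE M (i + 2 + k) x) := by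
  have h1 := E_cup hM (n := n - 2) (i := i) (k := k) (x := M.cap i x) (by omega)
    (supp_cap' (by omega) hx)
  rw [E_cap hM h hx] at h1
  exact h1

theorem inv_swap (hM : Good M) (s t : Kind) {n i k : ℕ} {x : V}
    (h : i + s.inn + k + t.inn ≤ n) (hx : M.Supp n x) :
    opP M ⟨t, i + s.out + k⟩ (opP M ⟨s, i⟩ x) = opP M ⟨s, i⟩ (opP M ⟨t, i + s.inn + k⟩ x) := by
  cases s with
  | U =>
    cases t with
    | U =>
      have h' : i + 0 + k + 0 ≤ n := h
      exact hM.cupcup n i k x (by omega) hx
    | N =>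
      have h' : i + 0 + k + 2 ≤ n := h
      exact inv_rel4 (by omega) hx
    | X p =>
      have h' : i + 0 + k + 2 ≤ n := h
      show crossOp M (i + 2 + k) p (M.cup i x) = M.cup i (crossOp M (i + k) p x)
      rw [cross_apply, cross_apply, map_add, map_smul, map_smul, E_cup hM (by omega) hx]
  | N =>
    cases t with
    | U =>
      have h' : i + 2 + k + 0 ≤ n := h
      exact (inv_rel5 (n := n) (i := i) (k := k) (by omega) hx).symm
    | N =>
      have h' : i + 2 + k + 2 ≤ n := h
      exact hM.capcap n i k x (by omega) hx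
    | X p =>
      have h' : i + 2 + k + 2 ≤ n := h
      show crossOp M (i + k) p (M.cap i x) = M.cap i (crossOp M (i + 2 + k) p x)
      rw [cross_apply, cross_apply, map_add, map_smul, map_smul, E_cap hM (by omega) hx]
  | X q =>
    cases t with
    | U =>
      have h' : i + 2 + k + 0 ≤ n := h
      show M.cup (i + 2 + k) (crossOp M i q x) = crossOp M i q (M.cup (i + 2 + k) x)
      rw [cross_apply, cross_apply, map_add, map_smul, map_smul, cup_E hM (by omega) hx]
    | N =>
      have h' : i + 2 + k + 2 ≤ n := h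
      show M.cap (i + 2 + k) (crossOp M i q x) = crossOp M i q (M.cap (i + 2 + k) x)
      rw [cross_apply, cross_apply, map_add, map_smul, map_smul, cap_E hM (by omega) hx]
    | X p =>
      have h' : i + 2 + k + 2 ≤ n := h
      show crossOp M (i + 2 + k) p (crossOp M i q x) = crossOp M i q (crossOp M (i + 2 + k) p x)
      rw [cross_apply, cross_apply, cross_apply, cross_apply, invE_add, invE_smul, invE_smul,
        invE_add, invE_smul, invE_smul, E_E hM (by omega) hx]
      module

/-! ### close pieces -/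

/-- the coefficients -/
theorem inv_coef (hM : Good M) (p : Bool) :
    (T (if p then 1 else -1) : LP) * T (if p then -1 else 1) = 1 ∧
    M.δ = -((T (if p then 1 else -1) : LP) ^ 2 + (T (if p then -1 else 1) : LP) ^ 2) := by
  have e1 : (T 1 : LP) ^ 2 = T 2 := by rw [pow_two, ← T_add]; rfl
  have e2 : (T (-1) : LP) ^ 2 = T (-2) := by rw [pow_two, ← T_add]; rfl
  rw [hM.del]
  unfold loopVal
  cases p with
  | true =>
    simp only [if_true]
    rw [e1, e2, ← T_add]
    exact ⟨T_zero, rfl⟩
  | false =>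
    simp only [Bool.false_eq_true, if_false]
    rw [e1, e2, ← T_add, add_comm (T (-2) : LP)]
    exact ⟨T_zero, rfl⟩

theorem invE_sq {n i : ℕ} {x : V} (h : i + 2 ≤ n) (hx : M.Supp n x) :
    invE M i (invE M i x) = M.δ • invE M i x := by
  unfold invE
  rw [M.rel1 (n - 2) i _ (supp_cap' h hx) (by omega), map_smul]

theorem invE_121 {n i : ℕ} {x : V} (h : i + 3 ≤ n) (hx : M.Supp n x) :
    invE M i (invE M (i + 1) (invE M i x)) = invE M i x := by
  have hy := supp_cap' (i := i) (by omega) hx
  unfold invE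
  rw [M.rel2 (n - 2) i _ hy (by omega), M.rel3 (n - 2) i _ hy (by omega)]

theorem invE_212 {n i : ℕ} {x : V} (h : i + 3 ≤ n) (hx : M.Supp n x) :
    invE M (i + 1) (invE M i (invE M (i + 1) x)) = invE M (i + 1) x := by
  have hy := supp_cap' (i := i + 1) (by omega) hx
  unfold invE
  rw [M.rel3 (n - 2) i _ hy (by omega), M.rel2 (n - 2) i _ hy (by omega)]

theorem inv_r2 (hM : Good M) {n i : ℕ} (p : Bool) {x : V} (h : i + 2 ≤ n)
    (hx : M.Supp n x) : crossOp M i (!p) (crossOp M i p x) = x := by
  obtain ⟨c1, c2⟩ := inv_coef hM p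
  rw [cross_apply, cross_apply, invE_add, invE_smul, invE_smul, invE_sq h hx]
  have e1 : (if (!p) = true then (1 : ℤ) else -1) = if p = true then -1 else 1 := by
    cases p <;> rfl
  have e2 : (if (!p) = true then (-1 : ℤ) else 1) = if p = true then 1 else -1 := by
    cases p <;> rfl
  rw [e1, e2]
  generalize (T (if p = true then 1 else -1) : LP) = a at *
  generalize (T (if p = true then -1 else 1) : LP) = b at *
  rw [c2]
  match_scalars
  · linear_combination c1
  · linear_combination (-(a ^ 2 + b ^ 2)) * c1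

theorem inv_r3 (hM : Good M) {n i : ℕ} (p : Bool) {x : V} (h : i + 3 ≤ n)
    (hx : M.Supp n x) : crossOp M i p (crossOp M (i + 1) p (crossOp M i p x)) =
      crossOp M (i + 1) p (crossOp M i p (crossOp M (i + 1) p x)) := by
  obtain ⟨c1, c2⟩ := inv_coef hM p
  simp only [cross_apply, invE_add, invE_smul]
  rw [invE_121 h hx, invE_212 h hx, invE_sq (i := i) (by omega) hx,
    invE_sq (i := i + 1) (by omega) hx]
  generalize (T (if p = true then 1 else -1) : LP) = a at *
  generalize (T (if p = true then -1 else 1) : LP) = b at *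
  rw [c2]
  match_scalars
  · ring
  · linear_combination (-b * (a ^ 2 + b ^ 2)) * c1
  · linear_combination (b * (a ^ 2 + b ^ 2)) * c1
  · ring
  · ring

theorem inv_loc (hM : Good M) {a b : Word} (h : Loc a b) {n m : ℕ} (ha : Ok a n m)
    (hb : Ok b n m) : ∃ u : LP, IsU u ∧ ∀ x : V, M.Supp n x → runW M a x = u • runW M b x := by
  cases h with
  | swap s t i k =>
    refine ⟨1, isU_one, fun x hx => ?_⟩
    rw [one_smul]
    have h1 : i + s.inn + k + t.inn ≤ n := hb.1
    exact inv_swap hM s t h1 hx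
  | zig i =>
    refine ⟨1, isU_one, fun x hx => ?_⟩
    rw [one_smul]
    have h1 : i + 1 + 2 ≤ n - 0 + 2 := ha.2.1
    exact M.rel2 n i x hx (by omega)
  | zag i =>
    refine ⟨1, isU_one, fun x hx => ?_⟩
    rw [one_smul]
    have h1 : i + 1 + 0 ≤ n := ha.1
    exact M.rel3 n i x hx (by omega)
  | slU i p =>
    refine ⟨1, isU_one, fun x hx => ?_⟩
    rw [one_smul]
    have h1 : i + 1 + 0 ≤ n := ha.1
    show crossOp M i p (M.cup (i + 1) x) = crossOp M (i + 1) (!p) (M.cup i x)
    rw [cross_apply, cross_apply]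
    unfold invE
    rw [M.rel3 n i x hx (by omega), M.rel2 n i x hx (by omega)]
    cases p
    · exact add_comm _ _
    · exact add_comm _ _
  | slN i p =>
    refine ⟨1, isU_one, fun x hx => ?_⟩
    rw [one_smul]
    have h1 : i + 1 + 2 ≤ n := hb.1
    show M.cap (i + 1) (crossOp M i p x) = M.cap i (crossOp M (i + 1) (!p) x)
    rw [cross_apply, cross_apply, map_add, map_add, map_smul, map_smul, map_smul, map_smul]
    unfold invE
    rw [M.rel2 (n - 2) i _ (supp_cap' (by omega) hx) (by omega),
      M.rel3 (n - 2) i _ (supp_cap' (by omega) hx) (by omega)]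
    cases p
    · exact add_comm _ _
    · exact add_comm _ _
  | r1U i p =>
    obtain ⟨c1, c2⟩ := inv_coef hM p
    refine ⟨-(T (if p then -1 else 1) : LP) ^ 3, ?_, fun x hx => ?_⟩
    · refine ⟨if p then -3 else 3, Or.inr ?_⟩
      cases p
      · show -(T 1 : LP) ^ 3 = -T 3
        rw [pow_succ, pow_two, ← T_add, ← T_add]
        rfl
      · show -(T (-1) : LP) ^ 3 = -T (-3)
        rw [pow_succ, pow_two, ← T_add, ← T_add]
        rfl
    · have h1 : i + 0 ≤ n := hb.1
      show crossOp M i p (M.cup i x) = _ • M.cup i x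
      rw [cross_apply]
      unfold invE
      rw [M.rel1 n i x hx (by omega), map_smul, c2]
      generalize (T (if p = true then 1 else -1) : LP) = a at *
      generalize (T (if p = true then -1 else 1) : LP) = b at *
      match_scalars
      linear_combination (-a) * c1
  | r1N i p =>
    obtain ⟨c1, c2⟩ := inv_coef hM p
    refine ⟨-(T (if p then -1 else 1) : LP) ^ 3, ?_, fun x hx => ?_⟩
    · refine ⟨if p then -3 else 3, Or.inr ?_⟩
      cases p
      · show -(T 1 : LP) ^ 3 = -T 3
        rw [pow_succ, pow_two, ← T_add, ← T_add]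
        rfl
      · show -(T (-1) : LP) ^ 3 = -T (-3)
        rw [pow_succ, pow_two, ← T_add, ← T_add]
        rfl
    · have h1 : i + 2 ≤ n := hb.1
      show M.cap i (crossOp M i p x) = _ • M.cap i x
      rw [cross_apply, map_add, map_smul, map_smul]
      unfold invE
      rw [M.rel1 (n - 2) i _ (supp_cap' h1 hx) (by omega), c2]
      generalize (T (if p = true then 1 else -1) : LP) = a at *
      generalize (T (if p = true then -1 else 1) : LP) = b at *
      match_scalars
      linear_combination (-a) * c1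
  | r2 i p =>
    refine ⟨1, isU_one, fun x hx => ?_⟩
    rw [one_smul]
    exact inv_r2 hM p ha.1 hx
  | r3 i p =>
    refine ⟨1, isU_one, fun x hx => ?_⟩
    rw [one_smul]
    have h1 : i + 1 + 2 ≤ n := hb.1
    exact inv_r3 hM p (by omega) hx

theorem inv_step (hM : Good M) {n m : ℕ} {w w' : Word} (hw : Ok w n m) (h : Step n w w') :
    ∃ u : LP, IsU u ∧ ∀ x : V, M.Supp n x → runW M w x = u • runW M w' x := by
  obtain ⟨u, a, b, v, k, l, rfl, rfl, h3, h4, h5, h6⟩ := h
  have key : ∃ c : LP, IsU c ∧ ∀ x : V, M.Supp k x → runW M a x = c • runW M b x := by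
    rcases h6 with h6 | h6
    · exact inv_loc hM h6 h4 h5
    · obtain ⟨c, hc, h7⟩ := inv_loc hM h6 h5 h4
      obtain ⟨c', hc', h8⟩ := isU_inv hc
      refine ⟨c', hc', fun x hx => ?_⟩
      rw [h7 x hx, smul_smul, h8, one_smul]
  obtain ⟨c, hc, h7⟩ := key
  refine ⟨c, hc, fun x hx => ?_⟩
  rw [run_append, run_append, run_append, run_append, h7 _ (supp_run hM h3 hx), map_smul]

end model

theorem thm_Inv : St_Inv := by
  intro V _ _ M hM n m w w' hw h
  induction h with
  | refl => exact ⟨1, isU_one, fun x _ => (one_smul _ _).symm⟩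
  | tail h1 h2 ih =>
    obtain ⟨u, hu, h3⟩ := ih
    obtain ⟨v, hv, h4⟩ := inv_step hM (Iso.ok h1 hw) h2
    refine ⟨u * v, isU_mul hu hv, fun x hx => ?_⟩
    rw [h3 x hx, h4 x hx, smul_smul]

end Pool.Agent.ARB
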