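import Pool.Agent.ARB.Comm

/-!
# ARB: the two rotations are inverse to each other
-/

set_option autoImplicit false

namespace Pool.Agent.ARB

theorem thm_RR : St_RR := by
  intro A hA
  constructor
  · -- `[U0, U3] ++ sh 2 A ++ [N1, N2]`
    have e1 : rotW' (rotW A) = [pU 0, pU 3] ++ (sh 2 A ++ [pN 1, pN 2]) := by
      show pU 0 :: (sh 1 (pU 2 :: (sh 1 A ++ [pN 0])) ++ [pN 2]) = _
      rw [sh_cons, sh_append, sh_sh]
      show pU 0 :: pU 3 :: ((sh (1 + 1) A ++ [pN 1]) ++ [pN 2]) = _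
      rw [List.append_assoc]
      rfl
    rw [e1]
    have h0 : Iso 2 [pU 0, pU 3] [pU 1, pU 0] := Iso.swap .U .U 0 1 (by decide) (by decide)
    have h1 : Iso 6 [pN 1, pN 2] [pN 4, pN 1] := Iso.swap .N .N 1 4 (by decide) (by decide)
    have hA2 : Ok (sh 2 A) 4 4 := hA.sh 2
    have h2 : Iso 6 (sh 2 A ++ [pN 4]) ([pN 4] ++ sh 2 A) :=
      thm_Comm (sh 2 A) [pN 0] 4 4 2 0 hA2 ⟨by decide, rfl⟩
    have h3 : Iso 4 [pU 0, pN 4] [pN 2, pU 0] := Iso.swap .U .N 0 2 (by decide) (by decide)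
    have h4 : Iso 2 [pU 1, pN 2] [] := Iso.zig (by decide)
    have h5 : Iso 2 ([pU 0] ++ sh 2 A) (sh 0 A ++ [pU 0]) :=
      thm_Comm [pU 0] A 0 2 2 2 ⟨by decide, rfl⟩ hA
    have h6 : Iso 2 [pU 0, pN 1] [] := Iso.zig (by decide)
    have s1 : Iso 2 ([pU 0, pU 3] ++ (sh 2 A ++ [pN 1, pN 2]))
        ([pU 1, pU 0] ++ (sh 2 A ++ [pN 1, pN 2])) := h0.right _
    have ok1 : Ok [pU 1, pU 0] 2 6 := ⟨by decide, by decide, rfl⟩
    have s2 : Iso 2 ([pU 1, pU 0] ++ (sh 2 A ++ [pN 1, pN 2]))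
        ([pU 1, pU 0] ++ (sh 2 A ++ [pN 4, pN 1])) :=
      Iso.left ok1 (Iso.left (hA2.add 2) h1)
    have s3 : Iso 2 ([pU 1, pU 0] ++ ((sh 2 A ++ [pN 4]) ++ [pN 1]))
        ([pU 1, pU 0] ++ (([pN 4] ++ sh 2 A) ++ [pN 1])) := Iso.mid _ _ ok1 h2
    rw [List.append_assoc (sh 2 A)] at s3
    have s4 : Iso 2 ([pU 1] ++ ([pU 0, pN 4] ++ (sh 2 A ++ [pN 1])))
        ([pU 1] ++ ([pN 2, pU 0] ++ (sh 2 A ++ [pN 1]))) :=
      Iso.mid _ _ (k := 4) ⟨by decide, rfl⟩ h3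
    have s5 : Iso 2 ([pU 1, pN 2] ++ ([pU 0] ++ (sh 2 A ++ [pN 1])))
        ([] ++ ([pU 0] ++ (sh 2 A ++ [pN 1]))) := h4.right _
    have s6 : Iso 2 (([pU 0] ++ sh 2 A) ++ [pN 1]) ((sh 0 A ++ [pU 0]) ++ [pN 1]) := h5.right _
    rw [sh_zero, List.append_assoc A] at s6
    have s7 : Iso 2 (A ++ ([pU 0] ++ [pN 1])) (A ++ []) := Iso.left hA h6
    rw [List.append_nil] at s7
    exact (((((s1.trans s2).trans s3).trans s4).trans s5).trans s6).trans s7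
  · -- `[U2, U1] ++ sh 2 A ++ [N3, N0]`
    have e1 : rotW (rotW' A) = [pU 2, pU 1] ++ (sh 2 A ++ [pN 3, pN 0]) := by
      show pU 2 :: (sh 1 (pU 0 :: (sh 1 A ++ [pN 2])) ++ [pN 0]) = _
      rw [sh_cons, sh_append, sh_sh]
      show pU 2 :: pU 1 :: ((sh (1 + 1) A ++ [pN 3]) ++ [pN 0]) = _
      rw [List.append_assoc]
      rfl
    rw [e1]
    have h0 : Iso 2 [pU 2, pU 1] [pU 1, pU 4] :=
      (Iso.swap .U .U 1 2 (by decide) (by decide)).symm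
    have h1 : Iso 6 [pN 3, pN 0] [pN 0, pN 1] :=
      (Iso.swap .N .N 0 3 (by decide) (by decide)).symm
    have hA2 : Ok (sh 2 A) 4 4 := hA.sh 2
    have h2 : Iso 4 (sh 2 A ++ [pN 0]) ([pN 0] ++ sh 0 A) :=
      (thm_Comm [pN 0] A 2 0 2 2 ⟨by decide, rfl⟩ hA).symm
    rw [sh_zero] at h2
    have h3 : Iso 4 [pU 4, pN 0] [pN 0, pU 2] :=
      (Iso.swap .N .U 0 4 (by decide) (by decide)).symm
    have h4 : Iso 2 [pU 1, pN 0] [] := Iso.zag (by decide)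
    have h5 : Iso 2 ([pU 2] ++ A) (A ++ [pU 2]) :=
      (thm_Comm A [pU 0] 2 2 0 2 hA ⟨by decide, rfl⟩).symm
    have h6 : Iso 2 [pU 2, pN 1] [] := Iso.zag (by decide)
    have s1 : Iso 2 ([pU 2, pU 1] ++ (sh 2 A ++ [pN 3, pN 0]))
        ([pU 1, pU 4] ++ (sh 2 A ++ [pN 3, pN 0])) := h0.right _
    have ok1 : Ok [pU 1, pU 4] 2 6 := ⟨by decide, by decide, rfl⟩
    have s2 : Iso 2 ([pU 1, pU 4] ++ (sh 2 A ++ [pN 3, pN 0]))
        ([pU 1, pU 4] ++ (sh 2 A ++ [pN 0, pN 1])) :=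
      Iso.left ok1 (Iso.left (hA2.add 2) h1)
    have s3 : Iso 2 ([pU 1, pU 4] ++ ((sh 2 A ++ [pN 0]) ++ [pN 1]))
        ([pU 1, pU 4] ++ (([pN 0] ++ A) ++ [pN 1])) := Iso.mid _ _ ok1 (h2.add 2)
    rw [List.append_assoc (sh 2 A)] at s3
    have s4 : Iso 2 ([pU 1] ++ ([pU 4, pN 0] ++ (A ++ [pN 1])))
        ([pU 1] ++ ([pN 0, pU 2] ++ (A ++ [pN 1]))) :=
      Iso.mid _ _ (k := 4) ⟨by decide, rfl⟩ h3
    have s5 : Iso 2 ([pU 1, pN 0] ++ ([pU 2] ++ (A ++ [pN 1])))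
        ([] ++ ([pU 2] ++ (A ++ [pN 1]))) := h4.right _
    have s6 : Iso 2 (([pU 2] ++ A) ++ [pN 1]) ((A ++ [pU 2]) ++ [pN 1]) := h5.right _
    rw [List.append_assoc A] at s6
    have s7 : Iso 2 (A ++ ([pU 2] ++ [pN 1])) (A ++ []) := Iso.left hA h6
    rw [List.append_nil] at s7
    exact (((((s1.trans s2).trans s3).trans s4).trans s5).trans s6).trans s7

end Pool.Agent.ARB
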