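import Pool.Agent.ARB.TopAll
import Pool.Agent.ARB.SecA

/-!
# ARB: rational tangles of determinant one
-/

set_option autoImplicit false

namespace Pool.Agent.ARB

theorem dw_row (p : Bool) (n : ℕ) : Iso 0 (DW (addX p n .zero).word) O1 := by
  induction n with
  | zero => exact Iso.refl _ _
  | succ n ih =>
    refine Iso.trans ?_ ih
    have hA : Ok (addX p n .zero).word 2 2 := okA _
    have h0 : Ok [pU 0] 0 2 := ⟨by decide, rfl⟩
    have h1 : Iso 2 [pX 0 p, pN 0] [pN 0] := Iso.r1N p (by decide)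
    have h2 : Iso 0 ([pU 0] ++ ((addX p n .zero).word ++ [pX 0 p, pN 0]))
        ([pU 0] ++ ((addX p n .zero).word ++ [pN 0])) := Iso.left h0 (Iso.left hA h1)
    have e1 : DW (addX p (n + 1) .zero).word =
        [pU 0] ++ ((addX p n .zero).word ++ [pX 0 p, pN 0]) := by
      show pU 0 :: (((addX p n .zero).word ++ [pX 0 p]) ++ [pN 0]) = _
      rw [List.append_assoc]
      rfl
    rw [e1]
    exact h2

theorem thm_T4' (h2 : St_T2) (h7 : St_T7) (h3 : St_T3) : St_T4 := by
  intro R hR hp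
  have key : ∀ m : ℤ, ∃ (p : Bool) (n : ℕ), (addX p n Arb.zero).pq = (m, 1) := by
    intro m
    rcases Int.natAbs_eq m with h1 | h1
    · refine ⟨true, m.natAbs, ?_⟩
      rw [addX_pq]
      simp only [Arb.pq, if_true]
      rw [h1]
      simp
    · refine ⟨false, m.natAbs, ?_⟩
      rw [addX_pq]
      simp only [Arb.pq]
      rw [h1]
      simp
  obtain ⟨p, n, h⟩ := key (-(R.pq.1 * R.pq.2))
  have hR' : Rat (.rot (addX p n .zero)) := Rat.rot _ (addX_rat p n Rat.zero)
  have hs : R.pq.1 * (Arb.rot (addX p n .zero)).pq.2 =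
      R.pq.2 * (Arb.rot (addX p n .zero)).pq.1 := by
    have h5 : R.pq.1 * R.pq.1 = 1 := by
      rcases Int.natAbs_eq R.pq.1 with h1 | h1 <;> rw [hp] at h1 <;> rw [h1] <;> norm_num
    simp only [Arb.pq, h]
    linear_combination R.pq.2 * h5
  have s1 := congN _ _ (h3 R _ hR hR' hs)
  have hA : Ok (addX p n .zero).word 2 2 := okA _
  have s2 := h2 (addX p n .zero).word [] hA rfl
  rw [List.append_nil] at s2
  exact ((s1.trans s2).trans (h7 _ hA)).trans (dw_row p n)

end Pool.Agent.ARB
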