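import Pool.Agent.ARB.Dual

/-!
# ARB: cyclic permutation, closing up with the infinite tangle
-/

set_option autoImplicit false

namespace Pool.Agent.ARB

theorem NW_eq (w : Word) : NW w = cups 2 ++ (w ++ caps 2) := rfl

theorem thm_T1 (h : St_Dual) : St_T1 := by
  intro A B hA hB
  rw [NW_eq, NW_eq]
  have hc : Ok (cups 2) 0 4 := ok_cups 2
  have hR : Ok (rho 2 B) 2 2 := h.1 B 2 2 hB
  have h1 : Iso 0 (cups 2 ++ (A ++ (B ++ caps 2)))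
      (cups 2 ++ (A ++ (sh 2 (rho 2 B) ++ caps 2))) :=
    Iso.left hc (Iso.left (hA.add 2) (h.2.2.1 B 2 2 hB))
  have h2 : Iso 0 (cups 2 ++ ((A ++ sh 2 (rho 2 B)) ++ caps 2))
      (cups 2 ++ ((sh 2 (rho 2 B) ++ A) ++ caps 2)) :=
    Iso.mid _ _ hc (thm_Comm A (rho 2 B) 2 2 2 2 hA hR)
  have h3 := (h.2.2.2 (rho 2 B) 2 2 hR).right (A ++ caps 2)
  rw [h.2.1 B 2 2 hB] at h3
  have h4 : Iso 0 (cups 2 ++ ((A ++ B) ++ caps 2))
      (cups 2 ++ ((sh 2 (rho 2 B) ++ A) ++ caps 2)) := by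
    rw [List.append_assoc A B]
    rw [List.append_assoc A (sh 2 (rho 2 B))] at h2
    exact h1.trans h2
  have h5 : Iso 0 (cups 2 ++ ((sh 2 (rho 2 B) ++ A) ++ caps 2))
      (cups 2 ++ ((B ++ A) ++ caps 2)) := by
    have h6 := h3
    rw [List.append_assoc, List.append_assoc] at h6
    rw [List.append_assoc (sh 2 (rho 2 B)) A, List.append_assoc B A]
    exact h6
  exact h4.trans h5

theorem thm_T7 : St_T7 := by
  intro A hA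
  -- the word is `U0 U1 A U2 N0 N1 N0`
  have e1 : NW (A ++ rotW []) = [pU 0, pU 1] ++ (A ++ ([pU 2, pN 0] ++ [pN 1, pN 0])) := by
    show pU 0 :: pU 1 :: ((A ++ [pU 2, pN 0]) ++ [pN 1, pN 0]) = _
    rw [List.append_assoc]
    rfl
  rw [e1]
  have hc : Ok [pU 0, pU 1] 0 4 := ⟨by decide, by decide, rfl⟩
  -- `U2 N0 N1 ~ N0 U0 N1 ~ N0` on four strands
  have h1 : Iso 4 [pU 2, pN 0] [pN 0, pU 0] :=
    (Iso.swap (n := 4) .N .U 0 2 (by decide) (by decide)).symm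
  have h2 : Iso 4 ([pU 2, pN 0] ++ [pN 1, pN 0]) ([pN 0, pU 0] ++ [pN 1, pN 0]) := h1.right _
  have h3 : Iso 4 ([pN 0] ++ ([pU 0, pN 1] ++ [pN 0])) ([pN 0] ++ ([] ++ [pN 0])) :=
    Iso.mid _ _ (k := 2) ⟨by decide, rfl⟩ (Iso.zig (by decide))
  have h4 : Iso 4 ([pU 2, pN 0] ++ [pN 1, pN 0]) [pN 0, pN 0] := h2.trans h3
  have h5 : Iso 0 ([pU 0, pU 1] ++ (A ++ ([pU 2, pN 0] ++ [pN 1, pN 0])))
      ([pU 0, pU 1] ++ (A ++ [pN 0, pN 0])) := Iso.left hc (Iso.left (hA.add 2) h4)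
  -- `N0 N0 ~ N2 N0`
  have h6 : Iso 4 [pN 0, pN 0] [pN 2, pN 0] :=
    Iso.swap (n := 4) .N .N 0 2 (by decide) (by decide)
  have h7 : Iso 0 ([pU 0, pU 1] ++ (A ++ [pN 0, pN 0])) ([pU 0, pU 1] ++ (A ++ [pN 2, pN 0])) :=
    Iso.left hc (Iso.left (hA.add 2) h6)
  -- move `N2` below `A`
  have h8 : Iso 4 (A ++ [pN 2]) ([pN 2] ++ A) :=
    thm_Comm A [pN 0] 2 2 2 0 hA ⟨by decide, rfl⟩
  have h9 : Iso 0 ([pU 0, pU 1] ++ ((A ++ [pN 2]) ++ [pN 0]))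
      ([pU 0, pU 1] ++ (([pN 2] ++ A) ++ [pN 0])) := Iso.mid _ _ hc h8
  rw [List.append_assoc A] at h9
  -- `U1 N2 ~ []`
  have h10 : Iso 0 ([pU 0] ++ ([pU 1, pN 2] ++ (A ++ [pN 0]))) ([pU 0] ++ ([] ++ (A ++ [pN 0]))) :=
    Iso.mid _ _ (k := 2) ⟨by decide, rfl⟩ (Iso.zig (by decide))
  exact ((h5.trans h7).trans h9).trans h10

end Pool.Agent.ARB
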