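import Pool.Agent.ARB.Comm

/-!
# ARB: rotation of both parts of a closed diagram
-/

set_option autoImplicit false

namespace Pool.Agent.ARB

/-- the first strand passes over the other three -/
theorem bend_rot (h : St_Nat) (W : Word) (hW : Ok W 0 4) :
    Iso 0 ([pU 0] ++ (sh 1 W ++ [pN 0])) (W ++ ov true 3) := by
  have h1 : Iso 1 W (sh 1 W ++ ov true 4) := h true W 0 4 hW
  have h2 : Iso 2 (sh 1 W) (sh 1 (sh 1 W ++ ov true 4)) := h1.sh 1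
  rw [sh_append, sh_sh] at h2
  have ok0 : Ok [pU 0] 0 2 := ⟨by decide, rfl⟩
  have s1 : Iso 0 ([pU 0] ++ (sh 1 W ++ [pN 0]))
      ([pU 0] ++ ((sh (1 + 1) W ++ sh 1 (ov true 4)) ++ [pN 0])) := Iso.mid _ _ ok0 h2
  rw [List.append_assoc (sh (1 + 1) W)] at s1
  have h3 : Iso 0 ([pU 0] ++ sh 2 W) (sh 0 W ++ [pU 0]) := thm_Comm [pU 0] W 0 2 0 4 ok0 hW
  rw [sh_zero] at h3
  have s2 : Iso 0 (([pU 0] ++ sh 2 W) ++ (sh 1 (ov true 4) ++ [pN 0]))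
      ((W ++ [pU 0]) ++ (sh 1 (ov true 4) ++ [pN 0])) := h3.right _
  rw [List.append_assoc W] at s2
  -- now everything happens on four strands
  have ok6 : Ok (ov true 3) 4 4 := ⟨by decide, by decide, by decide, rfl⟩
  have h4 : Iso 6 (sh 2 (ov true 3) ++ [pN 0]) ([pN 0] ++ sh 0 (ov true 3)) :=
    (thm_Comm [pN 0] (ov true 3) 2 0 4 4 ⟨by decide, rfl⟩ ok6).symm
  rw [sh_zero] at h4
  have h5 : Iso 4 ([pU 0, pX 1 true] ++ (sh 2 (ov true 3) ++ [pN 0]))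
      ([pU 0, pX 1 true] ++ ([pN 0] ++ ov true 3)) :=
    Iso.left (k := 6) ⟨by decide, by decide, rfl⟩ h4
  have h6 : Iso 6 [pX 1 true, pN 0] [pX 0 false, pN 1] := (Iso.slN (i := 0) false (by decide)).symm
  have h7 : Iso 4 ([pU 0] ++ ([pX 1 true, pN 0] ++ ov true 3))
      ([pU 0] ++ ([pX 0 false, pN 1] ++ ov true 3)) :=
    Iso.mid _ _ (k := 6) ⟨by decide, rfl⟩ h6
  have h8 : Iso 4 ([pU 0, pX 0 false] ++ ([pN 1] ++ ov true 3)) ([pU 0] ++ ([pN 1] ++ ov true 3)) :=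
    (Iso.r1U false (by decide)).right _
  have h9 : Iso 4 ([pU 0, pN 1] ++ ov true 3) ([] ++ ov true 3) := (Iso.zig (by decide)).right _
  have h10 : Iso 4 ([pU 0] ++ (sh 1 (ov true 4) ++ [pN 0])) (ov true 3) :=
    ((h5.trans h7).trans h8).trans h9
  exact (s1.trans s2).trans (Iso.left hW h10)

/-- the upper part, rotated -/
theorem cob_rot (B : Word) (hB : Ok B 2 2) :
    Iso 4 (rotW B ++ [pN 1, pN 0]) (sh 1 B ++ [pN 0, pN 0]) := by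
  have hB1 : Ok (sh 1 B) 4 4 := (hB.sh 1).add 1
  have e1 : rotW B ++ [pN 1, pN 0] = [pU 2] ++ (sh 1 B ++ ([pN 0, pN 1] ++ [pN 0])) := by
    show pU 2 :: ((sh 1 B ++ [pN 0]) ++ [pN 1, pN 0]) = _
    rw [List.append_assoc]
    rfl
  rw [e1]
  have h1 : Iso 6 [pN 0, pN 1] [pN 3, pN 0] := Iso.swap .N .N 0 3 (by decide) (by decide)
  have ok0 : Ok [pU 2] 4 6 := ⟨by decide, rfl⟩
  have s1 : Iso 4 ([pU 2] ++ (sh 1 B ++ ([pN 0, pN 1] ++ [pN 0])))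
      ([pU 2] ++ (sh 1 B ++ ([pN 3, pN 0] ++ [pN 0]))) :=
    Iso.left ok0 (Iso.left (hB1.add 2) (h1.right _))
  have hB3 : Ok (sh 1 B) 3 3 := hB.sh 1
  have h2 : Iso 5 (sh 1 B ++ [pN 3]) ([pN 3] ++ sh 1 B) :=
    thm_Comm (sh 1 B) [pN 0] 3 3 2 0 hB3 ⟨by decide, rfl⟩
  have s2 : Iso 4 ([pU 2] ++ ((sh 1 B ++ [pN 3]) ++ [pN 0, pN 0]))
      ([pU 2] ++ (([pN 3] ++ sh 1 B) ++ [pN 0, pN 0])) := Iso.mid _ _ ok0 (h2.add 1)
  rw [List.append_assoc (sh 1 B)] at s2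
  have s3 : Iso 4 ([pU 2, pN 3] ++ (sh 1 B ++ [pN 0, pN 0])) ([] ++ (sh 1 B ++ [pN 0, pN 0])) :=
    (Iso.zig (by decide)).right _
  exact (s1.trans s2).trans s3

/-- the upper part, below which the first strand passes over the other three -/
theorem cob_ov (h : St_Nat) (B : Word) (hB : Ok B 2 2) :
    Iso 4 (ov true 3 ++ (B ++ [pN 1, pN 0])) (sh 1 B ++ [pN 0, pN 0]) := by
  have hB1 : Ok (sh 1 B) 4 4 := (hB.sh 1).add 1
  have ok2 : Ok (ov true 2) 4 4 := ⟨by decide, by decide, rfl⟩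
  have h1 : Iso 4 ([pX 2 true] ++ B) (B ++ [pX 2 true]) :=
    (thm_Comm B [pX 0 true] 2 2 2 2 hB ⟨by decide, rfl⟩).symm
  have s1 : Iso 4 (ov true 2 ++ (([pX 2 true] ++ B) ++ [pN 1, pN 0]))
      (ov true 2 ++ ((B ++ [pX 2 true]) ++ [pN 1, pN 0])) := Iso.mid _ _ ok2 h1
  rw [List.append_assoc B] at s1
  have h2 : Iso 4 (ov true 2 ++ B) (sh 1 B ++ ov true 2) := (h true B 2 2 hB).add 1
  have s2 : Iso 4 ((ov true 2 ++ B) ++ ([pX 2 true] ++ [pN 1, pN 0]))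
      ((sh 1 B ++ ov true 2) ++ ([pX 2 true] ++ [pN 1, pN 0])) := h2.right _
  rw [List.append_assoc (ov true 2), List.append_assoc (sh 1 B)] at s2
  have h3 : Iso 4 [pX 2 true, pN 1] [pX 1 false, pN 2] :=
    (Iso.slN (i := 1) false (by decide)).symm
  have s3 : Iso 4 (ov true 2 ++ ([pX 2 true, pN 1] ++ [pN 0]))
      (ov true 2 ++ ([pX 1 false, pN 2] ++ [pN 0])) := Iso.mid _ _ ok2 h3
  have h4 : Iso 4 ([pX 0 true] ++ ([pX 1 true, pX 1 false] ++ [pN 2, pN 0]))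
      ([pX 0 true] ++ ([] ++ [pN 2, pN 0])) :=
    Iso.mid _ _ (k := 4) ⟨by decide, rfl⟩ (Iso.r2 true (by decide))
  have h5 : Iso 4 ([pX 0 true] ++ [pN 2, pN 0]) ([pX 0 true] ++ [pN 0, pN 0]) :=
    Iso.left (k := 4) ⟨by decide, rfl⟩ (Iso.swap .N .N 0 2 (by decide) (by decide)).symm
  have h6 : Iso 4 ([pX 0 true, pN 0] ++ [pN 0]) ([pN 0] ++ [pN 0]) :=
    (Iso.r1N true (by decide)).right _
  have h7 : Iso 4 (ov true 2 ++ ([pX 2 true] ++ [pN 1, pN 0])) [pN 0, pN 0] :=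
    ((s3.trans h4).trans h5).trans h6
  exact (s1.trans s2).trans (Iso.left hB1 h7)

theorem thm_T2 (h : St_Nat) : St_T2 := by
  intro A B hA hB
  have hW : Ok ([pU 0, pU 1] ++ A) 0 4 :=
    Ok.append (k := 4) ⟨by decide, by decide, rfl⟩ (hA.add 2)
  have e1 : NW (rotW A ++ B) =
      ([pU 0] ++ (sh 1 ([pU 0, pU 1] ++ A) ++ [pN 0])) ++ (B ++ [pN 1, pN 0]) := by
    show pU 0 :: pU 1 :: ((pU 2 :: (sh 1 A ++ [pN 0])) ++ B ++ [pN 1, pN 0]) = _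
    rw [List.append_assoc]
    rfl
  have e2 : NW (A ++ rotW B) = ([pU 0, pU 1] ++ A) ++ (rotW B ++ [pN 1, pN 0]) := by
    show pU 0 :: pU 1 :: ((A ++ rotW B) ++ [pN 1, pN 0]) = _
    rw [List.append_assoc]
    rfl
  rw [e1, e2]
  have s1 := (bend_rot h _ hW).right (B ++ [pN 1, pN 0])
  rw [List.append_assoc ([pU 0, pU 1] ++ A)] at s1
  have s2 := Iso.left hW ((cob_ov h B hB).trans (cob_rot B hB).symm)
  exact s1.trans s2

end Pool.Agent.ARB
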