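import Pool.Agent.Helper2.Instances
import Pool.Agent.Helper2.Diagram

/-!
# ARB: the vertex model over the Laurent polynomials
-/

set_option autoImplicit false

namespace Pool.Agent.ARB.Vert

open LaurentPolynomial Pool.Agent.Helper2

/-- Weights of the cup. -/
noncomputable def wU : Bool → Bool → LaurentPolynomial ℤ
  | true, false => 1
  | false, true => -T 2
  | _, _ => 0

/-- Cup of the vertex model. -/
noncomputable def cup0 (ψ : List Bool → LaurentPolynomial ℤ) : List Bool → LaurentPolynomial ℤ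
  | x :: y :: l => wU x y * ψ l
  | _ => 0

/-- Cap of the vertex model. -/
noncomputable def cap0 (ψ : List Bool → LaurentPolynomial ℤ) (l : List Bool) :
    LaurentPolynomial ℤ :=
  ψ (false :: true :: l) - T (-2) * ψ (true :: false :: l)

lemma tt : (T (-2) : LaurentPolynomial ℤ) * T 2 = 1 := by
  rw [← T_add]
  simp

lemma cup0_lin : Lin2 cup0 := by
  intro φ₁ φ₂ c₁ c₂
  funext l
  rcases l with _ | ⟨a, _ | ⟨b, l⟩⟩
  · simp [cup0]
  · simp [cup0]
  · simp only [cup0]
    ring

lemma cap0_lin : Lin2 cap0 := by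
  intro φ₁ φ₂ c₁ c₂
  funext l
  simp only [cap0]
  ring

/-- Supported on lists of length `n`. -/
def VLen (n : ℕ) (ψ : List Bool → LaurentPolynomial ℤ) : Prop := ∀ l, ψ l ≠ 0 → l.length = n

lemma VLen.ext {n : ℕ} {φ ψ : List Bool → LaurentPolynomial ℤ} (h : VLen n φ) (h' : VLen n ψ)
    (H : ∀ l, l.length = n → φ l = ψ l) : φ = ψ := by
  funext l
  by_cases h1 : l.length = n
  · exact H l h1
  · have h2 : φ l = 0 := by
      by_contra hne
      exact h1 (h l hne)
    have h3 : ψ l = 0 := by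
      by_contra hne
      exact h1 (h' l hne)
    rw [h2, h3]

lemma cup_len (n i : ℕ) (ψ : List Bool → LaurentPolynomial ℤ) (_hi : i ≤ n) (h : VLen n ψ) :
    VLen (n + 2) (lift cup0 i ψ) := by
  intro l hl
  by_cases hlen : l.length < i
  · exact absurd (lift_short _ _ _ _ hlen) hl
  obtain ⟨p, r, rfl, rfl⟩ := split_list l i (by omega)
  rw [lift_append] at hl
  rcases r with _ | ⟨a, _ | ⟨b, r⟩⟩ <;> simp only [cup0] at hl
  · exact absurd rfl hl
  · exact absurd rfl hl
  · have h3 := h _ (right_ne_zero_of_mul hl)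
    simp at h3 ⊢
    omega

lemma cap_len (n i : ℕ) (ψ : List Bool → LaurentPolynomial ℤ) (_hi : i ≤ n)
    (h : VLen (n + 2) ψ) : VLen n (lift cap0 i ψ) := by
  intro l hl
  by_cases hlen : l.length < i
  · exact absurd (lift_short _ _ _ _ hlen) hl
  obtain ⟨p, r, rfl, rfl⟩ := split_list l i (by omega)
  rw [lift_append] at hl
  simp only [cap0] at hl
  have key : ψ (p ++ false :: true :: r) ≠ 0 ∨ ψ (p ++ true :: false :: r) ≠ 0 := by
    by_contra hcon
    push Not at hcon
    apply hl
    rw [hcon.1, hcon.2]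
    simp
  rcases key with hk | hk
  · have h3 := h _ hk
    simp at h3 ⊢
    omega
  · have h3 := h _ hk
    simp at h3 ⊢
    omega

lemma rel1 (n i : ℕ) (ψ : List Bool → LaurentPolynomial ℤ) (h : VLen n ψ) (hi : i ≤ n) :
    lift cap0 i (lift cup0 i ψ) = loopVal • ψ := by
  refine VLen.ext (n := n) (cap_len _ _ _ hi (cup_len _ _ _ hi h)) ?_ ?_
  · intro l hl
    apply h
    intro h0
    simp [h0] at hl
  intro l hl
  obtain ⟨p, r, rfl, rfl⟩ := split_list l i (by omega)
  have := lift_comp_append cap0 cup0 p 0 0 ψ r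
  simp only [Nat.add_zero, lift_zero, lift_zero'] at this
  rw [this]
  simp only [cap0, cup0, wU, loopVal, Pi.smul_apply, smul_eq_mul]
  ring

lemma rel2 (n i : ℕ) (ψ : List Bool → LaurentPolynomial ℤ) (h : VLen n ψ) (hi : i + 1 ≤ n) :
    lift cap0 (i + 1) (lift cup0 i ψ) = ψ := by
  refine VLen.ext (n := n) (cap_len _ _ _ hi (cup_len _ _ _ (by omega) h)) h ?_
  intro l hl
  obtain ⟨p, r, rfl, rfl⟩ := split_list l i (by omega)
  have := lift_comp_append cap0 cup0 p 1 0 ψ r
  simp only [Nat.add_zero, lift_zero'] at this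
  rw [this]
  rcases r with _ | ⟨a, r⟩
  · simp at hl; omega
  · cases a
    · simp only [lift_succ_cons, lift_zero, cap0, cup0, wU]
      linear_combination (ψ (p ++ false :: r)) * tt
    · simp only [lift_succ_cons, lift_zero, cap0, cup0, wU]
      ring

lemma rel3 (n i : ℕ) (ψ : List Bool → LaurentPolynomial ℤ) (h : VLen n ψ) (hi : i + 1 ≤ n) :
    lift cap0 i (lift cup0 (i + 1) ψ) = ψ := by
  refine VLen.ext (n := n) (cap_len _ _ _ (by omega) (cup_len _ _ _ hi h)) h ?_
  intro l hl
  obtain ⟨p, r, rfl, rfl⟩ := split_list l i (by omega)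
  have := lift_comp_append cap0 cup0 p 0 1 ψ r
  simp only [Nat.add_zero, lift_zero] at this
  rw [this]
  rcases r with _ | ⟨a, r⟩
  · simp at hl; omega
  · cases a
    · simp only [lift_succ_cons, lift_zero, cap0, cup0, wU]
      ring
    · simp only [lift_succ_cons, lift_zero, cap0, cup0, wU]
      linear_combination (ψ (p ++ true :: r)) * tt

lemma rel4 (n i k : ℕ) (ψ : List Bool → LaurentPolynomial ℤ) (h : VLen n ψ)
    (hi : i + k + 2 ≤ n) :
    lift cap0 (i + k + 2) (lift cup0 i ψ) = lift cup0 i (lift cap0 (i + k) ψ) := by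
  obtain ⟨m, rfl⟩ : ∃ m, n = m + 2 := ⟨n - 2, by omega⟩
  refine VLen.ext (n := m + 2) (cap_len _ _ _ (by omega) (cup_len _ _ _ (by omega) h))
    (cup_len _ _ _ (by omega) (cap_len _ _ _ (by omega) h)) ?_
  intro l hl
  obtain ⟨p, r, rfl, rfl⟩ := split_list l i (by omega)
  have h1 := lift_comp_append cap0 cup0 p (k + 2) 0 ψ r
  have h2 := lift_comp_append cup0 cap0 p 0 k ψ r
  simp only [Nat.add_zero, lift_zero, lift_zero', ← Nat.add_assoc] at h1 h2
  rw [h1, h2]
  rcases r with _ | ⟨a, _ | ⟨b, r⟩⟩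
  · simp at hl; omega
  · simp at hl; omega
  · rw [lift_succ_cons, lift_succ_cons]
    simp only [cup0]
    exact congrFun ((cap0_lin.lift k).smul (fun l' => ψ (p ++ l')) (wU a b)) r

lemma rel5 (n i k : ℕ) (ψ : List Bool → LaurentPolynomial ℤ) (h : VLen n ψ)
    (hi : i + k + 2 ≤ n) :
    lift cap0 i (lift cup0 (i + k + 2) ψ) = lift cup0 (i + k) (lift cap0 i ψ) := by
  obtain ⟨m, rfl⟩ : ∃ m, n = m + 2 := ⟨n - 2, by omega⟩
  refine VLen.ext (n := m + 2) (cap_len _ _ _ (by omega) (cup_len _ _ _ (by omega) h))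
    (cup_len _ _ _ (by omega) (cap_len _ _ _ (by omega) h)) ?_
  intro l hl
  obtain ⟨p, r, rfl, rfl⟩ := split_list l i (by omega)
  have h1 := lift_comp_append cap0 cup0 p 0 (k + 2) ψ r
  have h2 := lift_comp_append cup0 cap0 p k 0 ψ r
  simp only [Nat.add_zero, lift_zero, lift_zero', ← Nat.add_assoc] at h1 h2
  rw [h1, h2]
  simp only [cap0, lift_succ_cons]
  have := congrFun ((cup0_lin.lift k) (fun l' => ψ (p ++ false :: true :: l'))
    (fun l' => ψ (p ++ true :: false :: l')) 1 (-T (-2))) r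
  have h4 : (fun l => (1 : LaurentPolynomial ℤ) * ψ (p ++ false :: true :: l) +
      -T (-2) * ψ (p ++ true :: false :: l)) =
      fun l => ψ (p ++ false :: true :: l) - T (-2) * ψ (p ++ true :: false :: l) := by
    funext l; ring
  rw [h4] at this
  have h5 : (cap0 fun l' => ψ (p ++ l')) =
      fun l => ψ (p ++ false :: true :: l) - T (-2) * ψ (p ++ true :: false :: l) := by
    funext l; simp [cap0]
  rw [h5, this]
  ring

lemma cupcup (n i k : ℕ) (ψ : List Bool → LaurentPolynomial ℤ) (h : VLen n ψ)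
    (hi : i + k ≤ n) :
    lift cup0 (i + 2 + k) (lift cup0 i ψ) = lift cup0 i (lift cup0 (i + k) ψ) := by
  refine VLen.ext (n := n + 2 + 2) (cup_len _ _ _ (by omega) (cup_len _ _ _ (by omega) h))
    (cup_len _ _ _ (by omega) (cup_len _ _ _ (by omega) h)) ?_
  intro l hl
  obtain ⟨p, r, rfl, rfl⟩ := split_list l i (by omega)
  have h1 := lift_comp_append cup0 cup0 p (k + 2) 0 ψ r
  have h2 := lift_comp_append cup0 cup0 p 0 k ψ r
  have e : p.length + 2 + k = p.length + (k + 2) := by omega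
  rw [e]
  simp only [Nat.add_zero, lift_zero, lift_zero'] at h1 h2
  rw [h1, h2]
  rcases r with _ | ⟨a, _ | ⟨b, r⟩⟩
  · simp at hl; omega
  · simp at hl; omega
  · rw [show k + 2 = k + 1 + 1 from rfl, lift_succ_cons, lift_succ_cons]
    simp only [cup0]
    exact congrFun ((cup0_lin.lift k).smul (fun l' => ψ (p ++ l')) (wU a b)) r

lemma capcap (n i k : ℕ) (ψ : List Bool → LaurentPolynomial ℤ) (h : VLen n ψ)
    (hi : i + k + 4 ≤ n) :
    lift cap0 (i + k) (lift cap0 i ψ) = lift cap0 i (lift cap0 (i + 2 + k) ψ) := by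
  obtain ⟨m, rfl⟩ : ∃ m, n = m + 2 + 2 := ⟨n - 4, by omega⟩
  refine VLen.ext (n := m) (cap_len _ _ _ (by omega) (cap_len _ _ _ (by omega) h))
    (cap_len _ _ _ (by omega) (cap_len _ _ _ (by omega) h)) ?_
  intro l hl
  obtain ⟨p, r, rfl, rfl⟩ := split_list l i (by omega)
  have h1 := lift_comp_append cap0 cap0 p k 0 ψ r
  have h2 := lift_comp_append cap0 cap0 p 0 (k + 2) ψ r
  have e : p.length + 2 + k = p.length + (k + 2) := by omega
  rw [e]
  simp only [Nat.add_zero, lift_zero, lift_zero'] at h1 h2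
  rw [h1, h2]
  have := congrFun ((cap0_lin.lift k) (fun l' => ψ (p ++ false :: true :: l'))
    (fun l' => ψ (p ++ true :: false :: l')) 1 (-T (-2))) r
  have h4 : (fun l => (1 : LaurentPolynomial ℤ) * ψ (p ++ false :: true :: l) +
      -T (-2) * ψ (p ++ true :: false :: l)) =
      fun l => ψ (p ++ false :: true :: l) - T (-2) * ψ (p ++ true :: false :: l) := by
    funext l; ring
  rw [h4] at this
  have h5 : (cap0 fun l' => ψ (p ++ l')) =
      fun l => ψ (p ++ false :: true :: l) - T (-2) * ψ (p ++ true :: false :: l) := by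
    funext l; simp [cap0]
  rw [h5, this]
  have h6 : ∀ a b : Bool, lift cap0 (k + 2) (fun l' => ψ (p ++ l')) (a :: b :: r) =
      lift cap0 k (fun l' => ψ (p ++ a :: b :: l')) r := by
    intro a b
    rw [show k + 2 = k + 1 + 1 from rfl, lift_succ_cons, lift_succ_cons]
  have h7 : cap0 (lift cap0 (k + 2) fun l' => ψ (p ++ l')) r =
      lift cap0 (k + 2) (fun l' => ψ (p ++ l')) (false :: true :: r) -
        T (-2) * lift cap0 (k + 2) (fun l' => ψ (p ++ l')) (true :: false :: r) := rfl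
  rw [h7, h6, h6]
  ring

/-- The vertex model. -/
noncomputable def vM : Model (LaurentPolynomial ℤ) (List Bool → LaurentPolynomial ℤ) where
  Supp := VLen
  δ := loopVal
  init := fun l => if l = [] then 1 else 0
  cup := liftL cup0 cup0_lin
  cap := liftL cap0 cap0_lin
  supp_init := by
    intro l hl
    by_cases h : l = []
    · simp [h]
    · simp [h] at hl
  supp_cup n i ψ hi h := cup_len n i ψ hi h
  supp_cap n i ψ hi h := cap_len n i ψ hi h
  rel1 n i ψ h hi := rel1 n i ψ h hi
  rel2 n i ψ h hi := rel2 n i ψ h hi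
  rel3 n i ψ h hi := rel3 n i ψ h hi
  rel4 n i k ψ h hi := rel4 n i k ψ h hi
  rel5 n i k ψ h hi := rel5 n i k ψ h hi

lemma vM_free (c c' : LaurentPolynomial ℤ) (h : c • vM.init = c' • vM.init) : c = c' := by
  have := congrFun h []
  simpa [vM] using this

lemma vM_add (n : ℕ) (x y : List Bool → LaurentPolynomial ℤ) (hx : vM.Supp n x)
    (hy : vM.Supp n y) : vM.Supp n (x + y) := by
  intro l hl
  by_contra hne
  have h1 : x l = 0 := by
    by_contra h
    exact hne (hx l h)
  have h2 : y l = 0 := by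
    by_contra h
    exact hne (hy l h)
  apply hl
  simp [h1, h2]

lemma vM_smul (n : ℕ) (c : LaurentPolynomial ℤ) (x : List Bool → LaurentPolynomial ℤ)
    (hx : vM.Supp n x) : vM.Supp n (c • x) := by
  intro l hl
  apply hx l
  intro h
  apply hl
  simp [h]

end Pool.Agent.ARB.Vert
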