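import Pool.Agent.ARB.TopSts2
import Pool.Agent.ARB.VertA

/-!
# ARB, module VERT: a good model with a torsion free initial vector
-/

set_option autoImplicit false

namespace Pool.Agent.ARB

open LaurentPolynomial Pool.Agent.Helper2

theorem thm_Vert : St_Vert :=
  ⟨List Bool → LP, inferInstance, inferInstance, Vert.vM,
    { del := rfl
      add := Vert.vM_add
      smul := Vert.vM_smul
      cupcup := fun n i k x hi h => Vert.cupcup n i k x h hi
      capcap := fun n i k x hi h => Vert.capcap n i k x h hi },
    Vert.vM_free⟩

end Pool.Agent.ARB
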