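import Pool.Agent.ARB.RR
import Pool.Agent.ARB.T17
import Pool.Agent.ARB.T2
import Pool.Agent.ARB.Rev
import Pool.Agent.ARB.Inv
import Pool.Agent.ARB.BrRun
import Pool.Agent.ARB.Vert
import Pool.Agent.ARB.V.BL
import Pool.Agent.ARB.V.BO
import Pool.Agent.ARB.V.BR
import Pool.Agent.ARB.V.BXU
import Pool.Agent.ARB.V.F
import Pool.Agent.ARB.V.FL
import Pool.Agent.ARB.V.J
import Pool.Agent.ARB.V.K
import Pool.Agent.ARB.V.Mod
import Pool.Agent.ARB.V.Nat
import Pool.Agent.ARB.V.RI
import Pool.Agent.ARB.V.T3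
import Pool.Agent.ARB.V.T3a
import Pool.Agent.ARB.V.T3b
import Pool.Agent.ARB.V.T5

/-!
# ARB: the topological facts, all together
-/

set_option autoImplicit false

namespace Pool.Agent.ARB

theorem all_Nat : St_Nat := thm_Nat thm_Comm

theorem all_K : St_K := thm_K thm_Comm all_Nat

theorem all_F : St_F := thm_F thm_Comm all_Nat all_K

theorem all_J : St_J := thm_J thm_Comm all_K

theorem all_FL : St_FL := thm_FL thm_Comm

theorem all_RI : St_RI := thm_RI all_F all_FL thm_RR

theorem all_T3 : St_T3 := thm_T3 all_RI all_J all_FL thm_Mod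

theorem all_T3b : St_T3b := thm_T3b all_RI all_T3

theorem all_BX : St_BX := thm_BX all_Nat

theorem all_BU : St_BU := thm_BU thm_Comm

theorem all_BO : St_BO := thm_BO all_BX all_BU

theorem all_BL : St_BL := thm_BL thm_Comm all_BX all_BU all_BO

theorem all_BR : St_BR := thm_BR all_BL all_BO

theorem all_T5s : St_T5s := thm_T5s thm_Comm all_BO all_BR

theorem all_T5 : St_T5 := thm_T5 thm_Comm all_BO all_BR

theorem all_T1 : St_T1 := thm_T1 (thm_Dual thm_Rev)

theorem all_T2 : St_T2 := thm_T2 all_Nat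

/-- the topological facts -/
theorem top_of_T4 (h4 : St_T4) : Top where
  okA := okA
  refl := Iso.refl
  symm := fun _ _ _ h => h.symm
  trans := fun _ _ _ _ h h' => h.trans h'
  congS := congS
  congR := congR
  congN := congN
  t1 := all_T1
  t2 := all_T2
  t3 := all_T3
  t3a := thm_T3a
  t3b := all_T3b
  t4 := h4
  t5 := all_T5
  t7 := thm_T7

end Pool.Agent.ARB
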